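import Pool.Agent.Helper43.HH.EL

/-!
# HH: the energy lemma, forms with loads
-/

open Set
open Pool.Agent.Helper83.OP
open Pool.Agent.Helper93.HH

namespace Pool.Agent.Helper43.HH

variable {V : Type} {H : SimpleGraph V} {U : Set V}

theorem es_sub (T : Tri H U) : T.es ⊆ H.edgeSet := by
  rintro f ⟨j, hf⟩
  exact (T.W j).edges_subset_edgeSet hf

open Classical in
/-- The weight of the members of `S` (with the property `q`) in conflict with the tripod `T`. -/
theorem conf_le [Fintype V] (X : Sym2 V → Sym2 V → Prop) {I : Type} (S : Finset I)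
    (T : I → Tri H U) (mu : I → ℝ) (hmu : ∀ i ∈ S, 0 ≤ mu i) (T0 : Tri H U) :
    ∑ j ∈ S with Tri.Conf X T0 (T j), mu j ≤
      ∑ v ∈ T0.vs.toFinset, ∑ j ∈ S with v ∈ (T j).vs, mu j +
      ∑ f ∈ T0.es.toFinset, ∑ f' ∈ H.edgeSet.toFinset with X f f',
        ∑ j ∈ S with f' ∈ (T j).es, mu j := by
  have h1 : ∀ j ∈ S, (if Tri.Conf X T0 (T j) then mu j else 0) ≤
      ∑ v ∈ T0.vs.toFinset, (if v ∈ (T j).vs then mu j else 0) +
      ∑ f ∈ T0.es.toFinset, ∑ f' ∈ H.edgeSet.toFinset with X f f',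
        (if f' ∈ (T j).es then mu j else 0) := by
    intro j hj
    have hm := hmu j hj
    have hA : 0 ≤ ∑ v ∈ T0.vs.toFinset, (if v ∈ (T j).vs then mu j else 0) :=
      Finset.sum_nonneg fun v _ => by split_ifs <;> simp [hm]
    have hB : ∀ f ∈ T0.es.toFinset, 0 ≤ ∑ f' ∈ H.edgeSet.toFinset with X f f',
        (if f' ∈ (T j).es then mu j else 0) :=
      fun f _ => Finset.sum_nonneg fun f' _ => by split_ifs <;> simp [hm]
    by_cases hc : Tri.Conf X T0 (T j)
    · rw [if_pos hc]
      rcases hc with ⟨v, hv, hv'⟩ | ⟨f, hf, f', hf', hX⟩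
      · have h2 : (if v ∈ (T j).vs then mu j else 0) ≤
            ∑ v ∈ T0.vs.toFinset, (if v ∈ (T j).vs then mu j else 0) := by
          refine Finset.single_le_sum (f := fun v => if v ∈ (T j).vs then mu j else 0) ?_
            (Set.mem_toFinset.2 hv)
          intro v _
          show (0 : ℝ) ≤ if _ then _ else _
          split_ifs <;> simp [hm]
        rw [if_pos hv'] at h2
        have h3 := Finset.sum_nonneg hB
        linarith
      · have h2 : (if f' ∈ (T j).es then mu j else 0) ≤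
            ∑ f' ∈ H.edgeSet.toFinset with X f f', (if f' ∈ (T j).es then mu j else 0) := by
          refine Finset.single_le_sum (f := fun f' => if f' ∈ (T j).es then mu j else 0) ?_
            (Finset.mem_filter.2 ⟨Set.mem_toFinset.2 (es_sub _ hf'), hX⟩)
          intro v _
          show (0 : ℝ) ≤ if _ then _ else _
          split_ifs <;> simp [hm]
        rw [if_pos hf'] at h2
        have h3 := Finset.single_le_sum (f := fun f => ∑ f' ∈ H.edgeSet.toFinset with X f f',
          (if f' ∈ (T j).es then mu j else 0)) hB (Set.mem_toFinset.2 hf)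
        linarith
    · rw [if_neg hc]
      exact add_nonneg hA (Finset.sum_nonneg hB)
  calc ∑ j ∈ S with Tri.Conf X T0 (T j), mu j
      = ∑ j ∈ S, (if Tri.Conf X T0 (T j) then mu j else 0) := Finset.sum_filter _ _
    _ ≤ ∑ j ∈ S, (∑ v ∈ T0.vs.toFinset, (if v ∈ (T j).vs then mu j else 0) +
      ∑ f ∈ T0.es.toFinset, ∑ f' ∈ H.edgeSet.toFinset with X f f',
        (if f' ∈ (T j).es then mu j else 0)) := Finset.sum_le_sum h1
    _ = _ := by
      rw [Finset.sum_add_distrib, Finset.sum_comm]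
      congr 1
      · refine Finset.sum_congr rfl fun v _ => ?_
        rw [Finset.sum_filter]
      · rw [Finset.sum_comm]
        refine Finset.sum_congr rfl fun f _ => ?_
        rw [Finset.sum_comm]
        refine Finset.sum_congr rfl fun f' _ => ?_
        rw [Finset.sum_filter]

open Classical in
/-- the load of an edge -/
noncomputable def phiE {I : Type} (S : Finset I) (T : I → Tri H U) (mu : I → ℝ) (f : Sym2 V) : ℝ :=
  ∑ j ∈ S with f ∈ (T j).es, mu j

open Classical in
/-- the load of a vertex -/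
noncomputable def phiV {I : Type} (S : Finset I) (T : I → Tri H U) (mu : I → ℝ) (v : V) : ℝ :=
  ∑ j ∈ S with v ∈ (T j).vs, mu j

open Classical in
/-- EL with loads: each edge is crossed by at most one other edge. -/
theorem el_energy [Fintype V] (X : Sym2 V → Sym2 V → Prop) (hs : ∀ f f', X f f' → X f' f)
    (h1 : ∀ f ∈ H.edgeSet, {f' | f' ∈ H.edgeSet ∧ X f f'}.ncard ≤ 1)
    (hP : PlanarLike H X) {I : Type} (S : Finset I) (T : I → Tri H U) (mu : I → ℝ)
    (hmu : ∀ i ∈ S, 0 ≤ mu i) (b : ℝ) (hb0 : 0 ≤ b)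
    (hb : ∑ i ∈ S, mu i * (∑ v ∈ (T i).vs.toFinset, phiV S T mu v +
      ∑ f ∈ (T i).es.toFinset, phiE S T mu f) ≤ b * ∑ i ∈ S, mu i) :
    ∑ i ∈ S, mu i ≤ b * (132 * U.ncard) := by
  refine el X hs hP S T mu hmu b hb0 (le_trans ?_ hb)
  have hE0 : ∀ f, 0 ≤ phiE S T mu f := fun f =>
    Finset.sum_nonneg fun j hj => hmu j (Finset.mem_filter.1 hj).1
  -- the crossing part
  have hcr : ∑ i ∈ S, mu i * ∑ f ∈ (T i).es.toFinset, ∑ f' ∈ H.edgeSet.toFinset with X f f',
      phiE S T mu f' ≤ ∑ i ∈ S, mu i * ∑ f ∈ (T i).es.toFinset, phiE S T mu f := by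
    have key : ∀ g : Sym2 V → ℝ, ∑ i ∈ S, mu i * ∑ f ∈ (T i).es.toFinset, g f =
        ∑ f ∈ H.edgeSet.toFinset, phiE S T mu f * g f := by
      intro g
      simp only [phiE, Finset.sum_mul, Finset.mul_sum, Finset.sum_filter]
      rw [Finset.sum_comm]
      refine Finset.sum_congr rfl fun i _ => ?_
      have : (T i).es.toFinset = H.edgeSet.toFinset.filter fun f => f ∈ (T i).es := by
        ext f
        simp only [Finset.mem_filter, Set.mem_toFinset]
        exact ⟨fun h => ⟨es_sub _ h, h⟩, fun h => h.2⟩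
      rw [this, Finset.sum_filter]
      refine Finset.sum_congr rfl fun f _ => ?_
      split_ifs <;> simp
    rw [key, key]
    simp only [Finset.mul_sum]
    -- bound each product by half the sum of squares
    have h2 : ∀ f ∈ H.edgeSet.toFinset, ∀ f' ∈ H.edgeSet.toFinset.filter (fun f' => X f f'),
        phiE S T mu f * phiE S T mu f' ≤
          (phiE S T mu f * phiE S T mu f + phiE S T mu f' * phiE S T mu f') / 2 := by
      intro f _ f' _
      nlinarith [sq_nonneg (phiE S T mu f - phiE S T mu f')]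
    refine (Finset.sum_le_sum fun f hf => Finset.sum_le_sum (h2 f hf)).trans ?_
    have hcard : ∀ f ∈ H.edgeSet.toFinset,
        ((H.edgeSet.toFinset.filter fun f' => X f f').card : ℝ) ≤ 1 := by
      intro f hf
      have h3 := h1 f (Set.mem_toFinset.1 hf)
      have h4 : {f' | f' ∈ H.edgeSet ∧ X f f'} =
          ((H.edgeSet.toFinset.filter fun f' => X f f' : Finset (Sym2 V)) : Set (Sym2 V)) := by
        ext f'
        simp
      rw [h4, Set.ncard_coe_finset] at h3
      exact_mod_cast h3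
    have hA : ∑ f ∈ H.edgeSet.toFinset, ∑ f' ∈ H.edgeSet.toFinset with X f f',
        phiE S T mu f * phiE S T mu f ≤ ∑ f ∈ H.edgeSet.toFinset,
          phiE S T mu f * phiE S T mu f := by
      refine Finset.sum_le_sum fun f hf => ?_
      rw [Finset.sum_const, nsmul_eq_mul]
      have h5 := mul_self_nonneg (phiE S T mu f)
      nlinarith [hcard f hf]
    have hB : ∑ f ∈ H.edgeSet.toFinset, ∑ f' ∈ H.edgeSet.toFinset with X f f',
        phiE S T mu f' * phiE S T mu f' = ∑ f ∈ H.edgeSet.toFinset,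
        ∑ f' ∈ H.edgeSet.toFinset with X f f', phiE S T mu f * phiE S T mu f := by
      simp only [Finset.sum_filter]
      rw [Finset.sum_comm]
      refine Finset.sum_congr rfl fun f _ => Finset.sum_congr rfl fun f' _ => ?_
      have e : X f' f ↔ X f f' := ⟨hs _ _, hs _ _⟩
      simp only [e]
    calc ∑ f ∈ H.edgeSet.toFinset, ∑ f' ∈ H.edgeSet.toFinset with X f f',
          (phiE S T mu f * phiE S T mu f + phiE S T mu f' * phiE S T mu f') / 2
        = (∑ f ∈ H.edgeSet.toFinset, ∑ f' ∈ H.edgeSet.toFinset with X f f',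
            phiE S T mu f * phiE S T mu f + ∑ f ∈ H.edgeSet.toFinset,
            ∑ f' ∈ H.edgeSet.toFinset with X f f', phiE S T mu f' * phiE S T mu f') / 2 := by
          rw [← Finset.sum_add_distrib, Finset.sum_div]
          refine Finset.sum_congr rfl fun f _ => ?_
          rw [← Finset.sum_add_distrib, Finset.sum_div]
      _ ≤ ∑ f ∈ H.edgeSet.toFinset, phiE S T mu f * phiE S T mu f := by
          rw [hB]
          linarith
  calc ∑ i ∈ S, ∑ j ∈ S with Tri.Conf X (T i) (T j), mu i * mu j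
      = ∑ i ∈ S, mu i * ∑ j ∈ S with Tri.Conf X (T i) (T j), mu j := by
        refine Finset.sum_congr rfl fun i _ => ?_
        rw [Finset.mul_sum]
    _ ≤ ∑ i ∈ S, mu i * (∑ v ∈ (T i).vs.toFinset, phiV S T mu v +
          ∑ f ∈ (T i).es.toFinset, ∑ f' ∈ H.edgeSet.toFinset with X f f', phiE S T mu f') :=
        Finset.sum_le_sum fun i hi => mul_le_mul_of_nonneg_left
          (conf_le X S T mu hmu (T i)) (hmu i hi)
    _ ≤ _ := by
        simp only [mul_add, Finset.sum_add_distrib]
        linarith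

open Classical in
/-- EL with loads, uniform form. -/
theorem el_uniform [Fintype V] (X : Sym2 V → Sym2 V → Prop) (hs : ∀ f f', X f f' → X f' f)
    (h1 : ∀ f ∈ H.edgeSet, {f' | f' ∈ H.edgeSet ∧ X f f'}.ncard ≤ 1)
    (hP : PlanarLike H X) {I : Type} (S : Finset I) (T : I → Tri H U) (mu : I → ℝ)
    (hmu : ∀ i ∈ S, 0 ≤ mu i) (b : ℝ) (hb0 : 0 ≤ b)
    (hb : ∀ i ∈ S, ∑ v ∈ (T i).vs.toFinset, phiV S T mu v +
      ∑ f ∈ (T i).es.toFinset, phiE S T mu f ≤ b) :
    ∑ i ∈ S, mu i ≤ b * (132 * U.ncard) := by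
  refine el_energy X hs h1 hP S T mu hmu b hb0 ?_
  rw [Finset.mul_sum]
  refine Finset.sum_le_sum fun i hi => ?_
  rw [mul_comm b]
  exact mul_le_mul_of_nonneg_left (hb i hi) (hmu i hi)

end Pool.Agent.Helper43.HH
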