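import Pool.Agent.Helper43.HH.Blocks

/-!
# HH: groups of three marks in a rooted forest
-/

namespace Pool.Agent.Helper43.HH

section

variable {V Q : Type} {par : V → V} {dep : V → ℕ}

theorem groups_aux [Finite V] [Finite Q]
    (hpar : ∀ v, dep v ≠ 0 → dep (par v) + 1 = dep v) (pos : Q → V) :
    ∀ n : ℕ, ∀ S : Set Q, S.ncard ≤ n →
    ∃ (J : Type) (_ : Fintype J) (q : J → Fin 3 → Q) (c : J → V) (k : J → Fin 3 → ℕ),
      (∀ j i, q j i ∈ S) ∧
      (∀ j i j' i', q j i = q j' i' → j = j' ∧ i = i') ∧
      (∀ j i, k j i ≤ dep (pos (q j i)) ∧ par^[k j i] (pos (q j i)) = c j) ∧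
      (∀ v, {a : J × Fin 3 | ∃ s < k a.1 a.2, par^[s] (pos (q a.1 a.2)) = v}.ncard ≤
        min 2 {m | m ∈ S ∧ Anc par dep v (pos m)}.ncard) ∧
      ∀ t, {m : Q | m ∈ S ∧ par^[dep (pos m)] (pos m) = t ∧ ∀ j i, q j i ≠ m}.ncard ≤ 2 := by
  classical
  have := Fintype.ofFinite V
  intro n
  induction n with
  | zero =>
    intro S hS
    have hS0 : S = ∅ := (Set.ncard_eq_zero (Set.toFinite _)).1 (Nat.le_zero.1 hS)
    subst hS0
    refine ⟨Empty, inferInstance, fun j => j.elim, fun j => j.elim, fun j => j.elim,
      fun j => j.elim, fun j => j.elim, fun j => j.elim, ?_, ?_⟩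
    · intro v
      rw [show {a : Empty × Fin 3 | _} = (∅ : Set (Empty × Fin 3)) from
        Set.eq_empty_iff_forall_notMem.2 fun a => a.1.elim]
      simp
    · intro t
      simp
  | succ n ih =>
    intro S hS
    by_cases hW : ∃ v, 3 ≤ {m | m ∈ S ∧ Anc par dep v (pos m)}.ncard
    · -- the deepest vertex with three marks
      set W : Finset V := Finset.univ.filter fun v =>
        3 ≤ {m | m ∈ S ∧ Anc par dep v (pos m)}.ncard with hWd
      obtain ⟨v0, hv0⟩ := hW
      obtain ⟨v, hvW, hvmax⟩ := Finset.exists_max_image W dep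
        ⟨v0, Finset.mem_filter.2 ⟨Finset.mem_univ _, hv0⟩⟩
      have hv := (Finset.mem_filter.1 hvW).2
      obtain ⟨F, hF, hF3⟩ := Set.exists_subset_card_eq hv
      have hFfin : F.Finite := Set.toFinite _
      obtain ⟨e⟩ : Nonempty (Fin 3 ≃ F) := by
        have : Nat.card F = 3 := by rw [Nat.card_coe_set_eq, hF3]
        exact ⟨(Finite.equivFinOfCardEq this).symm⟩
      set S' : Set Q := S \ F with hS'
      have hFS : F ⊆ S := fun m hm => (hF hm).1
      have hS'c : S'.ncard ≤ n := by
        have h1 := Set.ncard_diff_add_ncard_of_subset hFS (Set.toFinite _)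
        rw [hF3, ← hS'] at h1
        omega
      obtain ⟨J, instJ, q, c, k, h0, h1, h2, h3, h4⟩ := ih S' hS'c
      let q' : Option J → Fin 3 → Q := fun o i => o.elim (e i).1 (fun j => q j i)
      let c' : Option J → V := fun o => o.elim v c
      let k' : Option J → Fin 3 → ℕ := fun o i =>
        o.elim (dep (pos (e i).1) - dep v) (fun j => k j i)
      have hnF : ∀ j i, q j i ∉ F := fun j i => (h0 j i).2
      have hanc : ∀ i, Anc par dep v (pos (e i).1) := fun i => (hF (e i).2).2
      refine ⟨Option J, inferInstance, q', c', k', ?_, ?_, ?_, ?_, ?_⟩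
      · rintro (_ | j) i
        · exact hFS (e i).2
        · exact (h0 j i).1
      · rintro (_ | j) i (_ | j') i' h
        · have h5 : (e i).1 = (e i').1 := h
          exact ⟨rfl, e.injective (Subtype.ext h5)⟩
        · exfalso
          have h5 : (e i).1 = q j' i' := h
          exact hnF j' i' (h5 ▸ (e i).2)
        · exfalso
          have h5 : q j i = (e i').1 := h
          exact hnF j i (h5.symm ▸ (e i').2)
        · obtain ⟨h6, h7⟩ := h1 j i j' i' h
          exact ⟨by rw [h6], h7⟩
      · rintro (_ | j) i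
        · refine ⟨Nat.sub_le _ _, ?_⟩
          exact (hanc i).2
        · exact h2 j i
      · intro u
        -- the new marks whose walk uses `u`
        set E : Set (Fin 3) := {i | ∃ s < dep (pos (e i).1) - dep v, par^[s] (pos (e i).1) = u}
          with hE
        set A : Set (J × Fin 3) := {a | ∃ s < k a.1 a.2, par^[s] (pos (q a.1 a.2)) = u} with hA
        have hcov : {a : Option J × Fin 3 | ∃ s < k' a.1 a.2, par^[s] (pos (q' a.1 a.2)) = u} ⊆
            (fun i : Fin 3 => ((none : Option J), i)) '' E ∪
            (fun a : J × Fin 3 => (some a.1, a.2)) '' A := by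
          rintro ⟨_ | j, i⟩ h
          · exact Or.inl ⟨i, h, rfl⟩
          · exact Or.inr ⟨(j, i), h, rfl⟩
        have hle : {a : Option J × Fin 3 |
            ∃ s < k' a.1 a.2, par^[s] (pos (q' a.1 a.2)) = u}.ncard ≤ E.ncard + A.ncard :=
          (Set.ncard_le_ncard hcov (Set.toFinite _)).trans ((Set.ncard_union_le _ _).trans
            (Nat.add_le_add (Set.ncard_image_le (Set.toFinite _))
              (Set.ncard_image_le (Set.toFinite _))))
        have hA' : A.ncard ≤ min 2 {m | m ∈ S' ∧ Anc par dep u (pos m)}.ncard := h3 u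
        have hSS : {m | m ∈ S' ∧ Anc par dep u (pos m)}.ncard ≤
            {m | m ∈ S ∧ Anc par dep u (pos m)}.ncard :=
          Set.ncard_le_ncard (fun m hm => ⟨hm.1.1, hm.2⟩) (Set.toFinite _)
        rcases E.eq_empty_or_nonempty with hE0 | ⟨i0, hi0⟩
        · rw [hE0, Set.ncard_empty, zero_add] at hle
          exact hle.trans (hA'.trans (min_le_min le_rfl hSS))
        · -- `u` is deeper than `v`
          have hEanc : ∀ i ∈ E, Anc par dep u (pos (e i).1) ∧ dep v < dep u := by
            rintro i ⟨s, hs, h5⟩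
            have h6 := (hanc i).1
            have h7 := anc_iter hpar (pos (e i).1) s (by omega)
            have h8 := iter_dep hpar (pos (e i).1) s (by omega)
            rw [h5] at h7 h8
            exact ⟨h7, by omega⟩
          have hsmall : {m | m ∈ S ∧ Anc par dep u (pos m)}.ncard ≤ 2 := by
            by_contra hno
            push Not at hno
            have h5 := hvmax u (Finset.mem_filter.2 ⟨Finset.mem_univ _, hno⟩)
            have h6 := (hEanc i0 hi0).2
            omega
          have hcount : E.ncard + {m | m ∈ S' ∧ Anc par dep u (pos m)}.ncard ≤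
              {m | m ∈ S ∧ Anc par dep u (pos m)}.ncard := by
            have h5 : E.ncard = ((fun i => (e i).1) '' E).ncard := by
              rw [Set.ncard_image_of_injective]
              intro i i' h
              exact e.injective (Subtype.ext h)
            rw [h5, ← Set.ncard_union_eq ?_ (Set.toFinite _) (Set.toFinite _)]
            · refine Set.ncard_le_ncard ?_ (Set.toFinite _)
              rintro m (⟨i, hi, rfl⟩ | hm)
              · exact ⟨hFS (e i).2, (hEanc i hi).1⟩
              · exact ⟨hm.1.1, hm.2⟩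
            · rw [Set.disjoint_left]
              rintro m ⟨i, hi, rfl⟩ hm
              exact hm.1.2 (e i).2
          have h6 : A.ncard ≤ {m | m ∈ S' ∧ Anc par dep u (pos m)}.ncard :=
            hA'.trans (min_le_right _ _)
          refine le_min ?_ ?_ <;> omega
      · intro t
        refine le_trans (Set.ncard_le_ncard ?_ (Set.toFinite _)) (h4 t)
        rintro m ⟨hm1, hm2, hm3⟩
        refine ⟨⟨hm1, ?_⟩, hm2, ?_⟩
        · intro hmF
          have h5 := hm3 none (e.symm ⟨m, hmF⟩)
          apply h5
          show (e (e.symm ⟨m, hmF⟩)).1 = m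
          rw [Equiv.apply_symm_apply]
        · intro j i
          exact hm3 (some j) i
    · push Not at hW
      refine ⟨Empty, inferInstance, fun j => j.elim, fun j => j.elim, fun j => j.elim,
        fun j => j.elim, fun j => j.elim, fun j => j.elim, ?_, ?_⟩
      · intro v
        rw [show {a : Empty × Fin 3 | _} = (∅ : Set (Empty × Fin 3)) from
          Set.eq_empty_iff_forall_notMem.2 fun a => a.1.elim]
        simp
      · intro t
        have h5 := hW t
        refine le_trans (Set.ncard_le_ncard ?_ (Set.toFinite _)) (Nat.lt_succ_iff.1 h5)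
        rintro m ⟨hm1, hm2, -⟩
        refine ⟨hm1, ?_⟩
        have h6 := anc_iter hpar (pos m) (dep (pos m)) le_rfl
        rw [hm2] at h6
        exact h6

end

/-- groups of three marks: the statement of Helper93/HH/Spec.lean -/
theorem groups {V Q : Type} [Finite V] [Finite Q] (par : V → V) (dep : V → ℕ)
    (hpar : ∀ v, dep v ≠ 0 → dep (par v) + 1 = dep v) (pos : Q → V) :
    ∃ (J : Type) (_ : Fintype J) (q : J → Fin 3 → Q) (c : J → V) (k : J → Fin 3 → ℕ),
      (∀ j i j' i', q j i = q j' i' → j = j' ∧ i = i') ∧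
      (∀ j i, k j i ≤ dep (pos (q j i)) ∧ par^[k j i] (pos (q j i)) = c j) ∧
      (∀ v, {a : J × Fin 3 | ∃ s < k a.1 a.2, par^[s] (pos (q a.1 a.2)) = v}.ncard ≤ 2) ∧
      ∀ t, {m : Q | par^[dep (pos m)] (pos m) = t ∧ ∀ j i, q j i ≠ m}.ncard ≤ 2 := by
  obtain ⟨J, inst, q, c, k, -, h1, h2, h3, h4⟩ :=
    groups_aux (par := par) (dep := dep) hpar pos _ Set.univ le_rfl
  refine ⟨J, inst, q, c, k, h1, h2, fun v => (h3 v).trans (min_le_left _ _), fun t => ?_⟩
  have := h4 t
  simpa using this

end Pool.Agent.Helper43.HH
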