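import Pool.Agent.Helper93.HH.Basic
import Pool.Agent.Helper43.HH.Energy

/-!
# HH: tripods made of walks in `N` and pins
-/

open Set
open Pool.Agent.Helper83.OP
open Pool.Agent.Helper93.HH

namespace Pool.Agent.Helper43.HH

/-- three walks in `N` with a common start, continued by pins of three different hubs -/
structure Leg3 {V P Q : Type} (D : HD V P Q) (e0 : Sym2 V) where
  c : V
  p : Fin 3 → P
  W : ∀ k, D.N.Walk c (D.x (p k))
  inj : ∀ k l, k ≠ l → D.hub (p k) ≠ D.hub (p l)
  e : ∀ k, e0 ∉ (D.w (p k)).edges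

section

variable {V P Q : Type} {D : HD V P Q} {e0 : Sym2 V}

theorem N_le_H {V P Q : Type} [Finite V] {D : HD V P Q} {e0 : Sym2 V} {H : SimpleGraph V}
    {X : Sym2 V → Sym2 V → Prop} (hD : D.Ok) (hX : D.Dr H e0 X) : D.N ≤ H := by
  intro u v h
  rw [hX.eq, SimpleGraph.deleteEdges_adj]
  refine ⟨hD.N_le h, ?_⟩
  intro h1
  rw [Set.mem_singleton_iff] at h1
  apply hX.e0N
  rw [← h1]
  exact h

variable [Finite V]

theorem Leg3.supp_VN (T : Leg3 D e0) (k : Fin 3) {z : V} (hz : z ∈ (T.W k).support) :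
    z ∈ D.VN := by
  have h : z ∈ (T.W k).reverse.support := by
    rw [SimpleGraph.Walk.support_reverse, List.mem_reverse]
    exact hz
  exact HD.VN_of_walk (T.W k).reverse (HD.x_VN _) h

theorem Leg3.c_VN (T : Leg3 D e0) : T.c ∈ D.VN := T.supp_VN 0 (SimpleGraph.Walk.start_mem_support _)

/-- the tripod -/
noncomputable def Leg3.tri {H : SimpleGraph V} {X : Sym2 V → Sym2 V → Prop} (T : Leg3 D e0)
    (hD : D.Ok) (hX : D.Dr H e0 X) : Tri H D.U where
  c := T.c
  b := fun k => D.hub (T.p k)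
  W := fun k => ((T.W k).mapLe (N_le_H hD hX)).append ((D.w (T.p k)).transfer H (by
    intro f hf
    rw [hX.eq, SimpleGraph.edgeSet_deleteEdges]
    refine ⟨(D.w (T.p k)).edges_subset_edgeSet hf, ?_⟩
    intro h1
    rw [Set.mem_singleton_iff] at h1
    exact T.e k (h1 ▸ hf)))
  c_U := HD.VN_U hD T.c_VN
  b_U := fun k => hD.hub_U _
  b_inj := by
    intro k l h
    by_contra hne
    exact T.inj k l hne h
  inner := by
    intro k z hz hzU
    rw [SimpleGraph.Walk.mem_support_append_iff, SimpleGraph.Walk.support_mapLe_eq_support,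
      SimpleGraph.Walk.support_transfer] at hz
    rcases hz with hz | hz
    · exact absurd hzU (HD.VN_U hD (T.supp_VN k hz))
    · by_contra hne
      exact hD.w_U _ z hz hne hzU

variable {H : SimpleGraph V} {X : Sym2 V → Sym2 V → Prop}

theorem Leg3.mem_vs (T : Leg3 D e0) (hD : D.Ok) (hX : D.Dr H e0 X) (v : V) :
    v ∈ (T.tri hD hX).vs ↔
      v ∉ D.U ∧ ∃ k, v ∈ (T.W k).support ∨ v ∈ (D.w (T.p k)).support := by
  unfold Tri.vs Leg3.tri
  simp only [Set.mem_setOf_eq, SimpleGraph.Walk.mem_support_append_iff,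
    SimpleGraph.Walk.support_mapLe_eq_support, SimpleGraph.Walk.support_transfer]

theorem Leg3.mem_es (T : Leg3 D e0) (hD : D.Ok) (hX : D.Dr H e0 X) (f : Sym2 V) :
    f ∈ (T.tri hD hX).es ↔ ∃ k, f ∈ (T.W k).edges ∨ f ∈ (D.w (T.p k)).edges := by
  unfold Tri.es Leg3.tri
  simp only [Set.mem_setOf_eq, SimpleGraph.Walk.edges_append, List.mem_append,
    SimpleGraph.Walk.edges_mapLe_eq_edges, SimpleGraph.Walk.edges_transfer]

end

/-- few branch vertices on a walk -/
theorem branch_count {V P Q : Type} [Finite V] {D : HD V P Q} (hD : D.Ok) {u v : V}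
    (p : D.N.Walk u v) : {z | z ∈ p.support ∧ 3 ≤ D.dg z}.ncard ≤ p.length / D.r + 1 := by
  classical
  have hidx : ∀ z ∈ p.support, ∃ n, p.getVert n = z ∧ n ≤ p.length := by
    intro z hz
    exact SimpleGraph.Walk.mem_support_iff_exists_getVert.1 hz
  have : ∀ z, ∃ n, z ∈ p.support → p.getVert n = z ∧ n ≤ p.length := by
    intro z
    by_cases hz : z ∈ p.support
    · obtain ⟨n, hn⟩ := hidx z hz
      exact ⟨n, fun _ => hn⟩
    · exact ⟨0, fun h => absurd h hz⟩
  choose idx hidx using this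
  have hr := hD.r_pos
  have key : ∀ z ∈ {z | z ∈ p.support ∧ 3 ≤ D.dg z}, ∀ z' ∈ {z | z ∈ p.support ∧ 3 ≤ D.dg z},
      z ≠ z' → idx z ≤ idx z' → idx z + D.r ≤ idx z' := by
    intro z hz z' hz' hne hle
    obtain ⟨h1, h2⟩ := hidx z hz.1
    obtain ⟨h3, h4⟩ := hidx z' hz'.1
    have hv : (p.drop (idx z)).getVert (idx z' - idx z) = z' := by
      rw [SimpleGraph.Walk.drop_getVert]
      rw [show idx z + (idx z' - idx z) = idx z' by omega]
      exact h3
    have h5 := hD.thr_ge (p.getVert (idx z)) _ ((p.drop (idx z)).take (idx z' - idx z))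
      (by rw [hv, h1]; exact hne) (by rw [h1]; exact hz.2) (by rw [hv]; exact hz'.2)
    rw [SimpleGraph.Walk.take_length] at h5
    have := min_le_left (idx z' - idx z) (p.drop (idx z)).length
    omega
  have hinj : Set.InjOn (fun z => idx z / D.r) {z | z ∈ p.support ∧ 3 ≤ D.dg z} := by
    intro z hz z' hz' h
    by_contra hne
    have h' : idx z / D.r = idx z' / D.r := h
    rcases le_total (idx z) (idx z') with hle | hle
    · have h1 := key z hz z' hz' hne hle
      have h2 : (idx z + D.r) / D.r ≤ idx z' / D.r := Nat.div_le_div_right h1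
      rw [Nat.add_div_right _ (by omega)] at h2
      omega
    · have h1 := key z' hz' z hz (Ne.symm hne) hle
      have h2 : (idx z' + D.r) / D.r ≤ idx z / D.r := Nat.div_le_div_right h1
      rw [Nat.add_div_right _ (by omega)] at h2
      omega
  have hmaps : ∀ z ∈ {z | z ∈ p.support ∧ 3 ≤ D.dg z},
      (fun z => idx z / D.r) z ∈ ((Finset.range (p.length / D.r + 1) : Finset ℕ) : Set ℕ) := by
    intro z hz
    rw [Finset.mem_coe, Finset.mem_range]
    have := (hidx z hz.1).2
    exact Nat.lt_succ_of_le (Nat.div_le_div_right this)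
  have h := Set.ncard_le_ncard_of_injOn (fun z => idx z / D.r) hmaps hinj (Finset.finite_toSet _)
  rwa [Set.ncard_coe_finset, Finset.card_range] at h

end Pool.Agent.Helper43.HH
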