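import Pool.Agent.Helper93.HH.Sys
import Pool.Agent.Helper23.HH.XL

/-!
# HH: double pins, breadth first forests
-/

open Set
open Pool.Agent.Helper83.OP
open Pool.Agent.Helper93.HH

namespace Pool.Agent.Helper43.HH

section

variable {V P Q : Type} [Finite V] [Finite P] {D : HD V P Q}

/-- double pins -/
def Dbl (D : HD V P Q) (p : P) : Prop :=
  D.pt p ≠ p ∧ 4 * D.gp p < D.sg (D.x p) ∧ Nr D.N (D.gp p) (D.x p) (D.x (D.pt p))

theorem Dbl.only {p p' : P} (h : Dbl D p) (hd : Nr D.N (2 * D.gp p) (D.x p) (D.x p')) :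
    p' = p ∨ p' = D.pt p := by
  by_contra hno
  push Not at hno
  obtain ⟨h1, h2, h3⟩ := h
  have h4 := D.sg_three (y := D.x p) (t := 2 * D.gp p) (Ne.symm h1) (Ne.symm hno.1)
    (Ne.symm hno.2) (Nr.refl _ _ _) (h3.mono (by omega)) hd
  omega

theorem Dbl.inj {p p' : P} (h : Dbl D p) (h' : Dbl D p') (he : D.pt p = D.pt p') : p = p' := by
  wlog hle : D.gp p' ≤ D.gp p with H
  · exact (H h' h he.symm (by omega)).symm
  have h1 : Nr D.N (2 * D.gp p) (D.x p) (D.x p') := by
    have h2 := h.2.2.trans (he ▸ h'.2.2.symm)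
    exact h2.mono (by omega)
  rcases h.only h1 with h3 | h3
  · exact h3.symm
  · exact absurd (he.symm.trans h3.symm) h'.1

/-- at most two gap walks through an edge -/
theorem Dbl.gap (g : ∀ p, Dbl D p → D.N.Walk (D.x p) (D.x (D.pt p)))
    (hg : ∀ p h, (g p h).length ≤ D.gp p) (f : Sym2 V) :
    {p | ∃ h : Dbl D p, f ∈ (g p h).edges}.ncard ≤ 2 := by
  classical
  set A : Set P := {p | ∃ h : Dbl D p, f ∈ (g p h).edges} with hA
  rcases A.eq_empty_or_nonempty with h0 | h0
  · rw [h0, Set.ncard_empty]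
    omega
  obtain ⟨p, hp, hmax⟩ := Set.exists_max_image A D.gp (Set.toFinite _) h0
  obtain ⟨hd, hf⟩ := hp
  have hsub : A ⊆ {p, D.pt p} := by
    rintro p' ⟨hd', hf'⟩
    have hle := hmax p' ⟨hd', hf'⟩
    induction f using Sym2.ind with
    | _ u v =>
      have hu := Nr.of_mem (SimpleGraph.Walk.fst_mem_support_of_mem_edges _ hf)
      have hu' := Nr.of_mem (SimpleGraph.Walk.fst_mem_support_of_mem_edges _ hf')
      have h1 := hg p hd
      have h2 := hg p' hd'
      have h3 : Nr D.N (2 * D.gp p) (D.x p) (D.x p') := (hu.trans hu'.symm).mono (by omega)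
      exact hd.only h3
  refine (Set.ncard_le_ncard hsub (Set.toFinite _)).trans ?_
  refine (Set.ncard_insert_le _ _).trans ?_
  rw [Set.ncard_singleton]

end

/-- breadth first forest -/
theorem exists_forest {V : Type} (N : SimpleGraph V) (C : Set V) :
    ∃ (par : V → V) (dep : V → ℕ), (∀ v, dep v ≠ 0 → N.Adj v (par v)) ∧
      (∀ v, dep v ≠ 0 → dep (par v) + 1 = dep v) ∧
      ∀ v c t, c ∈ C → Nr N t v c → dep v ≤ t ∧ par^[dep v] v ∈ C := by
  classical
  set S : V → Set ℕ := fun v => {t | ∃ c ∈ C, Nr N t v c} with hS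
  set dep : V → ℕ := fun v => sInf (S v) with hdep
  have hmin : ∀ v c t, c ∈ C → Nr N t v c → dep v ≤ t := fun v c t hc h => Nat.sInf_le ⟨c, hc, h⟩
  have hspec : ∀ v, (S v).Nonempty → ∃ c ∈ C, Nr N (dep v) v c := fun v h => Nat.sInf_mem h
  have hstep : ∀ v, dep v ≠ 0 → ∃ u, N.Adj v u ∧ dep u + 1 = dep v ∧ (S u).Nonempty := by
    intro v hv
    have hne : (S v).Nonempty := by
      by_contra hno
      rw [Set.not_nonempty_iff_eq_empty] at hno
      apply hv
      show sInf (S v) = 0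
      rw [hno, Nat.sInf_empty]
    obtain ⟨c, hc, p, hp⟩ := hspec v hne
    cases p with
    | nil =>
      have := hmin v v 0 hc (Nr.refl _ _ _)
      omega
    | @cons _ u _ h q =>
      rw [SimpleGraph.Walk.length_cons] at hp
      have h1 : Nr N (dep v - 1) u c := ⟨q, by omega⟩
      have h2 := hmin u c _ hc h1
      obtain ⟨c', hc', h3⟩ := hspec u ⟨_, c, hc, h1⟩
      have h4 := hmin v c' _ hc' ((Nr.of_adj h).trans h3)
      exact ⟨u, h, by omega, ⟨_, c, hc, h1⟩⟩
  have : ∀ v, ∃ u, dep v ≠ 0 → N.Adj v u ∧ dep u + 1 = dep v ∧ (S u).Nonempty := by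
    intro v
    by_cases hv : dep v = 0
    · exact ⟨v, fun h => absurd hv h⟩
    · obtain ⟨u, hu⟩ := hstep v hv
      exact ⟨u, fun _ => hu⟩
  choose par hpar using this
  refine ⟨par, dep, fun v hv => (hpar v hv).1, fun v hv => (hpar v hv).2.1, ?_⟩
  have hroot : ∀ n v, dep v = n → (S v).Nonempty → par^[dep v] v ∈ C := by
    intro n
    induction n with
    | zero =>
      intro v hv hne
      obtain ⟨c, hc, h⟩ := hspec v hne
      rw [hv] at h ⊢
      rw [show v = c from Nr.eq h]
      exact hc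
    | succ n ih =>
      intro v hv hne
      obtain ⟨h1, h2, h3⟩ := hpar v (by omega)
      have h4 := ih (par v) (by omega) h3
      rw [← h2, Function.iterate_succ_apply]
      exact h4
  intro v c t hc h
  exact ⟨hmin v c t hc h, hroot _ v rfl ⟨t, c, hc, h⟩⟩

/-- the walk down to `y` from its ancestor -/
theorem up_walk {V : Type} {N : SimpleGraph V} {par : V → V} {dep : V → ℕ}
    (hadj : ∀ v, dep v ≠ 0 → N.Adj v (par v)) (hpar : ∀ v, dep v ≠ 0 → dep (par v) + 1 = dep v) :
    ∀ (k : ℕ) (y z : V), k ≤ dep y → par^[k] y = z → ∃ p : N.Walk z y, p.length = k ∧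
      ∀ f ∈ p.edges, ∃ s < k, f = s(par^[s] y, par^[s + 1] y) := by
  intro k
  induction k with
  | zero =>
    intro y z _ hz
    have hz' : y = z := hz
    subst hz'
    exact ⟨SimpleGraph.Walk.nil, rfl, fun f hf => by simp at hf⟩
  | succ k ih =>
    intro y z hk hz
    have h0 : dep y ≠ 0 := by omega
    have h1 := hpar y h0
    rw [Function.iterate_succ_apply] at hz
    obtain ⟨p, hp1, hp2⟩ := ih (par y) z (by omega) hz
    refine ⟨p.concat (hadj y h0).symm, ?_, ?_⟩
    · rw [SimpleGraph.Walk.length_concat, hp1]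
    · intro f hf
      rw [SimpleGraph.Walk.edges_concat, List.concat_eq_append, List.mem_append,
        List.mem_singleton] at hf
      rcases hf with hf | rfl
      · obtain ⟨s, hs, h⟩ := hp2 f hf
        exact ⟨s + 1, by omega, h⟩
      · exact ⟨0, by omega, Sym2.eq_swap⟩

end Pool.Agent.Helper43.HH
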