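import Mathlib

/-!
# HH: blocks of sources in a rooted tree

A rooted tree (forest) is given by parent pointers `par` and depths `dep`. A finite set of sources is divided into
blocks of `q` members; at most `q - 1` members are left over, and every edge of the tree separates at most `q - 1` blocks.
-/

namespace Pool.Agent.Helper43.HH

section Tree

variable {V : Type} (par : V → V) (dep : V → ℕ)

/-- `u` is an ancestor of `v` (or `u = v`) -/
def Anc (u v : V) : Prop := dep u ≤ dep v ∧ par^[dep v - dep u] v = u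

variable {par dep}

theorem Anc.refl (v : V) : Anc par dep v v := by
  refine ⟨le_rfl, ?_⟩
  rw [Nat.sub_self]
  rfl

theorem iter_dep (hd : ∀ v, dep v ≠ 0 → dep (par v) + 1 = dep v) (v : V) :
    ∀ k, k ≤ dep v → dep (par^[k] v) + k = dep v := by
  intro k
  induction k with
  | zero => intro _; rfl
  | succ k ih =>
    intro hk
    have h1 := ih (by omega)
    rw [Function.iterate_succ_apply']
    have h2 := hd (par^[k] v) (by omega)
    omega

theorem anc_iter (hd : ∀ v, dep v ≠ 0 → dep (par v) + 1 = dep v) (v : V) (k : ℕ)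
    (hk : k ≤ dep v) : Anc par dep (par^[k] v) v := by
  have h := iter_dep hd v k hk
  refine ⟨by omega, ?_⟩
  congr 1
  rw [show dep v - dep (par^[k] v) = k by omega]

theorem Anc.trans {u v w : V} (h1 : Anc par dep u v) (h2 : Anc par dep v w) :
    Anc par dep u w := by
  obtain ⟨a1, a2⟩ := h1
  obtain ⟨b1, b2⟩ := h2
  refine ⟨a1.trans b1, ?_⟩
  rw [show dep w - dep u = (dep v - dep u) + (dep w - dep v) by omega,
    Function.iterate_add_apply, b2, a2]

theorem Anc.lin {u u' v : V} (h1 : Anc par dep u v) (h2 : Anc par dep u' v)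
    (h : dep u ≤ dep u') : Anc par dep u u' := by
  obtain ⟨a1, a2⟩ := h1
  obtain ⟨b1, b2⟩ := h2
  refine ⟨h, ?_⟩
  rw [show dep v - dep u = (dep u' - dep u) + (dep v - dep u') by omega,
    Function.iterate_add_apply, b2] at a2
  exact a2

theorem Anc.eq {u v : V} (h1 : Anc par dep u v) (h : dep u = dep v) : u = v := by
  obtain ⟨a1, a2⟩ := h1
  rw [h, Nat.sub_self] at a2
  exact a2.symm

theorem Anc.up {u v : V} (hd : ∀ v, dep v ≠ 0 → dep (par v) + 1 = dep v)
    (h1 : Anc par dep u v) (h : u ≠ v) : dep v ≠ 0 ∧ Anc par dep u (par v) := by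
  obtain ⟨a1, a2⟩ := h1
  have h2 : dep u ≠ dep v := fun h' => h (Anc.eq ⟨a1, a2⟩ h')
  have h3 : dep v ≠ 0 := by omega
  have h4 := hd v h3
  refine ⟨h3, by omega, ?_⟩
  rw [show dep v - dep u = (dep (par v) - dep u) + 1 by omega, Function.iterate_succ_apply] at a2
  exact a2

/-- the child of `u` on the way to `v` -/
theorem Anc.child {u v : V} (hd : ∀ v, dep v ≠ 0 → dep (par v) + 1 = dep v)
    (h1 : Anc par dep u v) (h : u ≠ v) :
    ∃ w, dep w ≠ 0 ∧ par w = u ∧ Anc par dep w v := by
  obtain ⟨a1, a2⟩ := h1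
  have h2 : dep u ≠ dep v := fun h' => h (Anc.eq ⟨a1, a2⟩ h')
  refine ⟨par^[dep v - dep u - 1] v, ?_, ?_, anc_iter hd _ _ (by omega)⟩
  · have := iter_dep hd v (dep v - dep u - 1) (by omega)
    omega
  · rw [← Function.iterate_succ_apply' par, show (dep v - dep u - 1).succ = dep v - dep u by omega]
    exact a2

variable (par dep) in
/-- the edge from `u` to its parent separates the members of `β` -/
def Uses {I : Type} (loc : I → V) (u : V) (β : Finset I) : Prop :=
  (∃ i ∈ β, Anc par dep u (loc i)) ∧ ∃ i ∈ β, ¬ Anc par dep u (loc i)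

open Classical in
theorem blocks_aux [Fintype V] {I : Type} (q : ℕ)
    (hq : 1 ≤ q) (loc : I → V) (c : V) : ∀ n : ℕ, ∀ S : Finset I, S.card ≤ n →
    (∀ i ∈ S, Anc par dep c (loc i)) → ∃ B : Finset (Finset I),
      (∀ β ∈ B, β ⊆ S ∧ β.card = q) ∧
      (∀ β ∈ B, ∀ β' ∈ B, ∀ i, i ∈ β → i ∈ β' → β = β') ∧
      (S.filter fun i => ∀ β ∈ B, i ∉ β).card < q ∧
      ∀ u, (B.filter fun β => Uses par dep loc u β).card ≤
        min (q - 1) (S.filter fun i => Anc par dep u (loc i)).card := by
  intro n
  induction n with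
  | zero =>
    intro S hS _
    have hS0 : S = ∅ := Finset.card_eq_zero.1 (Nat.le_zero.1 hS)
    subst hS0
    exact ⟨∅, by simp, by simp, by simp; omega, by simp⟩
  | succ n ih =>
    intro S hS hc
    by_cases hlt : S.card < q
    · exact ⟨∅, by simp, by simp, lt_of_le_of_lt (Finset.card_filter_le _ _) hlt, by simp⟩
    push Not at hlt
    set W : Finset V := Finset.univ.filter fun v =>
      q ≤ (S.filter fun i => Anc par dep v (loc i)).card with hW
    have hcW : c ∈ W := by
      rw [hW, Finset.mem_filter]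
      refine ⟨Finset.mem_univ _, ?_⟩
      rw [Finset.filter_true_of_mem hc]
      exact hlt
    obtain ⟨v, hvW, hvmax⟩ := Finset.exists_max_image W dep ⟨c, hcW⟩
    have hv := (Finset.mem_filter.1 hvW).2
    obtain ⟨b, hb, hbq⟩ := Finset.exists_subset_card_eq hv
    have hbS : b ⊆ S := hb.trans (Finset.filter_subset _ _)
    have hbv : ∀ i ∈ b, Anc par dep v (loc i) := fun i hi => (Finset.mem_filter.1 (hb hi)).2
    set S' : Finset I := S \ b with hS'
    have hS'S : S' ⊆ S := Finset.sdiff_subset
    have hS'c : S'.card ≤ n := by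
      have := Finset.card_sdiff_add_card_eq_card hbS
      rw [← hS'] at this
      omega
    obtain ⟨B, hB1, hB2, hB3, hB4⟩ := ih S' hS'c fun i hi => hc i (hS'S hi)
    have hbB : ∀ β ∈ B, ∀ i ∈ β, i ∉ b := by
      intro β hβ i hi hib
      exact (Finset.mem_sdiff.1 ((hB1 β hβ).1 hi)).2 hib
    refine ⟨insert b B, ?_, ?_, ?_, ?_⟩
    · intro β hβ
      rcases Finset.mem_insert.1 hβ with rfl | hβ
      · exact ⟨hbS, hbq⟩
      · exact ⟨(hB1 β hβ).1.trans hS'S, (hB1 β hβ).2⟩
    · intro β hβ β' hβ' i hi hi'
      rcases Finset.mem_insert.1 hβ with h | h <;> rcases Finset.mem_insert.1 hβ' with h' | h'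
      · rw [h, h']
      · exact absurd (h ▸ hi) (hbB β' h' i hi')
      · exact absurd (h' ▸ hi') (hbB β h i hi)
      · exact hB2 β h β' h' i hi hi'
    · refine lt_of_le_of_lt (Finset.card_le_card ?_) hB3
      intro i hi
      rw [Finset.mem_filter] at hi ⊢
      refine ⟨Finset.mem_sdiff.2 ⟨hi.1, hi.2 b (Finset.mem_insert_self _ _)⟩, ?_⟩
      intro β hβ
      exact hi.2 β (Finset.mem_insert_of_mem hβ)
    · intro u
      have h4 := hB4 u
      have hle : (S'.filter fun i => Anc par dep u (loc i)).card ≤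
          (S.filter fun i => Anc par dep u (loc i)).card :=
        Finset.card_le_card (Finset.filter_subset_filter _ hS'S)
      by_cases hu : Uses par dep loc u b
      · obtain ⟨⟨i, hi, hi1⟩, ⟨j, hj, hj1⟩⟩ := hu
        have hdep : dep v < dep u := by
          by_contra hno
          push Not at hno
          exact hj1 ((Anc.lin hi1 (hbv i hi) hno).trans (hbv j hj))
        have hsmall : (S.filter fun i => Anc par dep u (loc i)).card < q := by
          by_contra hno
          push Not at hno
          have := hvmax u (Finset.mem_filter.2 ⟨Finset.mem_univ _, hno⟩)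
          omega
        have hlt2 : (S'.filter fun i => Anc par dep u (loc i)).card <
            (S.filter fun i => Anc par dep u (loc i)).card := by
          refine Finset.card_lt_card ⟨Finset.filter_subset_filter _ hS'S, fun hsub => ?_⟩
          have h5 := hsub (Finset.mem_filter.2 ⟨hbS hi, hi1⟩)
          exact (Finset.mem_sdiff.1 (Finset.mem_filter.1 h5).1).2 hi
        have h6 : ((insert b B).filter fun β => Uses par dep loc u β).card ≤
            (B.filter fun β => Uses par dep loc u β).card + 1 := by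
          rw [Finset.filter_insert]
          split_ifs
          · exact Finset.card_insert_le _ _
          · omega
        have h7 : (B.filter fun β => Uses par dep loc u β).card ≤
          (S'.filter fun i => Anc par dep u (loc i)).card := h4.trans (min_le_right _ _)
        refine le_min ?_ ?_ <;> omega
      · rw [Finset.filter_insert, if_neg hu]
        exact h4.trans (min_le_min le_rfl hle)

open Classical in
/-- Blocks of `q` sources below `c`. -/
theorem blocks [Fintype V] {I : Type} (q : ℕ)
    (hq : 1 ≤ q) (loc : I → V) (c : V) (S : Finset I) (hc : ∀ i ∈ S, Anc par dep c (loc i)) :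
    ∃ B : Finset (Finset I), (∀ β ∈ B, β ⊆ S ∧ β.card = q) ∧
      (∀ β ∈ B, ∀ β' ∈ B, ∀ i, i ∈ β → i ∈ β' → β = β') ∧
      (S.filter fun i => ∀ β ∈ B, i ∉ β).card < q ∧
      ∀ u, (B.filter fun β => Uses par dep loc u β).card ≤ q - 1 := by
  obtain ⟨B, h1, h2, h3, h4⟩ := blocks_aux q hq loc c S.card S le_rfl hc
  exact ⟨B, h1, h2, h3, fun u => (h4 u).trans (min_le_left _ _)⟩

/-- The top of a nonempty set below `c`: a vertex `m` which is an ancestor of all members, and
every vertex strictly below `m` which is an ancestor of a member separates the members. -/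
theorem exists_top [Fintype V] {I : Type} (loc : I → V) (c : V) (β : Finset I) (hne : β.Nonempty)
    (hc : ∀ i ∈ β, Anc par dep c (loc i)) :
    ∃ m, (∀ i ∈ β, Anc par dep m (loc i)) ∧ Anc par dep c m ∧
      ∀ u, dep m < dep u → ∀ i ∈ β, Anc par dep u (loc i) → Uses par dep loc u β := by
  classical
  obtain ⟨i0, hi0⟩ := hne
  set W : Finset V := Finset.univ.filter fun v => ∀ i ∈ β, Anc par dep v (loc i) with hW
  obtain ⟨m, hmW, hmax⟩ := Finset.exists_max_image W dep ⟨c, Finset.mem_filter.2
    ⟨Finset.mem_univ _, hc⟩⟩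
  have hm := (Finset.mem_filter.1 hmW).2
  refine ⟨m, hm, ?_, ?_⟩
  · exact Anc.lin (hc i0 hi0) (hm i0 hi0) (hmax c (Finset.mem_filter.2 ⟨Finset.mem_univ _, hc⟩))
  · intro u hu i hi hiu
    refine ⟨⟨i, hi, hiu⟩, ?_⟩
    by_contra hno
    push Not at hno
    have := hmax u (Finset.mem_filter.2 ⟨Finset.mem_univ _, hno⟩)
    omega

/-- the walk down from an ancestor -/
theorem down_walk {G : SimpleGraph V} (hd : ∀ v, dep v ≠ 0 → dep (par v) + 1 = dep v)
    (hadj : ∀ v, dep v ≠ 0 → G.Adj v (par v)) : ∀ (n : ℕ) (u v : V), Anc par dep u v →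
    dep v - dep u = n → ∃ p : G.Walk u v, p.length = n ∧
      (∀ z ∈ p.support, Anc par dep u z ∧ Anc par dep z v) ∧
      ∀ f ∈ p.edges, ∃ z, dep u < dep z ∧ Anc par dep z v ∧ Anc par dep u z ∧ f = s(z, par z) := by
  intro n
  induction n with
  | zero =>
    intro u v h hn
    have h1 := h.1
    have h2 : u = v := h.eq (by omega)
    subst h2
    refine ⟨SimpleGraph.Walk.nil, rfl, ?_, ?_⟩
    · intro z hz
      rw [SimpleGraph.Walk.support_nil, List.mem_singleton] at hz
      subst hz
      exact ⟨Anc.refl _, Anc.refl _⟩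
    · intro f hf
      simp at hf
  | succ n ih =>
    intro u v h hn
    have hne : u ≠ v := by
      rintro rfl
      omega
    obtain ⟨h0, h1⟩ := Anc.up hd h hne
    have h2 := hd v h0
    obtain ⟨p, hp1, hp2, hp3⟩ := ih u (par v) h1 (by omega)
    have hpv : Anc par dep (par v) v := by
      have := anc_iter hd v 1 (by omega)
      simpa using this
    refine ⟨p.concat (hadj v h0).symm, ?_, ?_, ?_⟩
    · rw [SimpleGraph.Walk.length_concat, hp1]
    · intro z hz
      rw [SimpleGraph.Walk.support_concat, List.mem_append, List.mem_singleton] at hz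
      rcases hz with hz | rfl
      · exact ⟨(hp2 z hz).1, (hp2 z hz).2.trans hpv⟩
      · exact ⟨h, Anc.refl _⟩
    · intro f hf
      rw [SimpleGraph.Walk.edges_concat, List.concat_eq_append, List.mem_append,
        List.mem_singleton] at hf
      rcases hf with hf | rfl
      · obtain ⟨z, hz1, hz2, hz3, hz4⟩ := hp3 f hf
        exact ⟨z, hz1, hz2.trans hpv, hz3, hz4⟩
      · exact ⟨v, by omega, Anc.refl _, h, Sym2.eq_swap⟩

end Tree

end Pool.Agent.Helper43.HH
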