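import Mathlib

/-!
# HH: the fractional Caro-Wei bound
-/

namespace Pool.Agent.Helper43.HH

open Finset

/-- greedy form: `d` bounds the weight of the closed neighbourhoods -/
theorem cw_aux {I : Type} [DecidableEq I] (R : I → I → Prop) [DecidableRel R]
    (hs : ∀ i j, R i j → R j i) (hr : ∀ i, R i i) (mu d : I → ℝ) :
    ∀ n : ℕ, ∀ A : Finset I, A.card ≤ n → (∀ i ∈ A, 0 ≤ mu i) → (∀ i ∈ A, 0 < d i) →
      (∀ i ∈ A, ∑ j ∈ A with R i j, mu j ≤ d i) →
      ∃ T ⊆ A, (∀ i ∈ T, ∀ j ∈ T, i ≠ j → ¬ R i j) ∧ ∑ i ∈ A, mu i / d i ≤ T.card := by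
  intro n
  induction n with
  | zero =>
    intro A hA _ _ _
    have hA0 : A = ∅ := Finset.card_eq_zero.1 (Nat.le_zero.1 hA)
    subst hA0
    exact ⟨∅, Finset.Subset.refl _, by simp, by simp⟩
  | succ n ih =>
    intro A hA hmu hd hN
    rcases A.eq_empty_or_nonempty with rfl | hne
    · exact ⟨∅, Finset.Subset.refl _, by simp, by simp⟩
    obtain ⟨a, haA, hamin⟩ := Finset.exists_min_image A d hne
    set B : Finset I := A.filter fun j => ¬ R a j with hB
    have hBA : B ⊆ A := Finset.filter_subset _ _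
    have haB : a ∉ B := by
      intro h
      exact (Finset.mem_filter.1 h).2 (hr a)
    have hBc : B.card ≤ n := by
      have : B.card < A.card := Finset.card_lt_card
        ⟨hBA, fun h => haB (h haA)⟩
      omega
    obtain ⟨T, hTB, hT1, hT2⟩ := ih B hBc (fun i hi => hmu i (hBA hi)) (fun i hi => hd i (hBA hi))
      (by
        intro i hi
        refine le_trans ?_ (hN i (hBA hi))
        refine Finset.sum_le_sum_of_subset_of_nonneg ?_ ?_
        · intro j hj
          rw [Finset.mem_filter] at hj ⊢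
          exact ⟨hBA hj.1, hj.2⟩
        · intro j hj _
          exact hmu j (Finset.mem_filter.1 hj).1)
    refine ⟨insert a T, ?_, ?_, ?_⟩
    · intro i hi
      rcases Finset.mem_insert.1 hi with rfl | hi
      · exact haA
      · exact hBA (hTB hi)
    · intro i hi j hj hij
      rcases Finset.mem_insert.1 hi with hi | hi <;> rcases Finset.mem_insert.1 hj with hj | hj
      · exact absurd (hi.trans hj.symm) hij
      · rw [hi]
        exact (Finset.mem_filter.1 (hTB hj)).2
      · rw [hj]
        intro hR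
        exact (Finset.mem_filter.1 (hTB hi)).2 (hs _ _ hR)
      · exact hT1 i hi j hj hij
    · have haT : a ∉ T := fun h => haB (hTB h)
      rw [Finset.card_insert_of_notMem haT]
      have hsplit : ∑ i ∈ A, mu i / d i =
          ∑ i ∈ A with R a i, mu i / d i + ∑ i ∈ B, mu i / d i :=
        (Finset.sum_filter_add_sum_filter_not A (fun i => R a i) (fun i => mu i / d i)).symm
      rw [hsplit]
      have h1 : ∑ i ∈ A with R a i, mu i / d i ≤ 1 := by
        have h2 : ∑ i ∈ A with R a i, mu i / d i ≤ ∑ i ∈ A with R a i, mu i / d a := by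
          refine Finset.sum_le_sum fun i hi => ?_
          have hiA := (Finset.mem_filter.1 hi).1
          exact div_le_div_of_nonneg_left (hmu i hiA) (hd a haA) (hamin i hiA)
        refine h2.trans ?_
        rw [← Finset.sum_div]
        exact div_le_one_of_le₀ (hN a haA) (hd a haA).le
      push_cast
      linarith

/-- Fractional Caro-Wei: if the weighted number of pairs is at most `b` times the weight, then
there is an independent set with at least `(sum mu) / b` members. -/
theorem caro_wei {I : Type} [DecidableEq I] (R : I → I → Prop) [DecidableRel R]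
    (hs : ∀ i j, R i j → R j i) (hr : ∀ i, R i i) (mu : I → ℝ) (S : Finset I)
    (hmu : ∀ i ∈ S, 0 ≤ mu i) (b : ℝ)
    (hb : ∑ i ∈ S, ∑ j ∈ S with R i j, mu i * mu j ≤ b * ∑ i ∈ S, mu i) :
    ∃ T ⊆ S, (∀ i ∈ T, ∀ j ∈ T, i ≠ j → ¬ R i j) ∧ ∑ i ∈ S, mu i ≤ b * T.card := by
  classical
  set A : Finset I := S.filter fun i => mu i ≠ 0 with hA
  have hAS : A ⊆ S := Finset.filter_subset _ _
  have hApos : ∀ i ∈ A, 0 < mu i := fun i hi =>
    lt_of_le_of_ne (hmu i (hAS hi)) (Finset.mem_filter.1 hi).2.symm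
  have hsum : ∀ g : I → ℝ, ∑ i ∈ S, mu i * g i = ∑ i ∈ A, mu i * g i := by
    intro g
    symm
    refine Finset.sum_subset hAS ?_
    intro i hi hiA
    have : mu i = 0 := by
      by_contra h
      exact hiA (Finset.mem_filter.2 ⟨hi, h⟩)
    rw [this, zero_mul]
  set d : I → ℝ := fun i => ∑ j ∈ S with R i j, mu j with hd
  have hdpos : ∀ i ∈ A, 0 < d i := by
    intro i hi
    have h1 : mu i ≤ d i := by
      refine Finset.single_le_sum (f := mu) ?_ (Finset.mem_filter.2 ⟨hAS hi, hr i⟩)
      intro j hj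
      exact hmu j (Finset.mem_filter.1 hj).1
    exact lt_of_lt_of_le (hApos i hi) h1
  obtain ⟨T, hTA, hT1, hT2⟩ := cw_aux R hs hr mu d A.card A le_rfl
    (fun i hi => hmu i (hAS hi)) hdpos (by
      intro i hi
      refine Finset.sum_le_sum_of_subset_of_nonneg ?_ ?_
      · intro j hj
        rw [Finset.mem_filter] at hj ⊢
        exact ⟨hAS hj.1, hj.2⟩
      · intro j hj _
        exact hmu j (Finset.mem_filter.1 hj).1)
  refine ⟨T, hTA.trans hAS, hT1, ?_⟩
  set M : ℝ := ∑ i ∈ S, mu i with hM
  have hM0 : 0 ≤ M := Finset.sum_nonneg hmu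
  have hMA : M = ∑ i ∈ A, mu i := by
    have := hsum (fun _ => 1)
    simpa using this
  have hE : ∑ i ∈ A, mu i * d i ≤ b * M := by
    rw [← hsum d]
    refine le_trans (le_of_eq ?_) hb
    refine Finset.sum_congr rfl fun i _ => ?_
    rw [hd, Finset.mul_sum]
  rcases eq_or_lt_of_le hM0 with h0 | hpos
  · have hb0 : 0 ≤ b * T.card ∨ T.card = 0 ∨ b < 0 := by
      rcases le_or_gt 0 b with h | h
      · exact Or.inl (mul_nonneg h (Nat.cast_nonneg _))
      · exact Or.inr (Or.inr h)
    have hTe : T = ∅ := by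
      rw [Finset.eq_empty_iff_forall_notMem]
      intro i hi
      have hiA := hTA hi
      have h1 : mu i ≤ ∑ i ∈ A, mu i := by
        refine Finset.single_le_sum (f := mu) ?_ hiA
        intro j hj
        exact hmu j (hAS hj)
      have h2 := hApos i hiA
      rw [← hMA, ← h0] at h1
      exact absurd h1 (not_le.2 h2)
    rw [hTe, ← h0]
    simp
  · -- Cauchy-Schwarz
    have hcs : M ^ 2 ≤ (∑ i ∈ A, mu i / d i) * (∑ i ∈ A, mu i * d i) := by
      rw [hMA]
      have h := Finset.sum_sq_le_sum_mul_sum_of_sq_le_mul A (r := mu)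
        (f := fun i => mu i / d i) (g := fun i => mu i * d i)
        (fun i hi => div_nonneg (hmu i (hAS hi)) (hdpos i hi).le)
        (fun i hi => mul_nonneg (hmu i (hAS hi)) (hdpos i hi).le)
        (fun i hi => le_of_eq (by
          have := (hdpos i hi).ne'
          field_simp))
      exact h
    have hT0 : 0 ≤ ∑ i ∈ A, mu i / d i :=
      Finset.sum_nonneg fun i hi => div_nonneg (hmu i (hAS hi)) (hdpos i hi).le
    have h3 : M ^ 2 ≤ (T.card : ℝ) * (b * M) := by
      refine hcs.trans ?_
      have hE0 : 0 ≤ ∑ i ∈ A, mu i * d i :=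
        Finset.sum_nonneg fun i hi => mul_nonneg (hmu i (hAS hi)) (hdpos i hi).le
      exact mul_le_mul hT2 hE hE0 (Nat.cast_nonneg _)
    have h4 : M * M ≤ (b * T.card) * M := by nlinarith
    exact le_of_mul_le_mul_right h4 hpos

end Pool.Agent.Helper43.HH
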