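import Pool.Agent.Helper93.HH.Defs
import Pool.Agent.Helper43.HH.CaroWei
import Pool.Agent.Helper83.OP.Shadow
import Pool.Agent.Helper83.OP.Triples

/-!
# HH: the energy lemma (section 2 of the memo)
-/

open Set
open Pool.Agent.Helper83.OP
open Pool.Agent.Helper93.HH

namespace Pool.Agent.Helper43.HH

variable {V : Type} {H : SimpleGraph V} {U : Set V}

theorem Conf_symm {X : Sym2 V → Sym2 V → Prop} (hs : ∀ f f', X f f' → X f' f) (T T' : Tri H U) :
    Tri.Conf X T T' → Tri.Conf X T' T := by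
  rintro (⟨v, h1, h2⟩ | ⟨f, hf, f', hf', h⟩)
  · exact Or.inl ⟨v, h2, h1⟩
  · exact Or.inr ⟨f', hf', f, hf, hs _ _ h⟩

theorem c_mem_vs (T : Tri H U) : T.c ∈ T.vs :=
  ⟨T.c_U, 0, (T.W 0).start_mem_support⟩

theorem Conf_refl {X : Sym2 V → Sym2 V → Prop} (T : Tri H U) : Tri.Conf X T T :=
  Or.inl ⟨T.c, c_mem_vs T, c_mem_vs T⟩

/-- A conflict free family of tripods has at most `132 |U|` members. -/
theorem free_bound [Finite V] (X : Sym2 V → Sym2 V → Prop)
    (hP : PlanarLike H X) {I : Type} (S : Finset I) (T : I → Tri H U)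
    (hfree : ∀ i ∈ S, ∀ j ∈ S, i ≠ j → ¬ Tri.Conf X (T i) (T j)) :
    S.card ≤ 132 * U.ncard := by
  classical
  have hcinj : ∀ i ∈ S, ∀ j ∈ S, (T i).c = (T j).c → i = j := by
    intro i hi j hj h
    by_contra hne
    exact hfree i hi j hj hne (Or.inl ⟨(T i).c, c_mem_vs _, h ▸ c_mem_vs _⟩)
  set Gd : Set V := {s | ∃ i ∈ S, (T i).c = s} with hGd
  have hGU : ∀ s ∈ Gd, s ∉ U := by
    rintro s ⟨i, hi, rfl⟩
    exact (T i).c_U
  let Γ : SimpleGraph V :=
    { Adj := fun x y => ∃ i ∈ S, ∃ k : Fin 3,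
        (x = (T i).c ∧ y = (T i).b k) ∨ (y = (T i).c ∧ x = (T i).b k)
      symm := ⟨by
        rintro x y ⟨i, hi, k, h⟩
        exact ⟨i, hi, k, h.symm⟩⟩
      loopless := ⟨by
        rintro x ⟨i, hi, k, ⟨h1, h2⟩ | ⟨h1, h2⟩⟩
        · exact (T i).c_U (h1 ▸ h2 ▸ (T i).b_U k)
        · exact (T i).c_U (h1 ▸ h2 ▸ (T i).b_U k)⟩ }
  have hW : ∀ x y, Γ.Adj x y → ∃ p : H.Walk x y, ∃ i ∈ S, ∃ k : Fin 3,
      ((x = (T i).c ∧ y = (T i).b k) ∨ (x = (T i).b k ∧ y = (T i).c)) ∧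
      (∀ z ∈ p.support, z = (T i).b k ∨ z ∈ (T i).vs) ∧ ∀ f ∈ p.edges, f ∈ (T i).es := by
    rintro x y ⟨i, hi, k, ⟨h1, h2⟩ | ⟨h1, h2⟩⟩
    · subst h1 h2
      refine ⟨(T i).W k, i, hi, k, Or.inl ⟨rfl, rfl⟩, ?_, fun f hf => ⟨k, hf⟩⟩
      intro z hz
      by_cases hzU : z ∈ U
      · exact Or.inl ((T i).inner k z hz hzU)
      · exact Or.inr ⟨hzU, k, hz⟩
    · subst h1 h2
      refine ⟨((T i).W k).reverse, i, hi, k, Or.inr ⟨rfl, rfl⟩, ?_, ?_⟩
      · intro z hz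
        rw [SimpleGraph.Walk.support_reverse, List.mem_reverse] at hz
        by_cases hzU : z ∈ U
        · exact Or.inl ((T i).inner k z hz hzU)
        · exact Or.inr ⟨hzU, k, hz⟩
      · intro f hf
        rw [SimpleGraph.Walk.edges_reverse, List.mem_reverse] at hf
        exact ⟨k, hf⟩
  choose R hR using hW
  have hmod := hP Γ R (by
    intro x y x' y' h h' n1 n2 n3 n4
    obtain ⟨i, hi, k, e1, e2, e3⟩ := hR x y h
    obtain ⟨i', hi', k', e1', e2', e3'⟩ := hR x' y' h'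
    have hss : (T i).c ≠ (T i').c := by
      intro hcc
      rcases e1 with ⟨k1, k2⟩ | ⟨k1, k2⟩ <;> rcases e1' with ⟨k1', k2'⟩ | ⟨k1', k2'⟩
      · exact n1 (k1.trans (hcc.trans k1'.symm))
      · exact n2 (k1.trans (hcc.trans k2'.symm))
      · exact n3 (k2.trans (hcc.trans k1'.symm))
      · exact n4 (k2.trans (hcc.trans k2'.symm))
    have hii : i ≠ i' := by
      rintro rfl
      exact hss rfl
    have hgg : (T i).b k ≠ (T i').b k' := by
      intro hcc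
      rcases e1 with ⟨k1, k2⟩ | ⟨k1, k2⟩ <;> rcases e1' with ⟨k1', k2'⟩ | ⟨k1', k2'⟩
      · exact n4 (k2.trans (hcc.trans k2'.symm))
      · exact n3 (k2.trans (hcc.trans k1'.symm))
      · exact n2 (k1.trans (hcc.trans k2'.symm))
      · exact n1 (k1.trans (hcc.trans k1'.symm))
    refine ⟨?_, ?_⟩
    · intro v hv hv'
      rcases e2 v hv with h1 | h1 <;> rcases e2' v hv' with h1' | h1'
      · exact hgg (h1.symm.trans h1')
      · rw [h1] at h1'; exact h1'.1 ((T i).b_U k)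
      · rw [h1'] at h1; exact h1.1 ((T i').b_U k')
      · exact hfree i hi i' hi' hii (Or.inl ⟨v, h1, h1'⟩)
    · intro f hf f' hf' hXf
      exact hfree i hi i' hi' hii (Or.inr ⟨f, e3 f hf, f', e3' f' hf', hXf⟩))
  have hTH : Disjoint Gd U := by
    rw [Set.disjoint_left]
    intro s h1 h2
    exact hGU s h1 h2
  have hbip : ∀ x y, Γ.Adj x y → (x ∈ Gd ∧ y ∈ U) ∨ (y ∈ Gd ∧ x ∈ U) := by
    rintro x y ⟨i, hi, k, ⟨h1, h2⟩ | ⟨h1, h2⟩⟩
    · exact Or.inl ⟨⟨i, hi, h1.symm⟩, h2 ▸ (T i).b_U k⟩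
    · exact Or.inr ⟨⟨i, hi, h1.symm⟩, h2 ▸ (T i).b_U k⟩
  have hn3 : ∀ s ∈ Gd, (Γ.neighborSet s).ncard = 3 := by
    rintro s ⟨i, hi, rfl⟩
    have : Γ.neighborSet (T i).c = Set.range (T i).b := by
      ext y
      constructor
      · rintro ⟨i', hi', k, ⟨h1, h2⟩ | ⟨h1, h2⟩⟩
        · have := hcinj i hi i' hi' h1
          subst this
          exact ⟨k, h2.symm⟩
        · exact absurd (h2 ▸ (T i').b_U k) (T i).c_U
      · rintro ⟨k, rfl⟩
        exact ⟨i, hi, k, Or.inl ⟨rfl, rfl⟩⟩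
    rw [this, ← Set.image_univ, Set.ncard_image_of_injective _ (T i).b_inj, Set.ncard_univ,
      Nat.card_eq_fintype_card, Fintype.card_fin]
  have hfin := triples Γ Gd U hTH hbip hn3
    (fun W hW => shadow Γ Gd U hTH hbip hn3 hmod.1 W hW) hmod.2
  refine le_trans ?_ hfin
  rw [← Set.ncard_coe_finset]
  refine Set.ncard_le_ncard_of_injOn (fun i => (T i).c) ?_ ?_ (Set.toFinite _)
  · intro i hi
    exact ⟨i, Finset.mem_coe.1 hi, rfl⟩
  · intro i hi j hj h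
    exact hcinj i (Finset.mem_coe.1 hi) j (Finset.mem_coe.1 hj) h

open Classical in
/-- EL: if the weighted number of conflicting pairs is at most `b` times the weight, then the
weight is at most `132 b |U|`. -/
theorem el [Finite V] (X : Sym2 V → Sym2 V → Prop) (hs : ∀ f f', X f f' → X f' f)
    (hP : PlanarLike H X) {I : Type} (S : Finset I) (T : I → Tri H U) (mu : I → ℝ)
    (hmu : ∀ i ∈ S, 0 ≤ mu i) (b : ℝ) (hb0 : 0 ≤ b)
    (hb : ∑ i ∈ S, ∑ j ∈ S with Tri.Conf X (T i) (T j), mu i * mu j ≤ b * ∑ i ∈ S, mu i) :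
    ∑ i ∈ S, mu i ≤ b * (132 * U.ncard) := by
  obtain ⟨F, hFS, hF1, hF2⟩ := caro_wei (fun i j => Tri.Conf X (T i) (T j))
    (fun i j h => Conf_symm hs _ _ h) (fun i => Conf_refl _) mu S hmu b hb
  have h := free_bound X hP F T hF1
  refine hF2.trans (mul_le_mul_of_nonneg_left ?_ hb0)
  exact_mod_cast h

open Classical in
/-- EL with scales: every conflict is charged to the member of the smaller scale. -/
theorem el_scale [Finite V] (X : Sym2 V → Sym2 V → Prop) (hs : ∀ f f', X f f' → X f' f)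
    (hP : PlanarLike H X) {I : Type} (S : Finset I) (T : I → Tri H U) (mu : I → ℝ)
    (hmu : ∀ i ∈ S, 0 ≤ mu i) (sc : I → ℕ) (b : ℝ) (hb0 : 0 ≤ b)
    (hb : ∀ i ∈ S, ∑ j ∈ S with (Tri.Conf X (T i) (T j) ∧ sc i ≤ sc j), mu j ≤ b) :
    ∑ i ∈ S, mu i ≤ 2 * b * (132 * U.ncard) := by
  refine el X hs hP S T mu hmu (2 * b) (by positivity) ?_
  have h1 : ∑ i ∈ S, ∑ j ∈ S with Tri.Conf X (T i) (T j), mu i * mu j ≤
      ∑ i ∈ S, ∑ j ∈ S with (Tri.Conf X (T i) (T j) ∧ sc i ≤ sc j), mu i * mu j +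
      ∑ i ∈ S, ∑ j ∈ S with (Tri.Conf X (T i) (T j) ∧ sc j ≤ sc i), mu i * mu j := by
    rw [← Finset.sum_add_distrib]
    refine Finset.sum_le_sum fun i hi => ?_
    simp only [Finset.sum_filter]
    rw [← Finset.sum_add_distrib]
    refine Finset.sum_le_sum fun j hj => ?_
    have h0 : 0 ≤ mu i * mu j := mul_nonneg (hmu i hi) (hmu j hj)
    by_cases hc : Tri.Conf X (T i) (T j)
    · rcases le_total (sc i) (sc j) with h | h
      · simp only [hc, h, true_and, if_true]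
        split_ifs <;> linarith
      · simp only [hc, h, true_and, if_true]
        split_ifs <;> linarith
    · simp [hc]
  have h2 : ∑ i ∈ S, ∑ j ∈ S with (Tri.Conf X (T i) (T j) ∧ sc j ≤ sc i), mu i * mu j =
      ∑ i ∈ S, ∑ j ∈ S with (Tri.Conf X (T i) (T j) ∧ sc i ≤ sc j), mu i * mu j := by
    simp only [Finset.sum_filter]
    rw [Finset.sum_comm]
    refine Finset.sum_congr rfl fun i _ => Finset.sum_congr rfl fun j _ => ?_
    have e : (Tri.Conf X (T j) (T i) ∧ sc i ≤ sc j) ↔ (Tri.Conf X (T i) (T j) ∧ sc i ≤ sc j) :=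
      and_congr_left fun _ => ⟨Conf_symm hs _ _, Conf_symm hs _ _⟩
    simp only [e, mul_comm (mu j) (mu i)]
  have h3 : ∑ i ∈ S, ∑ j ∈ S with (Tri.Conf X (T i) (T j) ∧ sc i ≤ sc j), mu i * mu j ≤
      b * ∑ i ∈ S, mu i := by
    rw [Finset.mul_sum]
    refine Finset.sum_le_sum fun i hi => ?_
    rw [← Finset.mul_sum, mul_comm b]
    exact mul_le_mul_of_nonneg_left (hb i hi) (hmu i hi)
  linarith

open Classical in
/-- EL in the form of Helper93/HH/Spec.lean -/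
theorem EL {V : Type} [Finite V] (H : SimpleGraph V) (X : Sym2 V → Sym2 V → Prop)
    (hsym : ∀ f f', X f f' → X f' f) (hP : PlanarLike H X) (U : Set V) {ι : Type} [Fintype ι]
    (T : ι → Tri H U) (μ : ι → ℝ) (hμ : ∀ i, 0 ≤ μ i) (β : ℝ) (hβ : 0 ≤ β)
    (h : ∑ i, μ i * ∑ j, (if Tri.Conf X (T i) (T j) then μ j else 0) ≤ β * ∑ i, μ i) :
    ∑ i, μ i ≤ 132 * β * U.ncard := by
  have h1 := el X hsym hP Finset.univ T μ (fun i _ => hμ i) β hβ (by
    refine le_trans (le_of_eq ?_) h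
    refine Finset.sum_congr rfl fun i _ => ?_
    rw [Finset.mul_sum, Finset.sum_filter]
    refine Finset.sum_congr rfl fun j _ => ?_
    split_ifs <;> simp)
  linarith

end Pool.Agent.Helper43.HH
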