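import Pool.Agent.Helper43.HH.Unit
import Pool.Agent.Helper43.HH.Leg

/-!
# HH: tripods of the groups of one scale
-/

open Set
open Pool.Agent.Helper83.OP
open Pool.Agent.Helper93.HH

namespace Pool.Agent.Helper43.HH

section

variable {V P Q : Type} [Finite V] [Finite P] [Finite Q] {D : HD V P Q} {K : ℕ} {e0 : Sym2 V}

/-- two pins of the same hub in a group are double, with partners of different hubs -/
theorem pair_dbl (hD : D.Ok) (hK : 1000000 ≤ K) (hN : D.NoPl K) (i : ℕ) {p p' : P} (hne : p ≠ p')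
    (hh : D.hub p = D.hub p') (hp : ¬ D.Thick (D.x p)) (hp' : ¬ D.Thick (D.x p'))
    (hs : 2 ^ i * D.L ≤ D.sg (D.x p) + D.L) (hs' : 2 ^ i * D.L ≤ D.sg (D.x p') + D.L)
    (hd : Nr D.N (128 * (2 ^ i * D.L)) (D.x p) (D.x p')) :
    Dbl D p ∧ Dbl D p' ∧ D.gp p ≤ 2 ^ i * D.L ∧ D.gp p' ≤ 2 ^ i * D.L ∧
    D.hub (D.pt p) ≠ D.hub p ∧ D.hub (D.pt p') ≠ D.hub p ∧ D.hub (D.pt p) ≠ D.hub (D.pt p') := by
  have hr := hD.r_pos
  have hrL := hD.r_le
  have hL : 0 < D.L := by omega
  rcases i with _ | i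
  · exfalso
    have h1 := hN.e2 p p' hne hh _ hd
    rw [pow_zero, one_mul] at h1
    have h2 : 1000000 * D.L ≤ K * D.L := Nat.mul_le_mul_right _ hK
    omega
  · set m := 2 ^ i * D.L with hm
    have hm2 : 2 ^ (i + 1) * D.L = 2 * m := by rw [hm, pow_succ]; ring
    have hmL : D.L ≤ m := Nat.le_mul_of_pos_left _ (by positivity)
    rw [hm2] at hs hs' hd ⊢
    have h3 : ∀ n, 2 * m ≤ n + D.L → 1000 * (128 * (2 * m)) < K * n := by
      intro n hn
      have h4 : m ≤ n := by omega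
      have h5 : 1000000 * n ≤ K * n := Nat.mul_le_mul_right _ hK
      omega
    obtain ⟨⟨a1, a2, a3⟩, ⟨b1, b2, b3⟩, c1, c2, c3⟩ := Pool.Agent.Helper23.HH.xlem hD (by omega) hN hne hh hp hp'
      (l := 128 * (2 * m)) (by omega) hd (h3 _ hs) (h3 _ hs')
    have hg : ∀ g, K * g ≤ 2 * (128 * (2 * m)) → g ≤ 2 * m := by
      intro g hg
      have h5 : 1000000 * g ≤ K * g := Nat.mul_le_mul_right _ hK
      omega
    refine ⟨⟨?_, a2, a3⟩, ⟨?_, b2, b3⟩, hg _ a1, hg _ b1, c1, c2, c3⟩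
    · intro h
      exact c1 (by rw [h])
    · intro h
      exact c2 (by rw [h, hh])

theorem group_fam (hD : D.Ok) (hK : 1000000 ≤ K) (hN : D.NoPl K) (Bd : Set P)
    (h1 : ∀ p, D.Thick (D.x p) → p ∈ Bd) (h3 : ∀ p, e0 ∈ (D.w p).edges → p ∈ Bd) (i : ℕ)
    (J : Type) [Fintype J] (q : J → Fin 3 → P) (hq : ∀ j m, q j m ∉ Bd)
    (hs : ∀ j m, 2 ^ i * D.L ≤ D.sg (D.x (q j m)) + D.L)
    (hinj : ∀ j i j' i', q j i = q j' i' → j = j' ∧ i = i')
    (par : V → V) (c : J → V) (k : J → Fin 3 → ℕ)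
    (dw : ∀ j m, D.N.Walk (c j) (D.x (q j m)))
    (hdl : ∀ j m, (dw j m).length ≤ 64 * (2 ^ i * D.L))
    (hde : ∀ j m, ∀ f ∈ (dw j m).edges, ∃ s < k j m,
      f = s(par^[s] (D.x (q j m)), par^[s + 1] (D.x (q j m))))
    (hload : ∀ v, {a : J × Fin 3 | ∃ s < k a.1 a.2, par^[s] (D.x (q a.1 a.2)) = v}.ncard ≤ 2) :
    ∃ (ι : Type) (_ : Fintype ι) (t : ι → Leg3 D e0),
      (∀ x k, ((t x).W k).length ≤ 65 * (2 ^ i * D.L)) ∧
      (∀ f, {x | ∃ k, f ∈ ((t x).W k).edges}.ncard ≤ 6) ∧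
      (∀ p, {x | ∃ k, (t x).p k = p}.ncard ≤ 2) ∧
      Fintype.card J ≤ Fintype.card ι + Bd.ncard := by
  classical
  have := Fintype.ofFinite P
  have := Fintype.ofFinite V
  -- gap walks
  have hgap : ∀ p, Dbl D p → ∃ g : D.N.Walk (D.x p) (D.x (D.pt p)), g.length ≤ D.gp p :=
    fun p h => h.2.2
  choose g hg using hgap
  -- the tripod of a group
  have hj : ∀ j, (∃ T : Leg3 D e0, (∀ k, (T.W k).length ≤ 65 * (2 ^ i * D.L)) ∧
      (∀ f k, f ∈ (T.W k).edges → (∃ m, f ∈ (dw j m).edges) ∨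
        ∃ m, ∃ h : Dbl D (q j m), f ∈ (g _ h).edges) ∧
      ∀ k, (∃ m, T.p k = q j m) ∨ ∃ m, Dbl D (q j m) ∧ T.p k = D.pt (q j m)) ∨
      ∃ m, Dbl D (q j m) ∧ D.pt (q j m) ∈ Bd := by
    intro j
    by_cases hab : ∃ a b, a ≠ b ∧ D.hub (q j a) = D.hub (q j b)
    · obtain ⟨a, b, hne, hh⟩ := hab
      have hqne : q j a ≠ q j b := fun h => hne (hinj _ _ _ _ h).2
      have hdist : Nr D.N (128 * (2 ^ i * D.L)) (D.x (q j a)) (D.x (q j b)) := by
        have h4 : Nr D.N (64 * (2 ^ i * D.L)) (c j) (D.x (q j a)) := ⟨dw j a, hdl j a⟩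
        have h5 : Nr D.N (64 * (2 ^ i * D.L)) (c j) (D.x (q j b)) := ⟨dw j b, hdl j b⟩
        exact (h4.symm.trans h5).mono (by omega)
      obtain ⟨da, db, ga, gb, c1, c2, c3⟩ := pair_dbl hD hK hN i hqne hh
        (fun h => hq j a (h1 _ h)) (fun h => hq j b (h1 _ h)) (hs j a) (hs j b) hdist
      by_cases hba : D.pt (q j a) ∈ Bd
      · exact Or.inr ⟨a, da, hba⟩
      by_cases hbb : D.pt (q j b) ∈ Bd
      · exact Or.inr ⟨b, db, hbb⟩
      left
      let pp : Fin 3 → P := ![q j a, D.pt (q j a), D.pt (q j b)]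
      let WW : ∀ k, D.N.Walk (c j) (D.x (pp k)) := fun k => match k with
        | 0 => dw j a
        | 1 => (dw j a).append (g _ da)
        | 2 => (dw j b).append (g _ db)
      refine ⟨{ c := c j, p := pp, W := WW, inj := ?_, e := ?_ }, ?_, ?_, ?_⟩
      · intro k l hkl
        fin_cases k <;> fin_cases l
        · exact absurd rfl hkl
        · exact fun h => c1 h.symm
        · exact fun h => c2 h.symm
        · exact c1
        · exact absurd rfl hkl
        · exact c3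
        · exact c2
        · exact fun h => c3 h.symm
        · exact absurd rfl hkl
      · intro k
        fin_cases k
        · exact fun h => hq j a (h3 _ h)
        · exact fun h => hba (h3 _ h)
        · exact fun h => hbb (h3 _ h)
      · intro k
        have e1 := hdl j a
        have e2 := hdl j b
        have e3 := hg _ da
        have e4 := hg _ db
        fin_cases k
        · show (dw j a).length ≤ _
          omega
        · show ((dw j a).append (g _ da)).length ≤ _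
          rw [SimpleGraph.Walk.length_append]
          omega
        · show ((dw j b).append (g _ db)).length ≤ _
          rw [SimpleGraph.Walk.length_append]
          omega
      · intro f k
        fin_cases k
        · intro hf
          exact Or.inl ⟨a, hf⟩
        · intro hf
          have hf' : f ∈ ((dw j a).append (g _ da)).edges := hf
          rw [SimpleGraph.Walk.edges_append, List.mem_append] at hf'
          rcases hf' with h | h
          · exact Or.inl ⟨a, h⟩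
          · exact Or.inr ⟨a, da, h⟩
        · intro hf
          have hf' : f ∈ ((dw j b).append (g _ db)).edges := hf
          rw [SimpleGraph.Walk.edges_append, List.mem_append] at hf'
          rcases hf' with h | h
          · exact Or.inl ⟨b, h⟩
          · exact Or.inr ⟨b, db, h⟩
      · intro k
        fin_cases k
        · exact Or.inl ⟨a, rfl⟩
        · exact Or.inr ⟨a, da, rfl⟩
        · exact Or.inr ⟨b, db, rfl⟩
    · push Not at hab
      left
      refine ⟨{ c := c j, p := q j, W := dw j, inj := hab, e := fun k h => hq j k (h3 _ h) },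
        ?_, ?_, ?_⟩
      · intro k
        have := hdl j k
        show (dw j k).length ≤ _
        omega
      · intro f k hf
        exact Or.inl ⟨k, hf⟩
      · intro k
        exact Or.inl ⟨k, rfl⟩
  set Good : J → Prop := fun j => ∃ T : Leg3 D e0, (∀ k, (T.W k).length ≤ 65 * (2 ^ i * D.L)) ∧
      (∀ f k, f ∈ (T.W k).edges → (∃ m, f ∈ (dw j m).edges) ∨
        ∃ m, ∃ h : Dbl D (q j m), f ∈ (g _ h).edges) ∧
      ∀ k, (∃ m, T.p k = q j m) ∨ ∃ m, Dbl D (q j m) ∧ T.p k = D.pt (q j m) with hGood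
  have hT : ∀ x : {j // Good j}, Good x.1 := fun x => x.2
  choose T hT1 hT2 hT3 using hT
  refine ⟨{j // Good j}, inferInstance, T, hT1, ?_, ?_, ?_⟩
  · intro f
    have hsub : (fun x : {j // Good j} => x.1) '' {x | ∃ k, f ∈ ((T x).W k).edges} ⊆
        (Prod.fst '' {a : J × Fin 3 | f ∈ (dw a.1 a.2).edges}) ∪
        (Prod.fst '' {a : J × Fin 3 | ∃ h : Dbl D (q a.1 a.2), f ∈ (g _ h).edges}) := by
      rintro _ ⟨x, ⟨k, hk⟩, rfl⟩
      rcases hT2 x f k hk with ⟨m, hm⟩ | ⟨m, hm, hm'⟩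
      · exact Or.inl ⟨(x.1, m), hm, rfl⟩
      · exact Or.inr ⟨(x.1, m), ⟨hm, hm'⟩, rfl⟩
    have hA : {a : J × Fin 3 | f ∈ (dw a.1 a.2).edges}.ncard ≤ 4 := by
      induction f using Sym2.ind with
      | _ u v =>
        have h5 : {a : J × Fin 3 | s(u, v) ∈ (dw a.1 a.2).edges} ⊆
            {a : J × Fin 3 | ∃ s < k a.1 a.2, par^[s] (D.x (q a.1 a.2)) = u} ∪
            {a : J × Fin 3 | ∃ s < k a.1 a.2, par^[s] (D.x (q a.1 a.2)) = v} := by
          rintro ⟨j, m⟩ h
          obtain ⟨s, hs, h6⟩ := hde j m _ h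
          rw [Sym2.eq_iff] at h6
          rcases h6 with ⟨h6, -⟩ | ⟨-, h6⟩
          · exact Or.inl ⟨s, hs, h6.symm⟩
          · exact Or.inr ⟨s, hs, h6.symm⟩
        refine (Set.ncard_le_ncard h5 (Set.toFinite _)).trans ((Set.ncard_union_le _ _).trans ?_)
        have e1 := hload u
        have e2 := hload v
        omega
    have hB : {a : J × Fin 3 | ∃ h : Dbl D (q a.1 a.2), f ∈ (g _ h).edges}.ncard ≤ 2 := by
      refine le_trans ?_ (Dbl.gap g hg f)
      refine Set.ncard_le_ncard_of_injOn (fun a => q a.1 a.2) ?_ ?_ (Set.toFinite _)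
      · rintro ⟨j, m⟩ h
        exact h
      · rintro ⟨j, m⟩ _ ⟨j', m'⟩ _ h
        obtain ⟨e1, e2⟩ := hinj _ _ _ _ h
        exact Prod.ext e1 e2
    rw [← Set.ncard_image_of_injective _ Subtype.val_injective]
    refine (Set.ncard_le_ncard hsub (Set.toFinite _)).trans ((Set.ncard_union_le _ _).trans ?_)
    have e1 := (Set.ncard_image_le (f := Prod.fst) (Set.toFinite
      {a : J × Fin 3 | f ∈ (dw a.1 a.2).edges})).trans hA
    have e2 := (Set.ncard_image_le (f := Prod.fst) (Set.toFinite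
      {a : J × Fin 3 | ∃ h : Dbl D (q a.1 a.2), f ∈ (g _ h).edges})).trans hB
    omega
  · intro p
    have hsub : (fun x : {j // Good j} => x.1) '' {x | ∃ k, (T x).p k = p} ⊆
        {j | ∃ m, q j m = p} ∪ {j | ∃ m, Dbl D (q j m) ∧ D.pt (q j m) = p} := by
      rintro _ ⟨x, ⟨k, hk⟩, rfl⟩
      rcases hT3 x k with ⟨m, hm⟩ | ⟨m, hm, hm'⟩
      · exact Or.inl ⟨m, hm.symm.trans hk⟩
      · exact Or.inr ⟨m, hm, hm'.symm.trans hk⟩
    have hA : {j | ∃ m, q j m = p}.ncard ≤ 1 := by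
      rw [Set.ncard_le_one (Set.toFinite _)]
      rintro j ⟨m, hm⟩ j' ⟨m', hm'⟩
      exact (hinj _ _ _ _ (hm.trans hm'.symm)).1
    have hB : {j | ∃ m, Dbl D (q j m) ∧ D.pt (q j m) = p}.ncard ≤ 1 := by
      rw [Set.ncard_le_one (Set.toFinite _)]
      rintro j ⟨m, hm, hm2⟩ j' ⟨m', hm', hm2'⟩
      exact (hinj _ _ _ _ (hm.inj hm' (hm2.trans hm2'.symm))).1
    rw [← Set.ncard_image_of_injective _ Subtype.val_injective]
    refine (Set.ncard_le_ncard hsub (Set.toFinite _)).trans ((Set.ncard_union_le _ _).trans ?_)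
    omega
  · -- the dropped groups
    have hdrop : ∀ j, ∃ b : P, ¬ Good j → b ∈ Bd ∧ ∃ m, Dbl D (q j m) ∧ D.pt (q j m) = b := by
      intro j
      by_cases hgj : Good j
      · exact ⟨q j 0, fun h => absurd hgj h⟩
      · rcases hj j with h | ⟨m, hm, hm'⟩
        · exact absurd h hgj
        · exact ⟨D.pt (q j m), fun _ => ⟨hm', m, hm, rfl⟩⟩
    choose b hb using hdrop
    have h5 : {j | ¬ Good j}.ncard ≤ Bd.ncard := by
      refine Set.ncard_le_ncard_of_injOn b (fun j hj => (hb j hj).1) ?_ (Set.toFinite _)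
      intro j hj j' hj' h
      obtain ⟨-, m, hm, hm2⟩ := hb j hj
      obtain ⟨-, m', hm', hm2'⟩ := hb j' hj'
      exact (hinj _ _ _ _ (hm.inj hm' (hm2.trans (h.trans hm2'.symm)))).1
    have h6 : Fintype.card J = Fintype.card {j // Good j} + Fintype.card {j // ¬ Good j} := by
      rw [← Fintype.card_sum]
      exact (Fintype.card_congr (Equiv.sumCompl Good)).symm
    have h7 : Fintype.card {j // ¬ Good j} = {j | ¬ Good j}.ncard := by
      rw [← Nat.card_eq_fintype_card]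
      rfl
    omega

end

end Pool.Agent.Helper43.HH
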