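import Pool.Agent.Helper43.HH.Multi

/-!
# HH: sums over the vertices and the edges of a tripod
-/

open Set
open Pool.Agent.Helper83.OP
open Pool.Agent.Helper93.HH

namespace Pool.Agent.Helper43.HH

open Classical in
/-- the inner vertices of a pin -/
noncomputable def pinIn {V P Q : Type} [Fintype V] (D : HD V P Q) (p : P) : Finset V :=
  Finset.univ.filter fun z => z ∈ (D.w p).support ∧ z ≠ D.x p ∧ z ≠ D.hub p

theorem pinIn_card {V P Q : Type} [Fintype V] {D : HD V P Q} (hD : D.Ok) (p : P) :
    (pinIn D p).card ≤ D.L := by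
  classical
  have h1 : insert (D.x p) (pinIn D p) ⊆ (D.w p).support.toFinset := by
    intro z hz
    rw [List.mem_toFinset]
    rcases Finset.mem_insert.1 hz with h | hz
    · rw [h]
      exact SimpleGraph.Walk.start_mem_support _
    · unfold pinIn at hz
      exact (Finset.mem_filter.1 hz).2.1
  have h2 : D.x p ∉ pinIn D p := by
    intro h
    unfold pinIn at h
    exact (Finset.mem_filter.1 h).2.2.1 rfl
  have h3 := (Finset.card_le_card h1).trans (List.toFinset_card_le _)
  rw [Finset.card_insert_of_notMem h2, SimpleGraph.Walk.length_support] at h3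
  have := hD.w_le p
  omega

theorem walk_sum {V : Type} {G : SimpleGraph V} (g : V → ℝ) (h : Sym2 V → ℝ) {a b : V}
    (p : G.Walk a b) (hh : ∀ f ∈ p.edges, ∀ v ∈ f, h f ≤ g v) :
    (p.edges.map h).sum + g b ≤ (p.support.map g).sum := by
  induction p with
  | nil => simp
  | @cons a c b hadj q ih =>
    rw [SimpleGraph.Walk.edges_cons, SimpleGraph.Walk.support_cons, List.map_cons, List.map_cons,
      List.sum_cons, List.sum_cons]
    have h1 := ih fun f hf => hh f (by rw [SimpleGraph.Walk.edges_cons]; exact List.mem_cons_of_mem _ hf)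
    have h2 := hh s(a, c) (by rw [SimpleGraph.Walk.edges_cons]; exact List.mem_cons_self) a
      (Sym2.mem_mk_left _ _)
    linarith

open Classical in
theorem path_sum {V : Type} {G : SimpleGraph V} (g : V → ℝ) (h : Sym2 V → ℝ) {a b : V}
    (p : G.Walk a b) (hp : p.IsPath) (hh : ∀ f ∈ p.edges, ∀ v ∈ f, v ≠ b → h f ≤ g v) :
    (p.edges.map h).sum ≤ ∑ z ∈ p.support.toFinset.erase b, g z := by
  induction p with
  | nil => simp
  | @cons a c b hadj q ih =>
    rw [SimpleGraph.Walk.cons_isPath_iff] at hp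
    have hab : a ≠ b := by
      rintro rfl
      exact hp.2 (SimpleGraph.Walk.end_mem_support _)
    rw [SimpleGraph.Walk.edges_cons, SimpleGraph.Walk.support_cons, List.map_cons,
      List.sum_cons, List.toFinset_cons, Finset.erase_insert_of_ne hab,
      Finset.sum_insert (by
        intro h1
        exact hp.2 (List.mem_toFinset.1 (Finset.mem_of_mem_erase h1)))]
    have h1 := ih hp.1 fun f hf =>
      hh f (by rw [SimpleGraph.Walk.edges_cons]; exact List.mem_cons_of_mem _ hf)
    have h2 := hh s(a, c) (by rw [SimpleGraph.Walk.edges_cons]; exact List.mem_cons_self) a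
      (Sym2.mem_mk_left _ _) hab
    linarith

theorem toFinset_sum_le {α : Type} [DecidableEq α] (g : α → ℝ) (hg : ∀ v, 0 ≤ g v) (l : List α) :
    ∑ v ∈ l.toFinset, g v ≤ (l.map g).sum := by
  induction l with
  | nil => simp
  | cons a l ih =>
    rw [List.toFinset_cons, List.map_cons, List.sum_cons]
    by_cases ha : a ∈ l.toFinset
    · rw [Finset.insert_eq_of_mem ha]
      linarith [hg a]
    · rw [Finset.sum_insert ha]
      linarith

theorem sum_U_le' {α : Type} [DecidableEq α] (s t : Finset α) (f : α → ℝ) (hf : ∀ v, 0 ≤ f v) :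
    ∑ v ∈ s ∪ t, f v ≤ ∑ v ∈ s, f v + ∑ v ∈ t, f v := by
  have h1 := Finset.sum_union_inter (s₁ := s) (s₂ := t) (f := f)
  have h2 : 0 ≤ ∑ v ∈ s ∩ t, f v := Finset.sum_nonneg fun v _ => hf v
  linarith

theorem sum_biU_le' {α β : Type} [DecidableEq α] [DecidableEq β] (s : Finset β)
    (t : β → Finset α) (f : α → ℝ) (hf : ∀ v, 0 ≤ f v) :
    ∑ v ∈ s.biUnion t, f v ≤ ∑ b ∈ s, ∑ v ∈ t b, f v := by
  induction s using Finset.induction_on with
  | empty => simp
  | insert b s hb ih =>
    rw [Finset.biUnion_insert, Finset.sum_insert hb]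
    exact (sum_U_le' _ _ _ hf).trans (add_le_add_right ih _)

open Classical in
theorem leg_sum {V P Q : Type} [Fintype V] {D : HD V P Q} {e0 : Sym2 V} {H : SimpleGraph V}
    {X : Sym2 V → Sym2 V → Prop} (T : Leg3 D e0) (hD : D.Ok) (hX : D.Dr H e0 X) (g : V → ℝ)
    (hg : ∀ v, 0 ≤ g v) (h : Sym2 V → ℝ)
    (hh : ∀ f ∈ (T.tri hD hX).es, ∀ v ∈ f, v ∉ D.U → h f ≤ g v) :
    ∑ v ∈ (T.tri hD hX).vs.toFinset, g v + ∑ f ∈ (T.tri hD hX).es.toFinset, h f ≤
      2 * ∑ k : Fin 3, (((T.W k).support.map g).sum + ∑ z ∈ pinIn D (T.p k), g z) := by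
  -- the vertices
  have hA : ∑ v ∈ (T.tri hD hX).vs.toFinset, g v ≤
      ∑ k : Fin 3, (((T.W k).support.map g).sum + ∑ z ∈ pinIn D (T.p k), g z) := by
    have hsub : (T.tri hD hX).vs.toFinset ⊆ Finset.univ.biUnion fun k : Fin 3 =>
        ((T.W k).support.toFinset ∪ pinIn D (T.p k)) := by
      intro v hv
      obtain ⟨hvU, k, h1⟩ := (T.mem_vs hD hX v).1 (Set.mem_toFinset.1 hv)
      rw [Finset.mem_biUnion]
      refine ⟨k, Finset.mem_univ _, ?_⟩
      rw [Finset.mem_union, List.mem_toFinset]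
      rcases h1 with h1 | h1
      · exact Or.inl h1
      · by_cases hvx : v = D.x (T.p k)
        · left
          rw [hvx]
          exact SimpleGraph.Walk.end_mem_support _
        · right
          unfold pinIn
          rw [Finset.mem_filter]
          exact ⟨Finset.mem_univ _, h1, hvx, fun h2 => hvU (h2 ▸ hD.hub_U _)⟩
    refine (Finset.sum_le_sum_of_subset_of_nonneg hsub (fun v _ _ => hg v)).trans ?_
    refine (sum_biU_le' _ _ _ hg).trans (Finset.sum_le_sum fun k _ => ?_)
    refine (sum_U_le' _ _ _ hg).trans (add_le_add_left ?_ _)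
    exact toFinset_sum_le g hg _
  -- the edges
  have hB : ∑ f ∈ (T.tri hD hX).es.toFinset, h f ≤
      ∑ k : Fin 3, (((T.W k).support.map g).sum + ∑ z ∈ pinIn D (T.p k), g z) := by
    set h' : Sym2 V → ℝ := fun f => max (h f) 0 with hh'
    have hh0 : ∀ f, 0 ≤ h' f := fun f => le_max_right _ _
    have hsub : (T.tri hD hX).es.toFinset ⊆ Finset.univ.biUnion fun k : Fin 3 =>
        ((T.W k).edges.toFinset ∪ (D.w (T.p k)).edges.toFinset) := by
      intro f hf
      obtain ⟨k, h1⟩ := (T.mem_es hD hX f).1 (Set.mem_toFinset.1 hf)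
      rw [Finset.mem_biUnion]
      refine ⟨k, Finset.mem_univ _, ?_⟩
      rw [Finset.mem_union, List.mem_toFinset, List.mem_toFinset]
      exact h1
    refine (Finset.sum_le_sum fun f _ => le_max_left (h f) 0).trans ?_
    refine (Finset.sum_le_sum_of_subset_of_nonneg hsub (fun f _ _ => hh0 f)).trans ?_
    refine (sum_biU_le' _ _ _ hh0).trans (Finset.sum_le_sum fun k _ => ?_)
    refine (sum_U_le' _ _ _ hh0).trans ?_
    have h1 : ∑ f ∈ (T.W k).edges.toFinset, h' f ≤ ((T.W k).edges.map h').sum :=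
      toFinset_sum_le h' hh0 _
    have h2 : ∑ f ∈ (D.w (T.p k)).edges.toFinset, h' f ≤ ((D.w (T.p k)).edges.map h').sum :=
      toFinset_sum_le h' hh0 _
    have h3 := walk_sum g h' (T.W k) (by
      intro f hf v hv
      refine max_le (hh f ((T.mem_es hD hX f).2 ⟨k, Or.inl hf⟩) v hv ?_) (hg v)
      refine HD.VN_U hD (T.supp_VN k ?_)
      exact SimpleGraph.Walk.mem_support_of_mem_edges hf hv)
    have h4 := path_sum g h' (D.w (T.p k)) (hD.w_path _) (by
      intro f hf v hv hne
      refine max_le (hh f ((T.mem_es hD hX f).2 ⟨k, Or.inr hf⟩) v hv ?_) (hg v)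
      exact hD.w_U _ v (SimpleGraph.Walk.mem_support_of_mem_edges hf hv) hne)
    have h5 : (D.w (T.p k)).support.toFinset.erase (D.hub (T.p k)) ⊆
        insert (D.x (T.p k)) (pinIn D (T.p k)) := by
      intro z hz
      rw [Finset.mem_erase, List.mem_toFinset] at hz
      rw [Finset.mem_insert]
      by_cases hzx : z = D.x (T.p k)
      · exact Or.inl hzx
      · right
        unfold pinIn
        rw [Finset.mem_filter]
        exact ⟨Finset.mem_univ _, hz.2, hzx, hz.1⟩
    have h6 : D.x (T.p k) ∉ pinIn D (T.p k) := by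
      intro h7
      unfold pinIn at h7
      exact (Finset.mem_filter.1 h7).2.2.1 rfl
    have h8 := Finset.sum_le_sum_of_subset_of_nonneg h5 (fun v _ _ => hg v)
    rw [Finset.sum_insert h6] at h8
    linarith
  linarith

end Pool.Agent.Helper43.HH
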