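import Pool.Agent.Helper93.HH.FG
import Pool.Agent.Helper3.HH.FC
import Pool.Agent.Helper43.HH.LegSum

/-!
# HH: the sum of the loads along a leg (FL-6)
-/

open Set
open Pool.Agent.Helper83.OP
open Pool.Agent.Helper93.HH

namespace Pool.Agent.Helper43.HH

open HD

variable {V P Q : Type} [Fintype V] [Fintype P] [Finite Q] {D : HD V P Q} {K : ℕ}
  {S : Sys D K} {e0 : Sym2 V} {D0 M : ℕ} {Φ : Fl S e0 D0 M}

theorem chain_gV (hD : D.Ok) (hKh : 1 ≤ D.Kh) (S : Sys D K) (w : V) (hw : w ∈ D.VN) :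
    ∑ j ∈ Finset.range (S.E.dep w + 1), gV S (S.E.par^[j] w) ≤ 12832 * D.L / D.Kh := by
  have hK1 : (1 : ℝ) ≤ D.Kh := by exact_mod_cast hKh
  have hK0 : (0 : ℝ) < D.Kh := by linarith
  have hVN : ∀ j ≤ S.E.dep w, S.E.par^[j] w ∈ D.VN := by
    intro j
    induction j with
    | zero => intro _; exact hw
    | succ j ih =>
      intro hj
      have h1 := iter_dep S.E.par_dep w j (by omega)
      have h2 := S.E.par_adj (S.E.par^[j] w) (by omega)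
      rw [Function.iterate_succ_apply']
      exact VN_of_adj' h2
  have h1 : ∀ j ∈ Finset.range (S.E.dep w + 1), gV S (S.E.par^[j] w) =
      16 / D.Kh * (1 / 2) ^ (S.E.dep (S.E.par^[j] w) / D.L) +
      64 / (D.Kh : ℝ) ^ 3 * ((deg D.N (S.E.par^[j] w) : ℝ) *
        (1 / 2 : ℝ) ^ ((S.E.sc (S.E.par^[j] w)).natAbs / (2 * D.L))) := by
    intro j hj
    unfold gV gm
    rw [if_pos (hVN j (by rw [Finset.mem_range] at hj; omega))]
    ring
  rw [Finset.sum_congr rfl h1, Finset.sum_add_distrib, ← Finset.mul_sum, ← Finset.mul_sum]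
  have h2 := Pool.Agent.Helper3.HH.chain_dep hD S w (S.E.dep w) le_rfl
  have h3 := Pool.Agent.Helper3.HH.chain_deg hD S w hw (S.E.dep w) le_rfl
  have hL0 : (0 : ℝ) ≤ D.L := Nat.cast_nonneg _
  have h4 : (16 : ℝ) / D.Kh * ∑ j ∈ Finset.range (S.E.dep w + 1),
      (1 / 2 : ℝ) ^ (S.E.dep (S.E.par^[j] w) / D.L) ≤ 16 / D.Kh * (2 * D.L) :=
    mul_le_mul_of_nonneg_left h2 (by positivity)
  have h5 : (64 : ℝ) / (D.Kh : ℝ) ^ 3 * ∑ j ∈ Finset.range (S.E.dep w + 1),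
      (deg D.N (S.E.par^[j] w) : ℝ) *
        (1 / 2 : ℝ) ^ ((S.E.sc (S.E.par^[j] w)).natAbs / (2 * D.L)) ≤
      64 / (D.Kh : ℝ) ^ 3 * (100 * (D.Kh + 1) * D.L) :=
    mul_le_mul_of_nonneg_left h3 (by positivity)
  have h6 : (64 : ℝ) / (D.Kh : ℝ) ^ 3 * (100 * (D.Kh + 1) * D.L) ≤ 12800 * D.L / D.Kh := by
    rw [div_mul_eq_mul_div, div_le_div_iff₀ (by positivity) hK0]
    have h7 : (D.Kh : ℝ) * (D.Kh + 1) ≤ 2 * (D.Kh : ℝ) ^ 3 := by
      nlinarith [mul_nonneg hK0.le hK0.le, sq_nonneg ((D.Kh : ℝ) - 1)]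
    calc 64 * (100 * ((D.Kh : ℝ) + 1) * D.L) * D.Kh
        = 6400 * D.L * (D.Kh * (D.Kh + 1)) := by ring
      _ ≤ 6400 * D.L * (2 * (D.Kh : ℝ) ^ 3) := mul_le_mul_of_nonneg_left h7 (by positivity)
      _ = 12800 * D.L * (D.Kh : ℝ) ^ 3 := by ring
  have h8 : (16 : ℝ) / D.Kh * (2 * D.L) + 12800 * D.L / D.Kh = 12832 * D.L / D.Kh := by
    field_simp
    ring
  linarith

/-- FL-6 -/
theorem leg_load (Φ : Fl S e0 D0 M) (hD : D.Ok) (hKh : 1 ≤ D.Kh) {s : P × V × V} (hs : s ∈ Φ.Sr) :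
    ∑ j ∈ Finset.range (S.E.dep s.2.2 + 1), gV S (S.E.par^[j] s.2.2) +
      ∑ j ∈ Finset.range (S.E.dep s.2.1 + 1), gV S (S.E.par^[j] s.2.1) +
      ∑ z ∈ pinIn D s.1, gV S z ≤ 30000 * D.L / D.Kh := by
  have hK1 : (1 : ℝ) ≤ D.Kh := by exact_mod_cast hKh
  have hK0 : (0 : ℝ) < D.Kh := by linarith
  have hadj : D.N.Adj s.2.1 s.2.2 := (Φ.mAl _ _ _ ((Φ.mem_Sr s).1 hs).1).2.1.2.2
  have h1 := chain_gV hD hKh S s.2.2 (VN_of_adj' hadj)
  have h2 := chain_gV hD hKh S s.2.1 (VN_of_adj hadj)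
  have h3 : ∑ z ∈ pinIn D s.1, gV S z ≤ D.L / D.Kh := by
    have h4 : ∀ z ∈ pinIn D s.1, gV S z = 1 / (D.Kh : ℝ) := by
      classical
      intro z hz
      unfold pinIn at hz
      obtain ⟨-, hz1, hz2, -⟩ := Finset.mem_filter.1 hz
      unfold gV
      rw [if_neg (hD.w_N _ z hz1 hz2)]
    rw [Finset.sum_congr rfl h4, Finset.sum_const, nsmul_eq_mul, mul_one_div]
    refine div_le_div_of_nonneg_right ?_ hK0.le
    exact_mod_cast pinIn_card hD s.1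
  have hL0 : (0 : ℝ) ≤ D.L := Nat.cast_nonneg _
  have h5 : (12832 : ℝ) * D.L / D.Kh + 12832 * D.L / D.Kh + D.L / D.Kh ≤
      30000 * D.L / D.Kh := by
    rw [← add_div, ← add_div]
    refine div_le_div_of_nonneg_right ?_ hK0.le
    linarith
  linarith

end Pool.Agent.Helper43.HH
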