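import Pool.Agent.Helper43.HH.Leg

/-!
# HH: the energy lemma for families of tripods of many scales
-/

open Set
open Pool.Agent.Helper83.OP
open Pool.Agent.Helper93.HH

namespace Pool.Agent.Helper43.HH

theorem geom_tail_aux (j : ℕ) : ∀ M : ℕ,
    ∑ i ∈ Finset.range M, (if j ≤ i then ((1 : ℝ) / 2) ^ i else 0) ≤
      2 * (1 / 2) ^ j - (if j ≤ M then 2 * (1 / 2) ^ M else 2 * (1 / 2) ^ j) := by
  intro M
  induction M with
  | zero =>
    rw [Finset.sum_range_zero]
    by_cases h : j ≤ 0
    · have : j = 0 := by omega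
      subst this
      simp
    · rw [if_neg h]
      simp
  | succ M ih =>
    rw [Finset.sum_range_succ]
    have hp : (0 : ℝ) < (1 / 2) ^ M := by positivity
    rcases lt_trichotomy j (M + 1) with h | h | h
    · rw [if_pos (by omega : j ≤ M)] at ih ⊢
      rw [if_pos (by omega : j ≤ M + 1), pow_succ]
      linarith
    · rw [if_neg (by omega : ¬ j ≤ M)] at ih ⊢
      rw [if_pos (by omega : j ≤ M + 1), h]
      rw [h] at ih
      linarith
    · rw [if_neg (by omega : ¬ j ≤ M)] at ih ⊢
      rw [if_neg (by omega : ¬ j ≤ M + 1)]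
      linarith

theorem geom_tail (j M : ℕ) :
    ∑ i : Fin M, (if j ≤ (i : ℕ) then ((1 : ℝ) / 2) ^ (i : ℕ) else 0) ≤ 2 * (1 / 2) ^ j := by
  rw [Fin.sum_univ_eq_sum_range (fun i => if j ≤ i then ((1 : ℝ) / 2) ^ i else 0) M]
  refine (geom_tail_aux j M).trans ?_
  have h1 : (0 : ℝ) < (1 / 2) ^ j := by positivity
  have h2 : (0 : ℝ) < (1 / 2) ^ M := by positivity
  split_ifs <;> linarith

open Classical in
theorem load {M : ℕ} {ι : Fin M → Type} [∀ i, Fintype (ι i)] (R : (Σ i, ι i) → Prop) (a : ℕ)
    (h : ∀ i, {x : ι i | R ⟨i, x⟩}.ncard ≤ a) (j : ℕ) :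
    ∑ y : (Σ i, ι i), (if R y ∧ j ≤ (y.1 : ℕ) then ((1 : ℝ) / 2) ^ (y.1 : ℕ) else 0) ≤
      2 * a * (1 / 2) ^ j := by
  rw [Fintype.sum_sigma]
  have h1 : ∀ i : Fin M, ∑ x : ι i,
      (if R ⟨i, x⟩ ∧ j ≤ (i : ℕ) then ((1 : ℝ) / 2) ^ (i : ℕ) else 0) ≤
      a * (if j ≤ (i : ℕ) then ((1 : ℝ) / 2) ^ (i : ℕ) else 0) := by
    intro i
    by_cases hj : j ≤ (i : ℕ)
    · simp only [hj, and_true, if_true]
      rw [← Finset.sum_filter, Finset.sum_const, nsmul_eq_mul]
      refine mul_le_mul_of_nonneg_right ?_ (by positivity)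
      have h2 := h i
      have h3 : {x : ι i | R ⟨i, x⟩} =
          ((Finset.univ.filter fun x : ι i => R ⟨i, x⟩ : Finset (ι i)) : Set (ι i)) := by
        ext x
        simp
      rw [h3, Set.ncard_coe_finset] at h2
      exact_mod_cast h2
    · simp [hj]
  refine (Finset.sum_le_sum fun i _ => h1 i).trans ?_
  rw [← Finset.mul_sum]
  calc (a : ℝ) * ∑ i : Fin M, (if j ≤ (i : ℕ) then ((1 : ℝ) / 2) ^ (i : ℕ) else 0)
      ≤ a * (2 * (1 / 2) ^ j) := mul_le_mul_of_nonneg_left (geom_tail j M) (Nat.cast_nonneg _)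
    _ = 2 * a * (1 / 2) ^ j := by ring

theorem getVert_edge {V : Type} {G : SimpleGraph V} {u v : V} (p : G.Walk u v) {n : ℕ}
    (hn : n < p.length) : s(p.getVert n, p.getVert (n + 1)) ∈ p.edges := by
  induction p generalizing n with
  | nil => simp at hn
  | @cons a b c h q ih =>
    rw [SimpleGraph.Walk.edges_cons, List.mem_cons]
    rcases n with _ | n
    · left
      rw [SimpleGraph.Walk.getVert_zero, SimpleGraph.Walk.getVert_cons_succ,
        SimpleGraph.Walk.getVert_zero]
    · right
      rw [SimpleGraph.Walk.getVert_cons_succ, SimpleGraph.Walk.getVert_cons_succ]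
      rw [SimpleGraph.Walk.length_cons] at hn
      exact ih (by omega)

theorem sum_U_le {α : Type} [DecidableEq α] (s t : Finset α) (f : α → ℕ) :
    ∑ v ∈ s ∪ t, f v ≤ ∑ v ∈ s, f v + ∑ v ∈ t, f v := by
  have := Finset.sum_union_inter (s₁ := s) (s₂ := t) (f := f)
  omega

theorem sum_biU_le {α β : Type} [DecidableEq α] [DecidableEq β] (s : Finset β)
    (t : β → Finset α) (f : α → ℕ) :
    ∑ v ∈ s.biUnion t, f v ≤ ∑ b ∈ s, ∑ v ∈ t b, f v := by
  induction s using Finset.induction_on with
  | empty => simp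
  | insert b s hb ih =>
    rw [Finset.biUnion_insert, Finset.sum_insert hb]
    exact (sum_U_le _ _ _).trans (Nat.add_le_add_left ih _)

section

variable {V P Q : Type} [Finite V] {D : HD V P Q}

/-- the number of vertices of a walk, weighted with the degree -/
theorem dg_sum (hD : D.Ok) {u v : V} (p : D.N.Walk u v) (hp : ∀ z ∈ p.support, z ∈ D.VN)
    (S : Finset V) (hS : ∀ z ∈ S, z ∈ p.support) :
    ∑ z ∈ S, D.dg z ≤ 2 * (p.length + 1) + D.Kh * (p.length + D.r) := by
  classical
  have h1 : ∀ z ∈ S, D.dg z ≤ 2 + (if 3 ≤ D.dg z then D.Kh * D.r else 0) := by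
    intro z hz
    have h2 := hD.dg_le z (HD.VN_U hD (hp z (hS z hz)))
    split_ifs with h
    · omega
    · omega
  refine (Finset.sum_le_sum h1).trans ?_
  rw [Finset.sum_add_distrib, Finset.sum_const, smul_eq_mul, ← Finset.sum_filter,
    Finset.sum_const, smul_eq_mul]
  have hc1 : S.card ≤ p.length + 1 := by
    have h2 : S ⊆ p.support.toFinset := fun z hz => List.mem_toFinset.2 (hS z hz)
    have h3 := (Finset.card_le_card h2).trans (List.toFinset_card_le _)
    rwa [SimpleGraph.Walk.length_support] at h3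
  have hc2 : (S.filter fun z => 3 ≤ D.dg z).card ≤ p.length / D.r + 1 := by
    refine le_trans ?_ (branch_count hD p)
    rw [← Set.ncard_coe_finset]
    refine Set.ncard_le_ncard ?_ (Set.toFinite _)
    intro z hz
    have hz' := Finset.mem_filter.1 (Finset.mem_coe.1 hz)
    exact ⟨hS z hz'.1, hz'.2⟩
  have hr := hD.r_pos
  have h4 : (S.filter fun z => 3 ≤ D.dg z).card * (D.Kh * D.r) ≤ D.Kh * (p.length + D.r) := by
    calc (S.filter fun z => 3 ≤ D.dg z).card * (D.Kh * D.r)
        ≤ (p.length / D.r + 1) * (D.Kh * D.r) := Nat.mul_le_mul_right _ hc2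
      _ = D.Kh * ((p.length / D.r) * D.r + D.r) := by ring
      _ ≤ D.Kh * (p.length + D.r) :=
        Nat.mul_le_mul_left _ (Nat.add_le_add_right (Nat.div_mul_le_self _ _) _)
  omega

end

section

variable {V P Q : Type} [Finite V] [Finite P] {D : HD V P Q} {e0 : Sym2 V}
  {H : SimpleGraph V} {X : Sym2 V → Sym2 V → Prop}

open Classical in
/-- number of tripods of a family through an edge -/
theorem edge_load (hD : D.Ok) (hX : D.Dr H e0 X) {ι : Type} [Fintype ι] (t : ι → Leg3 D e0) (a : ℕ)
    (hE : ∀ f, {x | ∃ k, f ∈ ((t x).W k).edges}.ncard ≤ a)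
    (hPn : ∀ q, {x | ∃ k, (t x).p k = q}.ncard ≤ a) (f : Sym2 V) :
    {x | f ∈ ((t x).tri hD hX).es}.ncard ≤ a := by
  by_cases hf : f ∈ D.N.edgeSet
  · refine le_trans (Set.ncard_le_ncard ?_ (Set.toFinite _)) (hE f)
    intro x hx
    obtain ⟨k, h | h⟩ := ((t x).mem_es hD hX f).1 hx
    · exact ⟨k, h⟩
    · exfalso
      -- an end of `f` different from `x`
      induction f using Sym2.ind with
      | _ u v =>
        have hu := SimpleGraph.Walk.fst_mem_support_of_mem_edges _ h
        have hv := SimpleGraph.Walk.snd_mem_support_of_mem_edges _ h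
        have hadj : D.N.Adj u v := hf
        by_cases hux : u = D.x ((t x).p k)
        · exact hD.w_N _ v hv (fun h' => hadj.ne (hux.trans h'.symm)) (HD.VN_of_adj' hadj)
        · exact hD.w_N _ u hu hux (HD.VN_of_adj hadj)
  · by_cases hq : ∃ q, f ∈ (D.w q).edges
    · obtain ⟨q, hq⟩ := hq
      refine le_trans (Set.ncard_le_ncard ?_ (Set.toFinite _)) (hPn q)
      intro x hx
      obtain ⟨k, h | h⟩ := ((t x).mem_es hD hX f).1 hx
      · exact absurd (SimpleGraph.Walk.edges_subset_edgeSet _ h) hf
      · refine ⟨k, ?_⟩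
        induction f using Sym2.ind with
        | _ u v =>
          have hu := SimpleGraph.Walk.fst_mem_support_of_mem_edges _ h
          have hv := SimpleGraph.Walk.snd_mem_support_of_mem_edges _ h
          have hu' := SimpleGraph.Walk.fst_mem_support_of_mem_edges _ hq
          have hv' := SimpleGraph.Walk.snd_mem_support_of_mem_edges _ hq
          have hadj : D.G.Adj u v := SimpleGraph.Walk.edges_subset_edgeSet _ hq
          set p' := (t x).p k with hp'
          by_cases h1 : u ≠ D.x p' ∧ u ≠ D.hub p'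
          · exact hD.w_disj p' q u hu hu' h1.1 h1.2
          by_cases h2 : v ≠ D.x p' ∧ v ≠ D.hub p'
          · exact hD.w_disj p' q v hv hv' h2.1 h2.2
          exfalso
          -- the pin would be a single edge
          have h3 : ∀ z, ¬ (z ≠ D.x p' ∧ z ≠ D.hub p') → z = D.x p' ∨ z = D.hub p' := by
            intro z hz
            by_cases hz1 : z = D.x p'
            · exact Or.inl hz1
            · right
              by_contra hz2
              exact hz ⟨hz1, hz2⟩
          have hf' : s(u, v) = s(D.x p', D.hub p') := by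
            rcases h3 u h1 with ha | ha <;> rcases h3 v h2 with hb | hb
            · exact absurd (ha.trans hb.symm) hadj.ne
            · rw [ha, hb]
            · rw [ha, hb, Sym2.eq_swap]
            · exact absurd (ha.trans hb.symm) hadj.ne
          rw [hf'] at h
          have hlen := hD.w_ge p'
          have hr := hD.r_pos
          have h5 := (hD.w_path p').length_eq_one_of_mem_edges h
          omega
    · rw [show {x | f ∈ ((t x).tri hD hX).es} = ∅ from ?_, Set.ncard_empty]
      · exact Nat.zero_le _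
      · rw [Set.eq_empty_iff_forall_notMem]
        intro x hx
        obtain ⟨k, h | h⟩ := ((t x).mem_es hD hX f).1 hx
        · exact hf (SimpleGraph.Walk.edges_subset_edgeSet _ h)
        · exact hq ⟨_, h⟩

open Classical in
/-- number of tripods of a family through a vertex -/
theorem vert_load (hD : D.Ok) (hX : D.Dr H e0 X) {ι : Type} [Fintype ι] (t : ι → Leg3 D e0) (a : ℕ)
    (hE : ∀ f, {x | ∃ k, f ∈ ((t x).W k).edges}.ncard ≤ a)
    (hPn : ∀ q, {x | ∃ k, (t x).p k = q}.ncard ≤ a) (v : V) :
    {x | v ∈ ((t x).tri hD hX).vs}.ncard ≤ a * max (D.dg v) 1 := by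
  have := Fintype.ofFinite V
  have := Fintype.ofFinite P
  by_cases hv : v ∈ D.VN
  · -- an edge of `N` at `v` or a pin at `v` is used
    have hsub : {x | v ∈ ((t x).tri hD hX).vs} ⊆
        (⋃ u ∈ (D.N.neighborSet v).toFinset, {x | ∃ k, s(v, u) ∈ ((t x).W k).edges}) ∪
        ⋃ q ∈ (Finset.univ.filter fun q => D.x q = v), {x | ∃ k, (t x).p k = q} := by
      intro x hx
      obtain ⟨hvU, k, h⟩ := ((t x).mem_vs hD hX v).1 hx
      have hcase : v = D.x ((t x).p k) ∨ v ∈ ((t x).W k).support := by
        rcases h with h | h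
        · exact Or.inr h
        · left
          by_contra hno
          exact hD.w_N _ v h hno hv
      by_cases hvx : v = D.x ((t x).p k)
      · right
        simp only [Set.mem_iUnion]
        exact ⟨(t x).p k, Finset.mem_filter.2 ⟨Finset.mem_univ _, hvx.symm⟩, k, rfl⟩
      · left
        have hvs : v ∈ ((t x).W k).support := hcase.resolve_left hvx
        obtain ⟨n, hn, hnl⟩ := SimpleGraph.Walk.mem_support_iff_exists_getVert.1 hvs
        have hlt : n < ((t x).W k).length := by
          rcases lt_or_eq_of_le hnl with h1 | h1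
          · exact h1
          · exfalso
            apply hvx
            rw [← hn, h1, SimpleGraph.Walk.getVert_length]
        have hadj := ((t x).W k).adj_getVert_succ hlt
        have hmem : s(((t x).W k).getVert n, ((t x).W k).getVert (n + 1)) ∈
            ((t x).W k).edges := getVert_edge _ hlt
        simp only [Set.mem_iUnion]
        rw [hn] at hadj hmem
        exact ⟨_, by simpa using hadj, k, hmem⟩
    have hpn : (Finset.univ.filter fun q => D.x q = v).card = D.pn v := by
      unfold HD.pn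
      rw [← Set.ncard_coe_finset]
      congr 1
      ext q
      simp
    have hdeg : (D.N.neighborSet v).toFinset.card = deg D.N v := by
      unfold deg
      rw [Set.ncard_eq_toFinset_card']
    refine (Set.ncard_le_ncard hsub (Set.toFinite _)).trans ((Set.ncard_union_le _ _).trans ?_)
    have h1 := (Finset.set_ncard_biUnion_le (D.N.neighborSet v).toFinset
      (fun u => {x | ∃ k, s(v, u) ∈ ((t x).W k).edges})).trans
      (Finset.sum_le_card_nsmul _ _ a (fun u _ => hE _))
    have h2 := (Finset.set_ncard_biUnion_le (Finset.univ.filter fun q => D.x q = v)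
      (fun q => {x | ∃ k, (t x).p k = q})).trans
      (Finset.sum_le_card_nsmul _ _ a (fun q _ => hPn _))
    rw [hdeg, smul_eq_mul] at h1
    rw [hpn, smul_eq_mul] at h2
    refine (Nat.add_le_add h1 h2).trans ?_
    rw [← add_mul, mul_comm]
    exact Nat.mul_le_mul_left _ (le_max_left _ _)
  · -- `v` is an inner vertex of a pin
    by_cases hq : ∃ q, v ∈ (D.w q).support ∧ v ≠ D.hub q
    · obtain ⟨q, hq, hqh⟩ := hq
      have h1 : {x | v ∈ ((t x).tri hD hX).vs} ⊆ {x | ∃ k, (t x).p k = q} := by
        intro x hx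
        obtain ⟨hvU, k, h⟩ := ((t x).mem_vs hD hX v).1 hx
        refine ⟨k, ?_⟩
        rcases h with h | h
        · exact absurd ((t x).supp_VN k h) hv
        · refine hD.w_disj _ q v h hq ?_ ?_
          · intro h'
            exact hv (h' ▸ HD.x_VN _)
          · intro h'
            exact hvU (h' ▸ hD.hub_U _)
      refine (Set.ncard_le_ncard h1 (Set.toFinite _)).trans ((hPn q).trans ?_)
      exact Nat.le_mul_of_pos_right _ (by omega)
    · rw [show {x | v ∈ ((t x).tri hD hX).vs} = ∅ from ?_, Set.ncard_empty]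
      · exact Nat.zero_le _
      · rw [Set.eq_empty_iff_forall_notMem]
        intro x hx
        obtain ⟨hvU, k, h⟩ := ((t x).mem_vs hD hX v).1 hx
        rcases h with h | h
        · exact hv ((t x).supp_VN k h)
        · exact hq ⟨_, h, fun h' => hvU (h' ▸ hD.hub_U _)⟩

open Classical in
/-- size of a tripod -/
theorem es_size (hD : D.Ok) (hX : D.Dr H e0 X) (T : Leg3 D e0) (l : ℕ)
    (hl : ∀ k, (T.W k).length ≤ l) : (T.tri hD hX).es.ncard ≤ 3 * (l + D.L) := by
  have hsub : (T.tri hD hX).es ⊆ ⋃ k ∈ (Finset.univ : Finset (Fin 3)),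
      (((T.W k).edges ++ (D.w (T.p k)).edges).toFinset : Set (Sym2 V)) := by
    intro f hf
    obtain ⟨k, h⟩ := (T.mem_es hD hX f).1 hf
    simp only [Set.mem_iUnion]
    refine ⟨k, Finset.mem_univ _, ?_⟩
    rw [Finset.mem_coe, List.mem_toFinset, List.mem_append]
    exact h
  refine (Set.ncard_le_ncard hsub (Set.toFinite _)).trans ?_
  refine (Finset.set_ncard_biUnion_le _ _).trans ?_
  refine (Finset.sum_le_card_nsmul _ _ (l + D.L) ?_).trans (by simp)
  intro k _
  rw [Set.ncard_coe_finset]
  refine (List.toFinset_card_le _).trans ?_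
  rw [List.length_append, SimpleGraph.Walk.length_edges, SimpleGraph.Walk.length_edges]
  exact Nat.add_le_add (hl k) (hD.w_le _)

open Classical in
/-- weight of the vertices of a tripod -/
theorem vs_size [Fintype V] (hD : D.Ok) (hX : D.Dr H e0 X) (T : Leg3 D e0) (l : ℕ)
    (hl : ∀ k, (T.W k).length ≤ l) :
    ∑ v ∈ (T.tri hD hX).vs.toFinset, max (D.dg v) 1 ≤
      3 * (2 * (l + 1) + D.Kh * (l + D.r) + (D.L + 1)) := by
  have hsub : (T.tri hD hX).vs.toFinset ⊆ Finset.univ.biUnion fun k : Fin 3 =>
      ((T.W k).support.toFinset ∪ ((D.w (T.p k)).support.toFinset.filter fun v => v ∉ D.VN)) := by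
    intro v hv
    obtain ⟨hvU, k, h⟩ := (T.mem_vs hD hX v).1 (Set.mem_toFinset.1 hv)
    rw [Finset.mem_biUnion]
    refine ⟨k, Finset.mem_univ _, ?_⟩
    rw [Finset.mem_union, List.mem_toFinset, Finset.mem_filter, List.mem_toFinset]
    rcases h with h | h
    · exact Or.inl h
    · by_cases hvx : v = D.x (T.p k)
      · left
        rw [hvx]
        exact SimpleGraph.Walk.end_mem_support _
      · exact Or.inr ⟨h, hD.w_N _ v h hvx⟩
  refine (Finset.sum_le_sum_of_subset hsub).trans ?_
  refine (sum_biU_le _ _ _).trans ?_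
  refine (Finset.sum_le_card_nsmul _ _ (2 * (l + 1) + D.Kh * (l + D.r) + (D.L + 1)) ?_).trans
    (by simp)
  intro k _
  refine (sum_U_le _ _ _).trans ?_
  refine Nat.add_le_add ?_ ?_
  · have h1 : ∀ v ∈ (T.W k).support.toFinset, max (D.dg v) 1 = D.dg v := by
      intro v hv
      have := hD.two v (T.supp_VN k (List.mem_toFinset.1 hv))
      omega
    rw [Finset.sum_congr rfl h1]
    refine (dg_sum hD (T.W k) (fun z hz => T.supp_VN k hz) _
      (fun z hz => List.mem_toFinset.1 hz)).trans ?_
    have := hl k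
    have h2 : D.Kh * ((T.W k).length + D.r) ≤ D.Kh * (l + D.r) := Nat.mul_le_mul_left _ (by omega)
    omega
  · have h1 : ∀ v ∈ (D.w (T.p k)).support.toFinset.filter (fun v => v ∉ D.VN),
        max (D.dg v) 1 = 1 := by
      intro v hv
      have hv' := (Finset.mem_filter.1 hv).2
      have h2 : D.dg v = 0 := by
        unfold HD.dg HD.pn
        have h3 : deg D.N v = 0 := by
          by_contra hne
          exact hv' (Or.inl hne)
        have h4 : {p | D.x p = v} = ∅ := by
          rw [Set.eq_empty_iff_forall_notMem]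
          intro p hp
          exact hv' (Or.inr ⟨p, hp⟩)
        rw [h3, h4, Set.ncard_empty]
      omega
    rw [Finset.sum_congr rfl h1, Finset.sum_const, smul_eq_mul, mul_one]
    refine (Finset.card_filter_le _ _).trans ((List.toFinset_card_le _).trans ?_)
    rw [SimpleGraph.Walk.length_support]
    have := hD.w_le (T.p k)
    omega

end

end Pool.Agent.Helper43.HH
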