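import Pool.Agent.Helper43.HH.Multi

/-!
# HH: the energy lemma for families of tripods of many scales, final form
-/

open Set
open Pool.Agent.Helper83.OP
open Pool.Agent.Helper93.HH

namespace Pool.Agent.Helper43.HH

open Classical in
/-- For every scale `i < M` a family of tripods whose walks have length at most `b 2^i L`, such that every edge of `N`
and every pin is used by at most `a` members of the family. -/
theorem multi {V P Q : Type} [Finite V] [Finite P] {D : HD V P Q} {e0 : Sym2 V}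
    {H : SimpleGraph V} {X : Sym2 V → Sym2 V → Prop} (hD : D.Ok) (hX : D.Dr H e0 X) (a b : ℕ)
    (M : ℕ) (ι : Fin M → Type) [∀ i, Fintype (ι i)] (t : ∀ i, ι i → Leg3 D e0)
    (hlen : ∀ i x k, ((t i x).W k).length ≤ b * 2 ^ (i : ℕ) * D.L)
    (hE : ∀ i f, {x | ∃ k, f ∈ ((t i x).W k).edges}.ncard ≤ a)
    (hPn : ∀ i q, {x | ∃ k, (t i x).p k = q}.ncard ≤ a) :
    ∑ i : Fin M, (Fintype.card (ι i) : ℝ) * (1 / 2) ^ (i : ℕ) ≤
      10000 * a * (b + 1) * (D.Kh + 1) * D.L * D.U.ncard := by
  have := Fintype.ofFinite V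
  have := Fintype.ofFinite P
  have hr := hD.r_pos
  have hrL := hD.r_le
  set T : (Σ i, ι i) → Tri H D.U := fun y => (t y.1 y.2).tri hD hX with hT
  set mu : (Σ i, ι i) → ℝ := fun y => (1 / 2) ^ (y.1 : ℕ) with hmu
  have hmu0 : ∀ y, 0 ≤ mu y := fun y => by positivity
  set B : ℝ := 30 * a * (b + 1) * (D.Kh + 1) * D.L with hB
  have hB0 : 0 ≤ B := by positivity
  have hsum : ∑ i : Fin M, (Fintype.card (ι i) : ℝ) * (1 / 2) ^ (i : ℕ) = ∑ y, mu y := by
    rw [Fintype.sum_sigma]
    refine Finset.sum_congr rfl fun i _ => ?_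
    show (Fintype.card (ι i) : ℝ) * (1 / 2) ^ (i : ℕ) = ∑ _y : ι i, ((1 : ℝ) / 2) ^ (i : ℕ)
    rw [Finset.sum_const, nsmul_eq_mul, Finset.card_univ]
  have hmain := el_scale (H := H) X hX.sym hX.pl Finset.univ T mu (fun y _ => hmu0 y)
    (fun y => (y.1 : ℕ)) B hB0 (by
      intro y _
      set j : ℕ := (y.1 : ℕ) with hj
      have h2j : (0 : ℝ) < 2 ^ j := by positivity
      set S : Finset (Σ i, ι i) := Finset.univ.filter fun z => j ≤ (z.1 : ℕ) with hS
      have h0 : ∑ z ∈ (Finset.univ : Finset (Σ i, ι i)) with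
          (Tri.Conf X (T y) (T z) ∧ j ≤ (z.1 : ℕ)), mu z =
          ∑ z ∈ S with Tri.Conf X (T y) (T z), mu z := by
        rw [hS, Finset.filter_filter]
        refine Finset.sum_congr ?_ fun _ _ => rfl
        ext z
        simp only [Finset.mem_filter, Finset.mem_univ, true_and, and_comm]
      have h1 := conf_le X S T mu (fun z _ => hmu0 z) (T y)
      -- the loads
      have hloadE : ∀ f, ∑ z ∈ S with f ∈ (T z).es, mu z ≤ 2 * a * (1 / 2) ^ j := by
        intro f
        have h2 := load (fun z => f ∈ (T z).es) a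
          (fun i => edge_load hD hX (t i) a (hE i) (hPn i) f) j
        refine le_trans (le_of_eq ?_) h2
        rw [hS, Finset.filter_filter, Finset.sum_filter]
        refine Finset.sum_congr rfl fun z _ => ?_
        simp only [and_comm]
        rfl
      have hloadV : ∀ v, ∑ z ∈ S with v ∈ (T z).vs, mu z ≤
          2 * (a * max (D.dg v) 1 : ℕ) * (1 / 2) ^ j := by
        intro v
        have h2 := load (fun z => v ∈ (T z).vs) (a * max (D.dg v) 1)
          (fun i => vert_load hD hX (t i) a (hE i) (hPn i) v) j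
        refine le_trans (le_of_eq ?_) h2
        rw [hS, Finset.filter_filter, Finset.sum_filter]
        refine Finset.sum_congr rfl fun z _ => ?_
        simp only [and_comm]
        rfl
      have hcard : ∀ f ∈ (T y).es.toFinset,
          ((H.edgeSet.toFinset.filter fun f' => X f f').card : ℝ) ≤ 1 := by
        intro f hf
        have h3 := hX.one f (es_sub _ (Set.mem_toFinset.1 hf))
        have h4 : {f' | f' ∈ H.edgeSet ∧ X f f'} =
            ((H.edgeSet.toFinset.filter fun f' => X f f' : Finset (Sym2 V)) : Set (Sym2 V)) := by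
          ext f'
          simp
        rw [h4, Set.ncard_coe_finset] at h3
        exact_mod_cast h3
      have hlen' := hlen y.1 y.2
      set l : ℕ := b * 2 ^ j * D.L with hl
      have hes := es_size hD hX (t y.1 y.2) l hlen'
      have hvs := vs_size hD hX (t y.1 y.2) l hlen'
      have hAE : ∑ f ∈ (T y).es.toFinset, ∑ f' ∈ H.edgeSet.toFinset with X f f',
          ∑ z ∈ S with f' ∈ (T z).es, mu z ≤ (3 * (l + D.L) : ℕ) * (2 * a * (1 / 2) ^ j) := by
        have h5 : ∀ f ∈ (T y).es.toFinset, ∑ f' ∈ H.edgeSet.toFinset with X f f',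
            ∑ z ∈ S with f' ∈ (T z).es, mu z ≤ 2 * a * (1 / 2) ^ j := by
          intro f hf
          refine (Finset.sum_le_card_nsmul _ _ _ (fun f' _ => hloadE f')).trans ?_
          rw [nsmul_eq_mul]
          have h6 := hcard f hf
          have h7 : (0 : ℝ) ≤ 2 * a * (1 / 2) ^ j := by positivity
          nlinarith
        refine (Finset.sum_le_card_nsmul _ _ _ h5).trans ?_
        rw [nsmul_eq_mul]
        refine mul_le_mul_of_nonneg_right ?_ (by positivity)
        rw [Set.ncard_eq_toFinset_card'] at hes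
        exact_mod_cast hes
      have hAV : ∑ v ∈ (T y).vs.toFinset, ∑ z ∈ S with v ∈ (T z).vs, mu z ≤
          (3 * (2 * (l + 1) + D.Kh * (l + D.r) + (D.L + 1)) : ℕ) * (2 * a * (1 / 2) ^ j) := by
        refine (Finset.sum_le_sum fun v _ => hloadV v).trans ?_
        have h6 : ∑ v ∈ (T y).vs.toFinset, 2 * ((a * max (D.dg v) 1 : ℕ) : ℝ) * (1 / 2) ^ j =
            ((∑ v ∈ (T y).vs.toFinset, max (D.dg v) 1 : ℕ) : ℝ) * (2 * a * (1 / 2) ^ j) := by
          rw [Nat.cast_sum, Finset.sum_mul]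
          refine Finset.sum_congr rfl fun v _ => ?_
          rw [Nat.cast_mul]
          ring
        rw [h6]
        refine mul_le_mul_of_nonneg_right ?_ (by positivity)
        exact_mod_cast hvs
      rw [h0]
      refine h1.trans ((add_le_add hAV hAE).trans ?_)
      -- numbers
      have hL1 : (1 : ℝ) ≤ D.L := by exact_mod_cast (by omega : 1 ≤ D.L)
      have hrL' : (D.r : ℝ) ≤ D.L := by exact_mod_cast hrL
      have hj1 : (1 : ℝ) ≤ 2 ^ j := one_le_pow₀ (by norm_num)
      have hlr : (l : ℝ) = b * 2 ^ j * D.L := by rw [hl]; push_cast; ring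
      have hb0 : (0 : ℝ) ≤ b := Nat.cast_nonneg _
      have hk0 : (0 : ℝ) ≤ D.Kh := Nat.cast_nonneg _
      have hb2 : (0 : ℝ) ≤ (b : ℝ) * 2 ^ j * D.L := by positivity
      have hLj : (D.L : ℝ) ≤ 2 ^ j * D.L := by nlinarith
      have e1 : ((3 * (2 * (l + 1) + D.Kh * (l + D.r) + (D.L + 1)) : ℕ) : ℝ) ≤
          12 * ((b + 1) * (D.Kh + 1)) * (2 ^ j * D.L) := by
        push_cast
        rw [hlr]
        have h9 : (D.Kh : ℝ) * (b * 2 ^ j * D.L + D.r) ≤
            D.Kh * (b * (2 ^ j * D.L) + 2 ^ j * D.L) := by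
          refine mul_le_mul_of_nonneg_left ?_ hk0
          nlinarith
        have h10 : (0 : ℝ) ≤ b * (2 ^ j * D.L) := by positivity
        have h11 : (0 : ℝ) ≤ D.Kh * (b * (2 ^ j * D.L)) := by positivity
        have h12 : (0 : ℝ) ≤ D.Kh * (2 ^ j * D.L) := by positivity
        nlinarith
      have e2 : ((3 * (l + D.L) : ℕ) : ℝ) ≤ 3 * ((b + 1) * (D.Kh + 1)) * (2 ^ j * D.L) := by
        push_cast
        rw [hlr]
        have h10 : (0 : ℝ) ≤ b * (2 ^ j * D.L) := by positivity
        have h11 : (0 : ℝ) ≤ D.Kh * (b * (2 ^ j * D.L)) := by positivity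
        have h12 : (0 : ℝ) ≤ D.Kh * (2 ^ j * D.L) := by positivity
        nlinarith
      have hfac : (0 : ℝ) ≤ 2 * a * (1 / 2) ^ j := by positivity
      have hhalf : (2 : ℝ) ^ j * (1 / 2) ^ j = 1 := by
        rw [← mul_pow]
        norm_num
      calc ((3 * (2 * (l + 1) + D.Kh * (l + D.r) + (D.L + 1)) : ℕ) : ℝ) * (2 * a * (1 / 2) ^ j) +
            ((3 * (l + D.L) : ℕ) : ℝ) * (2 * a * (1 / 2) ^ j)
          ≤ (12 * ((b + 1) * (D.Kh + 1)) * (2 ^ j * D.L)) * (2 * a * (1 / 2) ^ j) +
            (3 * ((b + 1) * (D.Kh + 1)) * (2 ^ j * D.L)) * (2 * a * (1 / 2) ^ j) :=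
            add_le_add (mul_le_mul_of_nonneg_right e1 hfac) (mul_le_mul_of_nonneg_right e2 hfac)
        _ = 30 * a * (b + 1) * (D.Kh + 1) * D.L * (2 ^ j * (1 / 2) ^ j) := by ring
        _ = B := by rw [hhalf, mul_one])
  rw [hsum]
  refine hmain.trans ?_
  rw [hB]
  have h0 : (0 : ℝ) ≤ a * (b + 1) * (D.Kh + 1) * D.L * D.U.ncard := by positivity
  nlinarith

end Pool.Agent.Helper43.HH
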