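import Pool.Agent.Helper95.HH.GOk
import Pool.Agent.Helper93.HH.Basic

/-!
# HH: cycles of the graph without the hubs, isolation, lower bound of `Rs`
-/

open Set
open Pool.Agent.Helper83.OP Pool.Agent.Helper93.HH Pool.Agent.Helper95.HH

namespace Pool.Agent.Helper43.HH

/-- an edge at position `n` of a walk -/
theorem gv_edge {V : Type} {G : SimpleGraph V} {u v : V} (p : G.Walk u v) {n : ℕ}
    (hn : n < p.length) : s(p.getVert n, p.getVert (n + 1)) ∈ p.edges := by
  induction p generalizing n with
  | nil => simp at hn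
  | @cons a b c h q ih =>
    rw [SimpleGraph.Walk.edges_cons, List.mem_cons]
    rcases n with _ | n
    · left
      rw [SimpleGraph.Walk.getVert_zero, SimpleGraph.Walk.getVert_cons_succ,
        SimpleGraph.Walk.getVert_zero]
    · right
      rw [SimpleGraph.Walk.getVert_cons_succ, SimpleGraph.Walk.getVert_cons_succ]
      rw [SimpleGraph.Walk.length_cons] at hn
      exact ih (by omega)

/-- the neighbours of an inner vertex of degree two of a path are on the path -/
theorem path_nbr {V : Type} [Finite V] {G : SimpleGraph V} {a b z z' : V} (p : G.Walk a b)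
    (hp : p.IsPath) (hz : z ∈ p.support) (ha : z ≠ a) (hb : z ≠ b) (hd : deg G z = 2)
    (h : G.Adj z z') : s(z, z') ∈ p.edges := by
  obtain ⟨n, hn, hnl⟩ := SimpleGraph.Walk.mem_support_iff_exists_getVert.1 hz
  have hn0 : n ≠ 0 := by
    rintro rfl
    apply ha
    rw [← hn, SimpleGraph.Walk.getVert_zero]
  have hnl' : n < p.length := by
    rcases lt_or_eq_of_le hnl with h1 | h1
    · exact h1
    · exfalso
      apply hb
      rw [← hn, h1, SimpleGraph.Walk.getVert_length]
  obtain ⟨m, rfl⟩ := Nat.exists_eq_succ_of_ne_zero hn0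
  have h1 : G.Adj (p.getVert m) (p.getVert (m + 1)) := p.adj_getVert_succ (by omega)
  have h2 : G.Adj (p.getVert (m + 1)) (p.getVert (m + 2)) := p.adj_getVert_succ hnl'
  have e1 := gv_edge p (n := m) (by omega)
  have e2 := gv_edge p (n := m + 1) hnl'
  rw [show p.getVert (m + 1) = z from hn] at h1 h2 e1 e2
  have hne : p.getVert m ≠ p.getVert (m + 2) := by
    intro h3
    have := hp.getVert_injOn (by simp; omega : m ∈ {i | i ≤ p.length})
      (by simp; omega : m + 2 ∈ {i | i ≤ p.length}) h3
    omega
  have hsub : ({p.getVert m, p.getVert (m + 2)} : Set V) ⊆ G.neighborSet z := by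
    rintro x (rfl | rfl)
    · exact h1.symm
    · exact h2
  have heq : ({p.getVert m, p.getVert (m + 2)} : Set V) = G.neighborSet z := by
    refine Set.eq_of_subset_of_ncard_le hsub ?_ (Set.toFinite _)
    rw [Set.ncard_pair hne]
    exact hd.le
  have h4 : z' ∈ ({p.getVert m, p.getVert (m + 2)} : Set V) := by
    rw [heq]
    exact h
  rcases h4 with rfl | rfl
  · rw [Sym2.eq_swap]
    exact e1
  · exact e2

/-- all edges at a vertex of degree two on a cycle belong to the cycle -/
theorem cycle_nbr {V : Type} [Finite V] {G G0 : SimpleGraph V} (hle : G0 ≤ G) {x z z' : V}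
    (Z : G0.Walk x x) (hZ : Z.IsCycle) (hz : z ∈ Z.support) (hd : deg G z = 2)
    (h : G.Adj z z') : s(z, z') ∈ Z.edges := by
  have h1 := hZ.ncard_neighborSet_toSubgraph_eq_two hz
  have hsub : Z.toSubgraph.neighborSet z ⊆ G.neighborSet z := by
    intro y hy
    exact hle (Z.toSubgraph.adj_sub hy)
  have heq : Z.toSubgraph.neighborSet z = G.neighborSet z := by
    refine Set.eq_of_subset_of_ncard_le hsub ?_ (Set.toFinite _)
    rw [h1]
    exact hd.le
  have h2 : z' ∈ Z.toSubgraph.neighborSet z := by
    rw [heq]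
    exact h
  have h3 : Z.toSubgraph.Adj z z' := h2
  rwa [← SimpleGraph.Subgraph.mem_edgeSet, SimpleGraph.Walk.mem_edges_toSubgraph] at h3

/-- a cycle which meets a path of vertices of degree two contains its end -/
theorem cycle_forward {V : Type} [Finite V] {G G0 : SimpleGraph V} (hle : G0 ≤ G) {x a b : V}
    (Z : G0.Walk x x) (hZ : Z.IsCycle) (p : G.Walk a b) (i : ℕ) (hi : p.getVert i ∈ Z.support)
    (hd : ∀ j, i ≤ j → j < p.length → deg G (p.getVert j) = 2) (hil : i ≤ p.length) :
    b ∈ Z.support := by
  have key : ∀ j, i ≤ j → j ≤ p.length → p.getVert j ∈ Z.support := by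
    intro j hj
    induction j, hj using Nat.le_induction with
    | base => intro _; exact hi
    | succ j hj ih =>
      intro hjl
      have h1 := cycle_nbr hle Z hZ (ih (by omega)) (hd j hj (by omega))
        (p.adj_getVert_succ (by omega))
      exact SimpleGraph.Walk.snd_mem_support_of_mem_edges _ h1
  have h2 := key p.length hil le_rfl
  rwa [SimpleGraph.Walk.getVert_length] at h2

section

variable {V P Q : Type} [Finite V] {D : HD V P Q}

theorem outG_le (e : Sym2 V) : outG D.G D.U e ≤ D.G := fun _ _ h => h.1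

theorem cycle_out {e : Sym2 V} {x y : V} (Z : (outG D.G D.U e).Walk x x) (hZ : Z.IsCycle)
    (hy : y ∈ Z.support) : y ∉ D.U := by
  have h1 := hZ.ncard_neighborSet_toSubgraph_eq_two hy
  have h2 : (Z.toSubgraph.neighborSet y).Nonempty := by
    rw [Set.nonempty_iff_ne_empty]
    intro h3
    rw [h3, Set.ncard_empty] at h1
    omega
  obtain ⟨w, hw⟩ := h2
  have h3 := Z.toSubgraph.adj_sub hw
  exact h3.2.2.1

/-- a cycle without hubs is a cycle of `N` -/
theorem out_cycle_edges (hD : D.Ok) (hG : GOk D) {e : Sym2 V} {x : V}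
    (Z : (outG D.G D.U e).Walk x x) (hZ : Z.IsCycle) : ∀ f ∈ Z.edges, f ∈ D.N.edgeSet := by
  intro f hf
  induction f using Sym2.ind with
  | _ y y' =>
    have hy := SimpleGraph.Walk.fst_mem_support_of_mem_edges _ hf
    have hy' := SimpleGraph.Walk.snd_mem_support_of_mem_edges _ hf
    have hadj : (outG D.G D.U e).Adj y y' := SimpleGraph.Walk.edges_subset_edgeSet _ hf
    -- an inner vertex of a pin or of a thread between hubs is not on `Z`
    have hpin : ∀ p z, z ∈ (D.w p).support → z ≠ D.x p → z ∉ D.U → z ∉ Z.support := by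
      intro p z hz hzx hzU hzZ
      obtain ⟨i, hi, hil⟩ := SimpleGraph.Walk.mem_support_iff_exists_getVert.1 hz
      have h1 := cycle_forward (outG_le _) Z hZ (D.w p) i (hi.symm ▸ hzZ) (by
        intro j hj hjl
        refine hG.w_deg p _ (SimpleGraph.Walk.getVert_mem_support _ _) ?_ ?_
        · intro h2
          have h3 := (hD.w_path p).getVert_injOn (by simp; omega : j ∈ {i | i ≤ (D.w p).length})
            (by simp : 0 ∈ {i | i ≤ (D.w p).length})
            (by rw [h2, SimpleGraph.Walk.getVert_zero])
          have h4 : i = 0 := by omega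
          apply hzx
          rw [← hi, h4, SimpleGraph.Walk.getVert_zero]
        · intro h2
          have h3 := (hD.w_path p).getVert_injOn (by simp; omega : j ∈ {i | i ≤ (D.w p).length})
            (by simp : (D.w p).length ∈ {i | i ≤ (D.w p).length})
            (by rw [h2, SimpleGraph.Walk.getVert_length])
          omega) hil
      exact cycle_out Z hZ h1 (hD.hub_U p)
    have hqq : ∀ q z, z ∈ (D.wq q).support → z ∉ D.U → z ∉ Z.support := by
      intro q z hz hzU hzZ
      obtain ⟨i, hi, hil⟩ := SimpleGraph.Walk.mem_support_iff_exists_getVert.1 hz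
      have h1 := cycle_forward (outG_le _) Z hZ (D.wq q) i (hi.symm ▸ hzZ) (by
        intro j hj hjl
        refine hG.wq_deg q _ (SimpleGraph.Walk.getVert_mem_support _ _) ?_ ?_
        · intro h2
          have h3 := (hD.wq_path q).getVert_injOn
            (by simp; omega : j ∈ {i | i ≤ (D.wq q).length})
            (by simp : 0 ∈ {i | i ≤ (D.wq q).length})
            (by rw [h2, SimpleGraph.Walk.getVert_zero])
          have h4 : i = 0 := by omega
          apply hzU
          rw [← hi, h4, SimpleGraph.Walk.getVert_zero]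
          exact hD.ha_U q
        · intro h2
          have h3 := (hD.wq_path q).getVert_injOn
            (by simp; omega : j ∈ {i | i ≤ (D.wq q).length})
            (by simp : (D.wq q).length ∈ {i | i ≤ (D.wq q).length})
            (by rw [h2, SimpleGraph.Walk.getVert_length])
          omega) hil
      exact cycle_out Z hZ h1 (hD.hb_U q)
    rcases hG.cover y y' hadj.1 with h | ⟨p, h⟩ | ⟨q, h⟩
    · exact h
    · exfalso
      have h1 := SimpleGraph.Walk.fst_mem_support_of_mem_edges _ h
      have h2 := SimpleGraph.Walk.snd_mem_support_of_mem_edges _ h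
      by_cases hyx : y = D.x p
      · exact hpin p y' h2 (fun h3 => hadj.ne (hyx.trans h3.symm)) hadj.2.2.2 hy'
      · exact hpin p y h1 hyx hadj.2.2.1 hy
    · exfalso
      have h1 := SimpleGraph.Walk.fst_mem_support_of_mem_edges _ h
      exact hqq q y h1 hadj.2.2.1 hy

theorem out_cycle (hD : D.Ok) (hG : GOk D) {e : Sym2 V} {x : V}
    (Z : (outG D.G D.U e).Walk x x) (hZ : Z.IsCycle) :
    ∃ Z' : D.N.Walk x x, Z'.IsCycle ∧ Z'.length = Z.length ∧ Z'.support = Z.support :=
  ⟨Z.transfer D.N (out_cycle_edges hD hG Z hZ), hZ.transfer _, Z.length_transfer _,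
    Z.support_transfer _⟩

/-- neighbours of an inner vertex of a pin -/
theorem pin_nbr (hD : D.Ok) (hG : GOk D) {p : P} {z z' : V} (hz : z ∈ (D.w p).support)
    (hx : z ≠ D.x p) (hh : z ≠ D.hub p) (h : D.G.Adj z z') : s(z, z') ∈ (D.w p).edges :=
  path_nbr (D.w p) (hD.w_path p) hz hx hh (hG.w_deg p z hz hx hh) h

theorem pin_iso (hD : D.Ok) (hG : GOk D) {p : P} {z a : V} (hz : z ∈ (D.w p).support)
    (hx : z ≠ D.x p) (hh : z ≠ D.hub p) (h : D.G.Adj z a) (ha : a ∈ D.U) :
    a = D.hub p ∧ z = (D.w p).penultimate := by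
  have h1 := pin_nbr hD hG hz hx hh h
  have h2 := SimpleGraph.Walk.snd_mem_support_of_mem_edges _ h1
  have h3 : a = D.hub p := by
    by_contra hne
    exact hD.w_U p a h2 hne ha
  refine ⟨h3, ?_⟩
  rw [h3, Sym2.eq_swap] at h1
  exact (hD.w_path p).eq_penultimate_of_mem_edges h1

/-- a vertex of `N` is not joined to a hub -/
theorem VN_nadj (hD : D.Ok) (hG : GOk D) {z a : V} (hz : z ∈ D.VN) (ha : a ∈ D.U) :
    ¬ D.G.Adj z a := by
  intro h
  rcases hG.cover z a h with h1 | ⟨p, h1⟩ | ⟨q, h1⟩
  · exact hD.N_U a z h1.symm ha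
  · have h2 := SimpleGraph.Walk.fst_mem_support_of_mem_edges _ h1
    have h3 := SimpleGraph.Walk.snd_mem_support_of_mem_edges _ h1
    have h4 : z = D.x p := by
      by_contra hne
      exact hD.w_N p z h2 hne hz
    have h5 : a = D.hub p := by
      by_contra hne
      exact hD.w_U p a h3 hne ha
    rw [h4, h5] at h1
    have h6 := (hD.w_path p).length_eq_one_of_mem_edges h1
    have h7 := hD.w_ge p
    have h8 := hD.r_pos
    omega
  · exact hD.wq_N q z (SimpleGraph.Walk.fst_mem_support_of_mem_edges _ h1) hz

/-- the length of a cycle is at most the number of vertices -/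
theorem cycle_le {G : SimpleGraph V} {x : V} (Z : G.Walk x x) (hZ : Z.IsCycle) :
    Z.length ≤ Nat.card V := by
  classical
  have := Fintype.ofFinite V
  have h1 := hZ.support_nodup
  have h2 := h1.length_le_card
  rw [List.length_tail, SimpleGraph.Walk.length_support] at h2
  rw [Nat.card_eq_fintype_card]
  omega

theorem Rs_ge [Finite P] {y z : V} {ρ s : ℕ} (F : Set P) (hF : F.ncard ≤ 2)
    (hfree : ∀ p, Nr D.N ρ y (D.x p) → p ∈ F) (hv : D.vol (D.ball ρ y) ≤ D.n0)
    (hyz : Nr D.N s y z) : min (ρ + 1 - s) (Nat.card V) ≤ D.Rs z := by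
  refine le_min ?_ ?_
  · rcases (D.sg_le_card z).lt_or_eq with h | h
    · have h1 := D.sg_spec h
      by_contra hno
      push Not at hno
      have h2 : s + D.sg z ≤ ρ := by omega
      have h3 : {p | Nr D.N (D.sg z) z (D.x p)} ⊆ F := by
        intro p hp
        exact hfree p ((hyz.trans hp).mono h2)
      have h4 := (Set.ncard_le_ncard h3 (Set.toFinite _)).trans hF
      omega
    · rw [h]
      exact min_le_right _ _
  · rcases (D.Rv_le_card z).lt_or_eq with h | h
    · have h1 := D.Rv_spec h
      by_contra hno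
      push Not at hno
      have h2 : s + D.Rv z ≤ ρ := by omega
      have h3 : D.ball (D.Rv z) z ⊆ D.ball ρ y := by
        intro v hv
        exact (hyz.trans hv).mono h2
      have h4 := (D.vol_mono h3).trans hv
      omega
    · rw [h]
      exact min_le_right _ _

end

end Pool.Agent.Helper43.HH
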