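import Pool.Agent.Helper43.HH.OutG

/-!
# HH/P3: the core path through two pins
-/

open Set
open Pool.Agent.Helper83.OP Pool.Agent.Helper93.HH Pool.Agent.Helper95.HH

namespace Pool.Agent.Helper43.HH

/-- a walk along a sequence of vertices -/
theorem walk_fun {V : Type} {G : SimpleGraph V} (γ : ℕ → V) : ∀ n : ℕ,
    (∀ i < n, G.Adj (γ i) (γ (i + 1))) → ∃ p : G.Walk (γ 0) (γ n), p.length = n ∧
      (∀ i ≤ n, p.getVert i = γ i) ∧ (∀ z ∈ p.support, ∃ i ≤ n, γ i = z) ∧
      ((∀ i j, i < j → j ≤ n → γ i ≠ γ j) → p.IsPath) := by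
  intro n
  induction n with
  | zero =>
    intro _
    refine ⟨SimpleGraph.Walk.nil, rfl, ?_, ?_, fun _ => SimpleGraph.Walk.IsPath.nil⟩
    · intro i hi
      have : i = 0 := by omega
      subst this
      rfl
    · intro z hz
      rw [SimpleGraph.Walk.support_nil, List.mem_singleton] at hz
      exact ⟨0, le_rfl, hz.symm⟩
  | succ n ih =>
    intro h
    obtain ⟨p, h1, h2, h3, h4⟩ := ih fun i hi => h i (by omega)
    refine ⟨p.concat (h n (by omega)), ?_, ?_, ?_, ?_⟩
    · rw [SimpleGraph.Walk.length_concat, h1]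
    · intro i hi
      rw [SimpleGraph.Walk.concat_eq_append, SimpleGraph.Walk.getVert_append, h1]
      by_cases hin : i < n
      · rw [if_pos hin]
        exact h2 i (by omega)
      · rw [if_neg hin]
        by_cases hin2 : i = n
        · subst hin2
          rw [Nat.sub_self, SimpleGraph.Walk.getVert_zero]
        · have : i = n + 1 := by omega
          subst this
          rw [show n + 1 - n = 1 by omega]
          rfl
    · intro z hz
      rw [SimpleGraph.Walk.support_concat, List.mem_append, List.mem_singleton] at hz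
      rcases hz with hz | rfl
      · obtain ⟨i, hi, h5⟩ := h3 z hz
        exact ⟨i, by omega, h5⟩
      · exact ⟨n + 1, le_rfl, rfl⟩
    · intro hinj
      refine (h4 fun i j hij hj => hinj i j hij (by omega)).concat ?_ _
      intro hz
      obtain ⟨i, hi, h5⟩ := h3 _ hz
      exact hinj i (n + 1) (by omega) le_rfl h5

section

variable {V P Q : Type} [Finite V] {D : HD V P Q}

/-- the vertices of the pin `p` backwards from the last vertex before the hub, of a walk from `x p` to `x q`, and of
the pin `q` -/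
noncomputable def pg (D : HD V P Q) (p q : P) (π : D.N.Walk (D.x p) (D.x q)) (i : ℕ) : V :=
  if i ≤ (D.w p).length - 1 then (D.w p).getVert ((D.w p).length - 1 - i)
  else if i ≤ (D.w p).length - 1 + π.length then π.getVert (i - ((D.w p).length - 1))
  else (D.w q).getVert (i - ((D.w p).length - 1 + π.length))

/-- its length -/
noncomputable def pl3 (D : HD V P Q) (p q : P) (π : D.N.Walk (D.x p) (D.x q)) : ℕ :=
  (D.w p).length - 1 + π.length + ((D.w q).length - 1)

theorem w_getVert_ne_hub (hD : D.Ok) (p : P) {i : ℕ} (hi : i < (D.w p).length) :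
    (D.w p).getVert i ≠ D.hub p := by
  intro h2
  have h3 := (hD.w_path p).getVert_injOn (by simp; omega : i ∈ {i | i ≤ (D.w p).length})
    (by simp : (D.w p).length ∈ {i | i ≤ (D.w p).length})
    (by rw [h2, SimpleGraph.Walk.getVert_length])
  omega

theorem w_getVert_notU (hD : D.Ok) (p : P) {i : ℕ} (hi : i < (D.w p).length) :
    (D.w p).getVert i ∉ D.U :=
  hD.w_U p _ (SimpleGraph.Walk.getVert_mem_support _ _) (w_getVert_ne_hub hD p hi)

theorem w_getVert_VN (hD : D.Ok) (p : P) {i : ℕ} (hi : i ≤ (D.w p).length)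
    (h : (D.w p).getVert i ∈ D.VN) : i = 0 := by
  by_contra hne
  refine hD.w_N p _ (SimpleGraph.Walk.getVert_mem_support _ _) ?_ h
  intro h2
  have h3 := (hD.w_path p).getVert_injOn (by simp; omega : i ∈ {i | i ≤ (D.w p).length})
    (by simp : 0 ∈ {i | i ≤ (D.w p).length})
    (by rw [h2, SimpleGraph.Walk.getVert_zero])
  omega

variable {p q : P} {π : D.N.Walk (D.x p) (D.x q)}

theorem pg_left {i : ℕ} (hi : i ≤ (D.w p).length - 1) :
    pg D p q π i = (D.w p).getVert ((D.w p).length - 1 - i) := by
  unfold pg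
  rw [if_pos hi]

theorem pg_mid {i : ℕ} (hi : (D.w p).length - 1 ≤ i) (hi2 : i ≤ (D.w p).length - 1 + π.length) :
    pg D p q π i = π.getVert (i - ((D.w p).length - 1)) := by
  unfold pg
  split_ifs with h
  · have : i = (D.w p).length - 1 := by omega
    subst this
    rw [Nat.sub_self, SimpleGraph.Walk.getVert_zero, SimpleGraph.Walk.getVert_zero]
  · rfl

theorem pg_right {i : ℕ} (hi : (D.w p).length - 1 + π.length ≤ i) :
    pg D p q π i = (D.w q).getVert (i - ((D.w p).length - 1 + π.length)) := by
  by_cases h : i = (D.w p).length - 1 + π.length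
  · rw [pg_mid (by omega) (by omega), h]
    rw [show (D.w p).length - 1 + π.length - ((D.w p).length - 1) = π.length by omega,
      Nat.sub_self, SimpleGraph.Walk.getVert_zero, SimpleGraph.Walk.getVert_length]
  · unfold pg
    rw [if_neg (by omega), if_neg (by omega)]

theorem pg_zero : pg D p q π 0 = (D.w p).penultimate := by
  rw [pg_left (Nat.zero_le _), Nat.sub_zero]

theorem pg_end (hD : D.Ok) : pg D p q π (pl3 D p q π) = (D.w q).penultimate := by
  unfold pl3
  rw [pg_right (by omega)]
  congr 1
  omega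

theorem pg_foot : pg D p q π ((D.w p).length - 1) = D.x p := by
  rw [pg_left le_rfl, Nat.sub_self, SimpleGraph.Walk.getVert_zero]

theorem pg_VN {i : ℕ} (hi : (D.w p).length - 1 ≤ i) (hi2 : i ≤ (D.w p).length - 1 + π.length) :
    pg D p q π i ∈ D.VN := by
  rw [pg_mid hi hi2]
  exact HD.VN_of_walk π (HD.x_VN _) (SimpleGraph.Walk.getVert_mem_support _ _)

theorem pg_notU (hD : D.Ok) {i : ℕ} (hi : i ≤ pl3 D p q π) : pg D p q π i ∉ D.U := by
  have h1 := hD.w_ge p
  have h2 := hD.w_ge q
  have h3 := hD.r_pos
  unfold pl3 at hi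
  by_cases h4 : i ≤ (D.w p).length - 1
  · rw [pg_left h4]
    exact w_getVert_notU hD p (by omega)
  by_cases h5 : i ≤ (D.w p).length - 1 + π.length
  · exact HD.VN_U hD (pg_VN (by omega) h5)
  · rw [pg_right (by omega)]
    exact w_getVert_notU hD q (by omega)

theorem pg_adjG (hD : D.Ok) {i : ℕ} (hi : i < pl3 D p q π) :
    D.G.Adj (pg D p q π i) (pg D p q π (i + 1)) := by
  have h1 := hD.w_ge p
  have h2 := hD.w_ge q
  have h3 := hD.r_pos
  unfold pl3 at hi
  by_cases h4 : i + 1 ≤ (D.w p).length - 1
  · rw [pg_left h4, pg_left (by omega)]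
    have h5 := (D.w p).adj_getVert_succ (i := (D.w p).length - 1 - (i + 1)) (by omega)
    rw [show (D.w p).length - 1 - (i + 1) + 1 = (D.w p).length - 1 - i by omega] at h5
    exact h5.symm
  by_cases h5 : i + 1 ≤ (D.w p).length - 1 + π.length
  · rw [pg_mid (by omega) h5, pg_mid (by omega) (by omega)]
    have h6 := π.adj_getVert_succ (i := i - ((D.w p).length - 1)) (by omega)
    rw [show i - ((D.w p).length - 1) + 1 = i + 1 - ((D.w p).length - 1) by omega] at h6
    exact hD.N_le h6
  · rw [pg_right (by omega), pg_right (by omega)]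
    have h6 := (D.w q).adj_getVert_succ (i := i - ((D.w p).length - 1 + π.length)) (by omega)
    rw [show i - ((D.w p).length - 1 + π.length) + 1 =
      i + 1 - ((D.w p).length - 1 + π.length) by omega] at h6
    exact h6

theorem pg_adj (hD : D.Ok) {u a : V} (ha : a ∈ D.U) {i : ℕ} (hi : i < pl3 D p q π) :
    (outG D.G D.U s(u, a)).Adj (pg D p q π i) (pg D p q π (i + 1)) := by
  have h1 := pg_notU hD (p := p) (q := q) (π := π) (i := i) (by omega)
  have h2 := pg_notU hD (p := p) (q := q) (π := π) (i := i + 1) (by omega)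
  refine ⟨pg_adjG hD hi, ?_, h1, h2⟩
  intro h3
  rw [Sym2.eq_iff] at h3
  rcases h3 with ⟨-, h3⟩ | ⟨h3, -⟩
  · exact h2 (h3 ▸ ha)
  · exact h1 (h3 ▸ ha)

theorem pg_inj (hD : D.Ok) (hpq : p ≠ q) (hπ : π.IsPath) {i j : ℕ} (hij : i < j)
    (hj : j ≤ pl3 D p q π) : pg D p q π i ≠ pg D p q π j := by
  have h1 := hD.w_ge p
  have h2 := hD.w_ge q
  have h3 := hD.r_pos
  unfold pl3 at hj
  intro h
  by_cases hi1 : i < (D.w p).length - 1
  · -- `i` is on the pin `p`
    by_cases hj1 : j ≤ (D.w p).length - 1
    · rw [pg_left (by omega), pg_left hj1] at h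
      have := (hD.w_path p).getVert_injOn
        (by simp; omega : (D.w p).length - 1 - i ∈ {i | i ≤ (D.w p).length})
        (by simp; omega : (D.w p).length - 1 - j ∈ {i | i ≤ (D.w p).length}) h
      omega
    by_cases hj2 : j ≤ (D.w p).length - 1 + π.length
    · have h4 := pg_VN (π := π) (by omega) hj2
      rw [← h, pg_left (by omega)] at h4
      have := w_getVert_VN hD p (by omega) h4
      omega
    · rw [pg_left (by omega), pg_right (by omega)] at h
      have h4 := (D.w p).getVert_mem_support ((D.w p).length - 1 - i)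
      have h5 := (D.w q).getVert_mem_support (j - ((D.w p).length - 1 + π.length))
      rw [← h] at h5
      refine hpq (hD.w_disj p q _ h4 h5 ?_ ?_)
      · intro h6
        have := w_getVert_VN hD p (i := (D.w p).length - 1 - i) (by omega)
          (by rw [h6]; exact HD.x_VN _)
        omega
      · exact w_getVert_ne_hub hD p (by omega)
  by_cases hi2 : i ≤ (D.w p).length - 1 + π.length
  · by_cases hj2 : j ≤ (D.w p).length - 1 + π.length
    · rw [pg_mid (by omega) hi2, pg_mid (by omega) hj2] at h
      have := hπ.getVert_injOn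
        (by simp; omega : i - ((D.w p).length - 1) ∈ {i | i ≤ π.length})
        (by simp; omega : j - ((D.w p).length - 1) ∈ {i | i ≤ π.length}) h
      omega
    · have h4 := pg_VN (π := π) (by omega) hi2
      rw [h, pg_right (by omega)] at h4
      have := w_getVert_VN hD q (by omega) h4
      omega
  · rw [pg_right (by omega), pg_right (by omega)] at h
    have := (hD.w_path q).getVert_injOn
      (by simp; omega : i - ((D.w p).length - 1 + π.length) ∈ {i | i ≤ (D.w q).length})
      (by simp; omega : j - ((D.w p).length - 1 + π.length) ∈ {i | i ≤ (D.w q).length}) h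
    omega

/-- a vertex of the core is on a pin or near `x p` in `N` -/
theorem pg_cases (hD : D.Ok) {i : ℕ} (hi : i ≤ pl3 D p q π) :
    (pg D p q π i ∈ (D.w p).support) ∨ (pg D p q π i ∈ (D.w q).support) ∨
    (pg D p q π i ∈ D.VN ∧ Nr D.N π.length (D.x p) (pg D p q π i)) := by
  by_cases h4 : i ≤ (D.w p).length - 1
  · rw [pg_left h4]
    exact Or.inl (SimpleGraph.Walk.getVert_mem_support _ _)
  by_cases h5 : i ≤ (D.w p).length - 1 + π.length
  · right; right
    refine ⟨pg_VN (by omega) h5, ?_⟩
    rw [pg_mid (by omega) h5]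
    exact Nr.of_mem (SimpleGraph.Walk.getVert_mem_support _ _)
  · rw [pg_right (by omega)]
    exact Or.inr (Or.inl (SimpleGraph.Walk.getVert_mem_support _ _))

/-- the description of the neighbourhood of the core -/
theorem near_core (hD : D.Ok) (hG : GOk D) {e : Sym2 V} {ρ : ℕ}
    (hfree : ∀ s, s ≠ p → s ≠ q → ¬ Nr D.N ρ (D.x p) (D.x s)) {i : ℕ} (hi : i ≤ pl3 D p q π)
    {n : ℕ} (hn : π.length + n ≤ ρ) {z : V} (h : Nr (outG D.G D.U e) n (pg D p q π i) z) :
    z ∉ D.U ∧ ((z ∈ (D.w p).support) ∨ (z ∈ (D.w q).support) ∨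
      (z ∈ D.VN ∧ Nr D.N (π.length + n) (D.x p) z)) := by
  obtain ⟨W, hW⟩ := h
  -- induction over the walk
  have key : ∀ k, k ≤ W.length → W.getVert k ∉ D.U ∧ ((W.getVert k ∈ (D.w p).support) ∨
      (W.getVert k ∈ (D.w q).support) ∨
      (W.getVert k ∈ D.VN ∧ Nr D.N (π.length + k) (D.x p) (W.getVert k))) := by
    intro k
    induction k with
    | zero =>
      intro _
      rw [SimpleGraph.Walk.getVert_zero]
      exact ⟨pg_notU hD hi, pg_cases hD hi⟩
    | succ k ih =>
      intro hk
      obtain ⟨hU, hc⟩ := ih (by omega)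
      have hadj : (outG D.G D.U e).Adj (W.getVert k) (W.getVert (k + 1)) :=
        W.adj_getVert_succ (by omega)
      have hU' : W.getVert (k + 1) ∉ D.U := hadj.2.2.2
      refine ⟨hU', ?_⟩
      -- a vertex of `N`
      have hVN : W.getVert k ∈ D.VN → Nr D.N (π.length + k) (D.x p) (W.getVert k) →
          (W.getVert (k + 1) ∈ (D.w p).support) ∨ (W.getVert (k + 1) ∈ (D.w q).support) ∨
          (W.getVert (k + 1) ∈ D.VN ∧
            Nr D.N (π.length + (k + 1)) (D.x p) (W.getVert (k + 1))) := by
        intro h1 h2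
        rcases hG.cover _ _ hadj.1 with h3 | ⟨s, h3⟩ | ⟨s, h3⟩
        · right; right
          exact ⟨HD.VN_of_adj' h3, (h2.trans (Nr.of_adj h3)).mono (by omega)⟩
        · have h4 := SimpleGraph.Walk.fst_mem_support_of_mem_edges _ h3
          have h5 := SimpleGraph.Walk.snd_mem_support_of_mem_edges _ h3
          have h6 : W.getVert k = D.x s := by
            by_contra hne
            exact hD.w_N s _ h4 hne h1
          rw [h6] at h2
          by_cases hsp : s = p
          · subst hsp
            exact Or.inl h5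
          by_cases hsq : s = q
          · subst hsq
            exact Or.inr (Or.inl h5)
          exact absurd (h2.mono (by omega)) (hfree s hsp hsq)
        · exact absurd h1 (hD.wq_N s _ (SimpleGraph.Walk.fst_mem_support_of_mem_edges _ h3))
      rcases hc with h1 | h1 | ⟨h1, h2⟩
      · by_cases hx : W.getVert k = D.x p
        · refine hVN ?_ ?_
          · rw [hx]
            exact HD.x_VN _
          · rw [hx]
            exact Nr.refl _ _ _
        · left
          have h3 := pin_nbr hD hG h1 hx (fun h => hU (h ▸ hD.hub_U _)) hadj.1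
          exact SimpleGraph.Walk.snd_mem_support_of_mem_edges _ h3
      · by_cases hx : W.getVert k = D.x q
        · refine hVN ?_ ?_
          · rw [hx]
            exact HD.x_VN _
          · rw [hx]
            exact (Nr.of_walk π).mono (by omega)
        · right; left
          have h3 := pin_nbr hD hG h1 hx (fun h => hU (h ▸ hD.hub_U _)) hadj.1
          exact SimpleGraph.Walk.snd_mem_support_of_mem_edges _ h3
      · exact hVN h1 h2
  obtain ⟨h1, h2⟩ := key W.length le_rfl
  rw [SimpleGraph.Walk.getVert_length] at h1 h2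
  refine ⟨h1, ?_⟩
  rcases h2 with h2 | h2 | ⟨h2, h3⟩
  · exact Or.inl h2
  · exact Or.inr (Or.inl h2)
  · exact Or.inr (Or.inr ⟨h2, h3.mono (by omega)⟩)

end

end Pool.Agent.Helper43.HH
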