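import Mathlib

/-!
# HH/P3: the piecewise affine map between two paths
-/

namespace Pool.Agent.Helper43.HH

theorem div_step (a b c : ℕ) (hc : 1 ≤ c) : (a + b) / c ≤ a / c + (b / c + 1) := by
  have h1 : a < (a / c + 1) * c := by
    have := Nat.lt_div_mul_add (a := a) (b := c) (by omega)
    rw [add_mul, one_mul]
    exact this
  have h2 : b < (b / c + 1) * c := by
    have := Nat.lt_div_mul_add (a := b) (b := c) (by omega)
    rw [add_mul, one_mul]
    exact this
  have h3 : (a + b) / c < a / c + b / c + 2 := by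
    rw [Nat.div_lt_iff_lt_mul (by omega)]
    calc a + b < (a / c + 1) * c + (b / c + 1) * c := by omega
      _ = (a / c + b / c + 2) * c := by ring
  omega

theorem aff_exists (C r L A B A2 B2 g0 g1 : ℕ) (hr : 2 ≤ r) (hL : L ≤ C * r)
    (hA : r ≤ A + 1) (hB : B + 1 ≤ L) (hA2 : r ≤ A2 + 1) (hB2 : B2 + 1 ≤ L) (hg : g1 ≤ g0) :
    ∃ f : ℕ → ℕ, f 0 = 0 ∧ f A = B ∧ f (A + g0 + A2) = B + g1 + B2 ∧
      (∀ i ≤ A + g0 + A2, f i ≤ B + g1 + B2) ∧ (∀ i ≤ A, f i ≤ B) ∧
      (∀ i, A ≤ i → i ≤ A + g0 + A2 → B ≤ f i) ∧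
      ∀ i < A + g0 + A2, f (i + 1) ≤ f i + (2 * C + 1) ∧ f i ≤ f (i + 1) + (2 * C + 1) := by
  have hA1 : 1 ≤ A := by omega
  have hA21 : 1 ≤ A2 := by omega
  have hCr : C * r ≤ 2 * C * (r - 1) := by
    calc C * r ≤ C * (2 * (r - 1)) := Nat.mul_le_mul_left _ (by omega)
      _ = 2 * C * (r - 1) := by ring
  have hq : ∀ A B : ℕ, r ≤ A + 1 → B + 1 ≤ L → B / A ≤ 2 * C := by
    intro A B h1 h2
    refine Nat.div_le_of_le_mul ?_
    calc B ≤ 2 * C * (r - 1) := by omega
      _ ≤ 2 * C * A := Nat.mul_le_mul_left _ (by omega)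
      _ = A * (2 * C) := by ring
  have hdm : ∀ A B d : ℕ, d ≤ A → d * B / A ≤ B := by
    intro A B d h
    exact Nat.div_le_of_le_mul (Nat.mul_le_mul_right _ h)
  have hst : ∀ A B d : ℕ, 1 ≤ A → r ≤ A + 1 → B + 1 ≤ L →
      (d + 1) * B / A ≤ d * B / A + (2 * C + 1) := by
    intro A B d h1 h2 h3
    have h4 := div_step (d * B) B A h1
    have h5 := hq A B h2 h3
    rw [show (d + 1) * B = d * B + B by ring]
    omega
  have hmo : ∀ A B d : ℕ, d * B / A ≤ (d + 1) * B / A := by
    intro A B d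
    exact Nat.div_le_div_right (Nat.mul_le_mul_right _ (by omega))
  set f : ℕ → ℕ := fun i => if i ≤ A then B - (A - i) * B / A
    else if i ≤ A + g0 then B + min (i - A) g1 else B + g1 + (i - A - g0) * B2 / A2 with hf
  have f1 : ∀ i, i ≤ A → f i = B - (A - i) * B / A := by
    intro i h
    simp only [hf]
    rw [if_pos h]
  have f2 : ∀ i, A ≤ i → i ≤ A + g0 → f i = B + min (i - A) g1 := by
    intro i h h'
    simp only [hf]
    split_ifs with h1
    · have : i = A := by omega
      subst this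
      simp
    · rfl
  have f3 : ∀ i, A + g0 ≤ i → f i = B + g1 + (i - A - g0) * B2 / A2 := by
    intro i h
    by_cases h1 : i = A + g0
    · rw [f2 i (by omega) (by omega), h1]
      rw [show A + g0 - A = g0 by omega, show g0 - g0 = 0 by omega]
      simp [hg]
    · simp only [hf]
      rw [if_neg (by omega), if_neg (by omega)]
  refine ⟨f, ?_, ?_, ?_, ?_, ?_, ?_, ?_⟩
  · rw [f1 0 (by omega), Nat.sub_zero, Nat.mul_div_cancel_left _ (by omega), Nat.sub_self]
  · rw [f1 A le_rfl]
    simp
  · rw [f3 _ (by omega)]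
    rw [show A + g0 + A2 - A - g0 = A2 by omega, Nat.mul_div_cancel_left _ (by omega)]
  · intro i hi
    by_cases h1 : i ≤ A
    · rw [f1 i h1]
      exact (Nat.sub_le _ _).trans (by omega)
    by_cases h2 : i ≤ A + g0
    · rw [f2 i (by omega) h2]
      have := min_le_right (i - A) g1
      omega
    · rw [f3 i (by omega)]
      have := hdm A2 B2 (i - A - g0) (by omega)
      generalize (i - A - g0) * B2 / A2 = x at *
      omega
  · intro i hi
    rw [f1 i hi]
    exact Nat.sub_le _ _
  · intro i h1 hi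
    by_cases h2 : i ≤ A + g0
    · rw [f2 i (by omega) h2]
      omega
    · rw [f3 i (by omega)]
      generalize (i - A - g0) * B2 / A2 = x
      omega
  · intro i hi
    by_cases h1 : i + 1 ≤ A
    · rw [f1 i (by omega), f1 (i + 1) h1]
      have h3 := hst A B (A - (i + 1)) hA1 hA hB
      have h4 := hmo A B (A - (i + 1))
      rw [show A - (i + 1) + 1 = A - i by omega] at h3 h4
      have h5 := hdm A B (A - i) (by omega)
      generalize (A - i) * B / A = x at *
      generalize (A - (i + 1)) * B / A = y at *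
      omega
    by_cases h2 : i + 1 ≤ A + g0
    · rw [f2 i (by omega) (by omega), f2 (i + 1) (by omega) h2]
      omega
    · rw [f3 i (by omega), f3 (i + 1) (by omega)]
      have h3 := hst A2 B2 (i - A - g0) hA21 hA2 hB2
      have h4 := hmo A2 B2 (i - A - g0)
      rw [show i - A - g0 + 1 = i + 1 - A - g0 by omega] at h3 h4
      generalize (i - A - g0) * B2 / A2 = x at *
      generalize (i + 1 - A - g0) * B2 / A2 = y at *
      omega

end Pool.Agent.Helper43.HH
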