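import Pool.Agent.Helper95.HH.VolCmp
import Pool.Agent.Helper95.HH.PSlide
import Pool.Agent.Helper95.HH.CoreF
import Pool.Agent.Helper95.HH.Tracks
import Pool.Agent.Helper43.HH.P3a
import Pool.Agent.Helper43.HH.P3b

/-!
# HH/P3: the place E3
-/

open Set
open Pool.Agent.Helper83.OP Pool.Agent.Helper83.HR Pool.Agent.Helper93.HH Pool.Agent.Helper95.HH

namespace Pool.Agent.Helper43.HH

section

variable {V P Q : Type} [Finite V] {D : HD V P Q}

theorem pin_fin (hD : D.Ok) : Finite P := by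
  have hne : ∀ p, 1 ≤ (D.w p).length - 1 := by
    intro p
    have := hD.w_ge p
    have := hD.r_pos
    omega
  refine Finite.of_injective (fun p => (D.w p).getVert 1) ?_
  intro p p' h
  have h' : (D.w p).getVert 1 = (D.w p').getVert 1 := h
  have h1 := hne p
  refine hD.w_disj p p' ((D.w p).getVert 1) (SimpleGraph.Walk.getVert_mem_support _ _)
    (by rw [h']; exact SimpleGraph.Walk.getVert_mem_support _ _) ?_
    (w_getVert_ne_hub hD p (by omega))
  intro h2
  have := w_getVert_VN hD p (i := 1) (by omega) (by rw [h2]; exact HD.x_VN _)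
  omega

theorem pen_adj (hD : D.Ok) (p : P) : D.G.Adj (D.w p).penultimate (D.hub p) := by
  have h1 := hD.w_ge p
  have h2 := hD.r_pos
  have h3 := (D.w p).adj_getVert_succ (i := (D.w p).length - 1) (by omega)
  rw [show (D.w p).length - 1 + 1 = (D.w p).length by omega,
    SimpleGraph.Walk.getVert_length] at h3
  exact h3

theorem pen_notU (hD : D.Ok) (p : P) : (D.w p).penultimate ∉ D.U := by
  have h1 := hD.w_ge p
  have h2 := hD.r_pos
  exact w_getVert_notU hD p (by omega)

theorem pen_inj (hD : D.Ok) {p p' : P} (h : (D.w p).penultimate = (D.w p').penultimate) :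
    p = p' := by
  have h1 := hD.w_ge p
  have h2 := hD.r_pos
  refine hD.w_disj p p' (D.w p).penultimate (SimpleGraph.Walk.getVert_mem_support _ _)
    (by rw [h]; exact SimpleGraph.Walk.getVert_mem_support _ _) ?_
    (w_getVert_ne_hub hD p (by omega))
  intro h3
  have := w_getVert_VN hD p (i := (D.w p).length - 1) (by omega)
    (by rw [show (D.w p).getVert ((D.w p).length - 1) = D.x p from h3]; exact HD.x_VN _)
  omega

/-- a vertex near the core that is in `N` -/
theorem near_VN (hD : D.Ok) {p q : P} {π : D.N.Walk (D.x p) (D.x q)} {n : ℕ} {z : V}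
    (hz : z ∈ D.VN) (h : (z ∈ (D.w p).support) ∨ (z ∈ (D.w q).support) ∨
      (z ∈ D.VN ∧ Nr D.N (π.length + n) (D.x p) z)) : Nr D.N (π.length + n) (D.x p) z := by
  rcases h with h | h | h
  · have h1 : z = D.x p := by
      by_contra hne
      exact hD.w_N p z h hne hz
    rw [h1]
    exact Nr.refl _ _ _
  · have h1 : z = D.x q := by
      by_contra hne
      exact hD.w_N q z h hne hz
    rw [h1]
    exact (Nr.of_walk π).mono (by omega)
  · exact h.2

end

theorem place_e3 (C K : ℕ) : ∃ k : ℕ, ∀ (V P Q : Type) [Finite V] (D : HD V P Q),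
    D.Ok → GOk D → D.Kh ≤ C → D.L ≤ C * D.r →
    (∀ e ∈ D.G.edgeSet, KPl 1 (D.G.deleteEdges {e})) →
    (∀ v (Z : D.N.Walk v v), Z.IsCycle → ∀ y ∈ Z.support, 64 * (D.Rs y + D.L) < Z.length) →
    ∀ p p' q q', p ≠ p' → q ≠ p → q' ≠ p' → D.hub p = D.hub p' → D.hub q = D.hub q' →
    D.hub q ≠ D.hub p → ∀ g g' t, Nr D.N g (D.x p) (D.x q) → Nr D.N g' (D.x p') (D.x q') →
    (∀ s, Nr D.N s (D.x p) (D.x q) → g' ≤ s) → Nr D.N t (D.x p) (D.x p') →
    ∀ ρ, D.L ≤ ρ → 4 * g ≤ ρ →
    (∀ s, s ≠ p → s ≠ q → ¬ Nr D.N ρ (D.x p) (D.x s)) → D.vol (D.ball ρ (D.x p)) ≤ D.n0 →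
    t ≤ K * ρ → KPl k D.G := by
  classical
  obtain ⟨kk, hkk⟩ := place_slide (13 * C) (16 * (K + 5) + 2 * C + 3)
  refine ⟨kk, ?_⟩
  intro V P Q _ D hD hG hKh hLC hcrit hcyc p p' q q' hpp hqp hqp' hh hhq hqh g g' t hg hg' hmin ht
    ρ hLρ hgρ hfree hvol htK
  have hfinP := pin_fin hD
  have hr := hD.r_pos
  have hrL := hD.r_le
  -- the walks
  obtain ⟨π, hπ, hπg⟩ : ∃ π : D.N.Walk (D.x p) (D.x q), π.IsPath ∧ π.length ≤ g := by
    obtain ⟨W, hW⟩ := hg
    exact ⟨W.bypass, W.bypass_isPath, W.length_bypass_le.trans hW⟩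
  obtain ⟨π', hπg'⟩ := hg'
  obtain ⟨τ, hτ⟩ := ht
  have hgg : π'.length ≤ π.length := hπg'.trans (hmin _ (Nr.of_walk π))
  have lp1 := hD.w_ge p
  have lp2 := hD.w_le p
  have lq1 := hD.w_ge q
  have lq2 := hD.w_le q
  have lp1' := hD.w_ge p'
  have lp2' := hD.w_le p'
  have lq1' := hD.w_ge q'
  have lq2' := hD.w_le q'
  set n := pl3 D p q π with hn
  set n' := pl3 D p' q' π' with hn'
  have hnd : n = (D.w p).length - 1 + π.length + ((D.w q).length - 1) := rfl
  have hnd' : n' = (D.w p').length - 1 + π'.length + ((D.w q').length - 1) := rfl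
  set u := (D.w p).penultimate with hu
  set a := D.hub p with ha
  have haU : a ∈ D.U := hD.hub_U p
  set G0 := outG D.G D.U s(u, a) with hG0
  -- the core
  obtain ⟨Γ, Γ1, Γ2, Γ3, Γ4⟩ := walk_fun (G := G0) (pg D p q π) n
    (fun i hi => pg_adj hD haU hi)
  have hΓp : Γ.IsPath := Γ4 fun i j hij hj => pg_inj hD (Ne.symm hqp) hπ hij hj
  have hΓmem : ∀ i ≤ n, pg D p q π i ∈ Γ.support := by
    intro i hi
    rw [← Γ2 i hi]
    exact SimpleGraph.Walk.getVert_mem_support _ _
  set J := max (ρ / 8) 1 with hJ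
  have hJ1 : 1 ≤ J := le_max_right _ _
  have hJ2 : J = 1 ∨ 8 * J ≤ ρ := by
    rcases le_total (ρ / 8) 1 with h | h
    · left
      rw [hJ, max_eq_right h]
    · right
      rw [hJ, max_eq_left h]
      exact Nat.mul_div_le _ _
  have hJρ : ρ ≤ 16 * J := by
    have h1 : ρ / 8 ≤ J := le_max_left _ _
    have h2 := Nat.lt_div_mul_add (a := ρ) (b := 8) (by norm_num)
    omega
  have hgJ : π.length + J ≤ ρ := by
    rcases hJ2 with h | h <;> omega
  -- the neighbourhood
  have hB : ∀ z, (∃ y ∈ Γ.support, Nr G0 J y z) → z ∉ D.U ∧ ((z ∈ (D.w p).support) ∨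
      (z ∈ (D.w q).support) ∨ (z ∈ D.VN ∧ Nr D.N (π.length + J) (D.x p) z)) := by
    rintro z ⟨y, hy, h⟩
    obtain ⟨i, hi, rfl⟩ := Γ3 y hy
    exact near_core hD hG hfree hi hgJ h
  have hBVN : ∀ z, (∃ y ∈ Γ.support, Nr G0 J y z) → z ∈ D.VN →
      Nr D.N (π.length + J) (D.x p) z := fun z hz hVN => near_VN hD hVN (hB z hz).2
  -- long cycles
  have hcycB : ∀ z (Z : G0.Walk z z), Z.IsCycle → (∃ y ∈ Γ.support, Nr G0 J y z) →
      2 * J + 1 + Γ.length < Z.length := by
    intro z Z hZ hz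
    obtain ⟨Z', hZ', hlen, hsup⟩ := out_cycle hD hG Z hZ
    have hzVN : z ∈ D.VN := by
      obtain ⟨w, hw⟩ : ∃ w, D.N.Adj z w := by
        cases Z' with
        | nil => exact absurd hZ' SimpleGraph.Walk.IsCycle.not_of_nil
        | cons h _ => exact ⟨_, h⟩
      exact HD.VN_of_adj hw
    have h1 := hcyc z Z' hZ' z (SimpleGraph.Walk.start_mem_support _)
    have h2 := Rs_ge (D := D) (y := D.x p) (z := z) (ρ := ρ) ({p, q} : Set P)
      ((Set.ncard_insert_le _ _).trans (by rw [Set.ncard_singleton])) (by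
        intro s hs
        by_contra hno
        rw [Set.mem_insert_iff, Set.mem_singleton_iff, not_or] at hno
        exact hfree s hno.1 hno.2 hs) hvol (hBVN z hz hzVN)
    have h3 := cycle_le Z' hZ'
    rw [hlen] at h1 h3
    have h4 : ρ + 1 - (π.length + J) ≤ D.Rs z := by
      rcases le_total (ρ + 1 - (π.length + J)) (Nat.card V) with h5 | h5
      · rwa [min_eq_left h5] at h2
      · rw [min_eq_right h5] at h2
        omega
    rw [Γ1]
    rcases hJ2 with h | h <;> omega
  obtain ⟨tt, par, core, c1, c2, c3, c4, c5, c6, c7⟩ := core_forest G0 J Γ hΓp hcycB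
  set B : Set V := {z | ∃ y ∈ Γ.support, Nr G0 J y z} with hBdef
  have hΓB : ∀ z ∈ Γ.support, z ∈ B := fun z hz => ⟨z, hz, Nr.refl _ _ _⟩
  have hpg0 : pg D p q π 0 = u := pg_zero
  have hpgn : pg D p q π n = (D.w q).penultimate := pg_end hD
  have huΓ : u ∈ Γ.support := by
    rw [← hpg0]
    exact hΓmem 0 (Nat.zero_le _)
  have hadj : D.G.Adj u a := pen_adj hD p
  have huU : u ∉ D.U := pen_notU hD p
  -- isolation
  have hiso : ∀ z ∈ B, ∀ b ∈ D.U, D.G.Adj z b →
      (b = a ∧ z = u) ∨ (b = D.hub q ∧ z = (D.w q).penultimate) := by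
    intro z hz b hb hzb
    obtain ⟨hzU, h⟩ := hB z hz
    by_cases hVN : z ∈ D.VN
    · exact absurd hzb (VN_nadj hD hG hVN hb)
    rcases h with h | h | h
    · left
      exact pin_iso hD hG h (fun h' => hVN (h' ▸ HD.x_VN _)) (fun h' => hzU (h' ▸ hD.hub_U _))
        hzb hb
    · right
      exact pin_iso hD hG h (fun h' => hVN (h' ▸ HD.x_VN _)) (fun h' => hzU (h' ▸ hD.hub_U _))
        hzb hb
    · exact absurd h.1 hVN
  -- indices
  have hidx : ∀ z, ∃ i, z ∈ Γ.support → i ≤ n ∧ pg D p q π i = z := by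
    intro z
    by_cases hz : z ∈ Γ.support
    · obtain ⟨i, hi, h⟩ := Γ3 z hz
      exact ⟨i, fun _ => ⟨hi, h⟩⟩
    · exact ⟨0, fun h => absurd h hz⟩
  choose idx hidx using hidx
  have hidx_eq : ∀ i ≤ n, idx (pg D p q π i) = i := by
    intro i hi
    obtain ⟨h1, h2⟩ := hidx _ (hΓmem i hi)
    by_contra hne
    rcases lt_or_gt_of_ne hne with h | h
    · exact pg_inj hD (Ne.symm hqp) hπ h hi h2
    · exact pg_inj hD (Ne.symm hqp) hπ h h1 h2.symm
  -- the affine map
  obtain ⟨f, f0, fA, fn, fle, fl, fr, fs⟩ := aff_exists C D.r D.L ((D.w p).length - 1)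
    ((D.w p').length - 1) ((D.w q).length - 1) ((D.w q').length - 1) π.length π'.length hr hLC
    (by omega) (by omega) (by omega) (by omega) hgg
  set M := n + τ.length + n' with hM
  refine hkk V P Q D hD hG (by omega) hcrit u a hadj huU B tt par core J M u ?_ ?_ ?_ ?_ hJ1 ?_ ?_
    ?_ ?_ ?_ ?_ ?_ ?_ ?_ ?_ ?_
  · -- connected
    rintro w ⟨y, hy, W, hW⟩
    have h1 : ∃ p1 : G0.Walk u y, ∀ z ∈ p1.support, z ∈ B := by
      obtain ⟨i, hi, h2⟩ := SimpleGraph.Walk.mem_support_iff_exists_getVert.1 hy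
      have h3 := (Γ.takeUntil y hy).support
      refine ⟨(Γ.takeUntil y hy).copy hpg0 rfl, ?_⟩
      intro z hz
      rw [SimpleGraph.Walk.support_copy] at hz
      exact hΓB z (SimpleGraph.Walk.support_takeUntil_subset_support _ _ hz)
    obtain ⟨p1, hp1⟩ := h1
    refine ⟨(p1.append W).mapLe (outG_le _), ?_⟩
    intro z hz
    rw [SimpleGraph.Walk.support_mapLe_eq_support, SimpleGraph.Walk.mem_support_append_iff] at hz
    rcases hz with hz | hz
    · exact hp1 z hz
    · exact ⟨y, hy, (Nr.of_mem hz).mono hW⟩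
  · intro z hz
    exact (hB z hz).1
  · intro z hz s hs
    obtain ⟨hzU, h | h | h⟩ := hB z hz
    · exact hzU ((hD.wq_w s p z hs h) ▸ hD.hub_U p)
    · exact hzU ((hD.wq_w s q z hs h) ▸ hD.hub_U q)
    · exact hD.wq_N s z hs h.1
  · -- volume
    have h1 := vol_cmp D hD hG B (D.ball ρ (D.x p)) (fun z hz => (hB z hz).1)
      (fun z hz hVN => (hBVN z hz hVN).mono hgJ)
    refine h1.trans ((Nat.mul_le_mul_left 3 hvol).trans ?_)
    unfold HD.n0
    calc 3 * (4 * D.Kh * D.r) = 12 * D.Kh * D.r := by ring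
      _ ≤ 13 * C * D.r := Nat.mul_le_mul_right _ (Nat.mul_le_mul (by norm_num) hKh)
  · -- M
    have h1 : τ.length ≤ K * ρ := hτ.trans htK
    have h2 : M ≤ (K + 5) * ρ := by
      rw [add_mul]
      omega
    calc M ≤ (K + 5) * ρ := h2
      _ ≤ (K + 5) * (16 * J) := Nat.mul_le_mul_left _ hJρ
      _ = 16 * (K + 5) * J := by ring
      _ ≤ (16 * (K + 5) + 2 * C + 3) * J := Nat.mul_le_mul_right _ (by omega)
  · exact fun z hz => c1 z hz
  · intro z hz hne
    obtain ⟨h1, h2, h3, h4⟩ := c2 z hz hne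
    exact ⟨h1, h2, h3, h4⟩
  · exact fun z hz => c3 z hz
  · exact fun z hz z' hz' h => c5 z z' hz hz' h
  · exact fun z hz z' hz' h => c6 z z' hz hz' h
  · exact hΓB u huΓ
  · exact (c4 u (hΓB u huΓ)).2 huΓ
  · intro h
    exact (hB a h).1 haU
  · -- joined to a hub: on the core
    intro z hz b hb hzb hne
    refine (c4 z hz).2 ?_
    rcases hiso z hz b hb hzb with ⟨h1, h2⟩ | ⟨h1, h2⟩
    · rw [h2]
      exact huΓ
    · rw [h2, ← hpgn]
      exact hΓmem n le_rfl
  · -- the tracks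
    intro ord hord
    set H := D.G.deleteEdges {s(u, a)} with hH
    set R := ringOut H D.U ord with hR
    have hHadj : ∀ x y, D.G.Adj x y → s(x, y) ≠ s(u, a) → H.Adj x y := by
      intro x y h1 h2
      rw [hH, SimpleGraph.deleteEdges_adj]
      exact ⟨h1, fun h3 => h2 h3⟩
    have hRadj : ∀ x y, D.G.Adj x y → x ∉ D.U → y ∉ D.U →
        R.Adj (Sum.inl x) (Sum.inl y) := by
      intro x y h1 h2 h3
      refine ringOut_old (hHadj x y h1 ?_) h2 h3
      intro h4
      rw [Sym2.eq_iff] at h4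
      rcases h4 with ⟨-, h4⟩ | ⟨h4, -⟩
      · exact h3 (h4 ▸ haU)
      · exact h2 (h4 ▸ haU)
    have hτVN : ∀ k, τ.getVert k ∈ D.VN := fun k =>
      HD.VN_of_walk τ (HD.x_VN _) (SimpleGraph.Walk.getVert_mem_support _ _)
    obtain ⟨tr, htr⟩ := tracks R n n' τ.length (2 * C + 1) ((D.w p).length - 1)
      ((D.w p').length - 1) (fun i => Sum.inl (pg D p q π i)) (fun k => Sum.inl (τ.getVert k))
      (fun j => Sum.inl (pg D p' q' π' j)) f
      (fun i hi => hRadj _ _ (pg_adjG hD hi) (pg_notU hD (by omega)) (pg_notU hD (by omega)))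
      (fun k hk => hRadj _ _ (hD.N_le (τ.adj_getVert_succ hk)) (HD.VN_U hD (hτVN k))
        (HD.VN_U hD (hτVN (k + 1))))
      (fun i hi => hRadj _ _ (pg_adjG hD hi) (pg_notU hD (by omega)) (pg_notU hD (by omega)))
      (by
        show (Sum.inl (τ.getVert 0) : V ⊕ Dor H D.U) = Sum.inl (pg D p q π _)
        rw [SimpleGraph.Walk.getVert_zero, pg_foot])
      (by
        show (Sum.inl (τ.getVert τ.length) : V ⊕ Dor H D.U) = Sum.inl (pg D p' q' π' _)
        rw [SimpleGraph.Walk.getVert_length, pg_foot])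
      (by omega) (by omega) fA fle fl (fun i h1 h2 => fr i h1 h2) fs
    have hidxle : ∀ z ∈ B, tt z = 0 → idx z ≤ n ∧ pg D p q π (idx z) = z := fun z hz h =>
      hidx z ((c4 z hz).1 h)
    refine ⟨fun z k => tr (idx z) k, ?_, ?_, ?_, ?_, ?_, ?_, ?_⟩
    · intro z hz h0 k _ b hb h
      obtain ⟨h1, -⟩ := hidxle z hz h0
      obtain ⟨-, -, -, -, h2⟩ := htr (idx z) h1
      have h' : tr (idx z) k = Sum.inl b := h
      rcases h2 k with ⟨j, hj, h3⟩ | ⟨j, hj, h3⟩ | ⟨j, hj, h3⟩
      · rw [h'] at h3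
        exact pg_notU hD hj ((Sum.inl.inj h3) ▸ hb)
      · rw [h'] at h3
        exact HD.VN_U hD (hτVN j) ((Sum.inl.inj h3) ▸ hb)
      · rw [h'] at h3
        exact pg_notU hD hj ((Sum.inl.inj h3) ▸ hb)
    · intro z hz h0
      obtain ⟨h1, h2⟩ := hidxle z hz h0
      show tr (idx z) 0 = Sum.inl z
      rw [(htr (idx z) h1).1, h2]
    · intro z hz h0 k _
      obtain ⟨h1, -⟩ := hidxle z hz h0
      exact ((htr (idx z) h1).2.1 k).mono (by omega)
    · intro z hz z' hz' hzz h0 h0' k _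
      obtain ⟨h1, h2⟩ := hidxle z hz h0
      obtain ⟨h1', h2'⟩ := hidxle z' hz' h0'
      have hne : idx z ≠ idx z' := by
        intro h3
        apply hzz.ne
        rw [← h2, ← h2', h3]
      rcases lt_or_gt_of_ne hne with h3 | h3
      · have h4 := c7 (idx z) (idx z') h3 (by rw [Γ1]; exact h1')
          (by rw [Γ2 _ h1, Γ2 _ h1', h2, h2']; exact hzz)
        have h5 := (htr (idx z) h1).2.2.2.1 (by omega) k
        show Nr R _ (tr (idx z) k) (tr (idx z') k)
        rw [h4]
        exact h5.mono (by omega)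
      · have h4 := c7 (idx z') (idx z) h3 (by rw [Γ1]; exact h1)
          (by rw [Γ2 _ h1, Γ2 _ h1', h2, h2']; exact hzz.symm)
        have h5 := (htr (idx z') h1').2.2.2.1 (by omega) k
        show Nr R _ (tr (idx z) k) (tr (idx z') k)
        rw [h4]
        exact h5.symm.mono (by omega)
    · intro h
      exact absurd haU h
    · -- the end of the track of `u`
      intro _
      have hiu : idx u = 0 := by
        rw [← hpg0]
        exact hidx_eq 0 (Nat.zero_le _)
      have h1 : H.Adj (D.w p').penultimate a := by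
        refine hHadj _ _ ?_ ?_
        · rw [hh]
          exact pen_adj hD p'
        · intro h2
          rw [Sym2.eq_iff] at h2
          rcases h2 with ⟨h2, -⟩ | ⟨h2, -⟩
          · exact hpp (pen_inj hD h2.symm)
          · exact pen_notU hD p' (h2 ▸ haU)
      refine ⟨mkDor (D.w p').penultimate a h1 haU, rfl, ?_⟩
      have h2 : tr (idx u) M = Sum.inl (D.w p').penultimate := by
        rw [hiu, (htr 0 (Nat.zero_le _)).2.2.1 M (by omega), f0]
        show (Sum.inl (pg D p' q' π' 0) : V ⊕ Dor H D.U) = _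
        rw [pg_zero]
      show Nr R _ (tr (idx u) M) _
      rw [h2]
      have h3 : R.Adj (Sum.inl (D.w p').penultimate)
          (Sum.inr (mkDor (D.w p').penultimate a h1 haU)) :=
        ringOut_door (mkDor (D.w p').penultimate a h1 haU) (pen_notU hD p')
      refine (Nr.of_adj h3).mono ?_
      exact Nat.one_le_iff_ne_zero.2 (Nat.mul_ne_zero (by omega) (by omega))
    · -- the other end
      intro z hz b hb hzb hne
      rcases hiso z hz b hb hzb with ⟨h1, h2⟩ | ⟨h1, h2⟩
      · exact absurd (by rw [h1, h2]) hne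
      · have hiz : idx z = n := by
          rw [h2, ← hpgn]
          exact hidx_eq n le_rfl
        have h3 : H.Adj (D.w q').penultimate b := by
          refine hHadj _ _ ?_ ?_
          · rw [h1, hhq]
            exact pen_adj hD q'
          · intro h4
            rw [Sym2.eq_iff] at h4
            rcases h4 with ⟨-, h4⟩ | ⟨h4, -⟩
            · exact hqh (h1.symm.trans h4)
            · exact pen_notU hD q' (h4 ▸ haU)
        refine ⟨mkDor (D.w q').penultimate b h3 hb, rfl, ?_⟩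
        have h4 : tr (idx z) M = Sum.inl (D.w q').penultimate := by
          rw [hiz, (htr n le_rfl).2.2.1 M (by omega)]
          show (Sum.inl (pg D p' q' π' (f n)) : V ⊕ Dor H D.U) = _
          rw [show f n = n' from fn, show pg D p' q' π' n' = _ from pg_end hD]
        show Nr R _ (tr (idx z) M) _
        rw [h4]
        have h5 : R.Adj (Sum.inl (D.w q').penultimate)
            (Sum.inr (mkDor (D.w q').penultimate b h3 hb)) :=
          ringOut_door (mkDor (D.w q').penultimate b h3 hb) (pen_notU hD q')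
        refine (Nr.of_adj h5).mono ?_
        exact Nat.one_le_iff_ne_zero.2 (Nat.mul_ne_zero (by omega) (by omega))

end Pool.Agent.Helper43.HH
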