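import Pool.Agent.Helper43.HH.Group
import Pool.Agent.Helper43.HH.MultiMain
import Pool.Agent.Helper43.HH.Groups
import Pool.Agent.Helper63.UP.Cells

/-!
# HH: the multi-scale lemma TL
-/

open Set
open Pool.Agent.Helper83.OP
open Pool.Agent.Helper93.HH

namespace Pool.Agent.Helper43.HH

section

variable {V P Q : Type} [Finite V] [Finite P] [Finite Q] {D : HD V P Q} {K : ℕ} {e0 : Sym2 V}

theorem near_fam (hD : D.Ok) (hK : 1000000 ≤ K) (hN : D.NoPl K) (Bd : Set P)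
    (h1 : ∀ p, D.Thick (D.x p) → p ∈ Bd) (h2 : ∀ p, D.sg (D.x p) = Nat.card V → p ∈ Bd)
    (h3 : ∀ p, e0 ∈ (D.w p).edges → p ∈ Bd) (i : ℕ) (S : Set P)
    (hS : ∀ s ∈ S, s ∉ Bd ∧ D.sg (D.x s) + D.L < 2 ^ (i + 1) * D.L)
    (hsep : ∀ s ∈ S, ∀ s' ∈ S, s ≠ s' → ¬ Nr D.N (64 * (2 ^ i * D.L)) (D.x s) (D.x s')) :
    ∃ (ι : Type) (_ : Fintype ι) (t : ι → Leg3 D e0),
      (∀ x k, ((t x).W k).length ≤ 16 * (2 ^ i * D.L)) ∧
      (∀ f, {x | ∃ k, f ∈ ((t x).W k).edges}.ncard ≤ 1) ∧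
      (∀ p, {x | ∃ k, (t x).p k = p}.ncard ≤ 1) ∧
      S.ncard ≤ Fintype.card ι + Bd.ncard := by
  classical
  have := Fintype.ofFinite P
  have := Fintype.ofFinite V
  have hpow : 2 ^ (i + 1) * D.L = 2 * (2 ^ i * D.L) := by rw [pow_succ]; ring
  set m := 2 ^ i * D.L with hm
  set Good : P → Prop := fun s => ∃ T : Leg3 D e0, T.c = D.x s ∧
    ∀ k, (T.W k).length ≤ 16 * m with hGood
  have hj : ∀ s ∈ S, Good s ∨ ∃ b ∈ Bd, Nr D.N (16 * m) (D.x s) (D.x b) := by
    intro s hs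
    obtain ⟨hsB, hs2⟩ := hS s hs
    rw [hpow] at hs2
    have hcard : D.sg (D.x s) < Nat.card V :=
      lt_of_le_of_ne (D.sg_le_card _) (fun h => hsB (h2 _ h))
    rcases Pool.Agent.Helper23.HH.claimC hD (by omega) hN Bd h1 s hcard with ⟨b, hb, h⟩ | ⟨p, hp1, hp2⟩
    · exact Or.inr ⟨b, hb, h.mono (by omega)⟩
    · left
      have hw : ∀ k, ∃ W : D.N.Walk (D.x s) (D.x (p k)), W.length ≤ 16 * m := by
        intro k
        obtain ⟨W, hW⟩ := (hp2 k).2
        exact ⟨W, by omega⟩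
      choose W hW using hw
      exact ⟨{ c := D.x s, p := p, W := W, inj := hp1, e := fun k h => (hp2 k).1 (h3 _ h) },
        rfl, hW⟩
  have hT : ∀ x : {s // s ∈ S ∧ Good s}, Good x.1 := fun x => x.2.2
  choose T hT1 hT2 using hT
  refine ⟨{s // s ∈ S ∧ Good s}, inferInstance, T, hT2, ?_, ?_, ?_⟩
  · intro f
    rw [Set.ncard_le_one (Set.toFinite _)]
    rintro x ⟨k, hk⟩ x' ⟨k', hk'⟩
    by_contra hne
    have hne' : x.1 ≠ x'.1 := fun h => hne (Subtype.ext h)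
    refine hsep x.1 x.2.1 x'.1 x'.2.1 hne' ?_
    induction f using Sym2.ind with
    | _ u v =>
      have h5 := (Nr.of_mem (SimpleGraph.Walk.fst_mem_support_of_mem_edges _ hk)).mono (hT2 x k)
      have h6 := (Nr.of_mem (SimpleGraph.Walk.fst_mem_support_of_mem_edges _ hk')).mono (hT2 x' k')
      rw [hT1] at h5 h6
      exact (h5.trans h6.symm).mono (by omega)
  · intro p
    rw [Set.ncard_le_one (Set.toFinite _)]
    rintro x ⟨k, hk⟩ x' ⟨k', hk'⟩
    by_contra hne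
    have hne' : x.1 ≠ x'.1 := fun h => hne (Subtype.ext h)
    refine hsep x.1 x.2.1 x'.1 x'.2.1 hne' ?_
    have h5 := (Nr.of_walk ((T x).W k)).mono (hT2 x k)
    have h6 := (Nr.of_walk ((T x').W k')).mono (hT2 x' k')
    rw [hT1, hk] at h5
    rw [hT1, hk'] at h6
    exact (h5.trans h6.symm).mono (by omega)
  · have hdrop : ∀ s, ∃ b : P, s ∈ S ∧ ¬ Good s → b ∈ Bd ∧ Nr D.N (16 * m) (D.x s) (D.x b) := by
      intro s
      by_cases hs : s ∈ S ∧ ¬ Good s
      · rcases hj s hs.1 with h | ⟨b, hb, h⟩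
        · exact absurd h hs.2
        · exact ⟨b, fun _ => ⟨hb, h⟩⟩
      · exact ⟨s, fun h => absurd h hs⟩
    choose b hb using hdrop
    have h5 : {s | s ∈ S ∧ ¬ Good s}.ncard ≤ Bd.ncard := by
      refine Set.ncard_le_ncard_of_injOn b (fun s hs => (hb s hs).1) ?_ (Set.toFinite _)
      intro s hs s' hs' h
      by_contra hne
      refine hsep s hs.1 s' hs'.1 hne ?_
      have e1 := (hb s hs).2
      have e2 := (hb s' hs').2
      rw [← h] at e2
      exact (e1.trans e2.symm).mono (by omega)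
    have h6 : S ⊆ {s | s ∈ S ∧ Good s} ∪ {s | s ∈ S ∧ ¬ Good s} := by
      intro s hs
      by_cases hg : Good s
      · exact Or.inl ⟨hs, hg⟩
      · exact Or.inr ⟨hs, hg⟩
    have h7 : Fintype.card {s // s ∈ S ∧ Good s} = {s | s ∈ S ∧ Good s}.ncard := by
      rw [← Nat.card_eq_fintype_card]
      rfl
    have h8 := (Set.ncard_le_ncard h6 (Set.toFinite _)).trans (Set.ncard_union_le _ _)
    omega

theorem ncard_sum_le {α β : Type} [Finite α] [Finite β] (R : α ⊕ β → Prop) :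
    {x | R x}.ncard ≤ {a | R (Sum.inl a)}.ncard + {b | R (Sum.inr b)}.ncard := by
  have h : {x | R x} ⊆ Sum.inl '' {a | R (Sum.inl a)} ∪ Sum.inr '' {b | R (Sum.inr b)} := by
    rintro (a | b) h
    · exact Or.inl ⟨a, h, rfl⟩
    · exact Or.inr ⟨b, h, rfl⟩
  refine (Set.ncard_le_ncard h (Set.toFinite _)).trans ((Set.ncard_union_le _ _).trans ?_)
  exact Nat.add_le_add (Set.ncard_image_le (Set.toFinite _)) (Set.ncard_image_le (Set.toFinite _))

/-- the pins of scale `i` -/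
def PI (D : HD V P Q) (Bd : Set P) (i : ℕ) : Set P :=
  {p | p ∉ Bd ∧ 2 ^ i * D.L ≤ D.sg (D.x p) + D.L ∧ D.sg (D.x p) + D.L < 2 ^ (i + 1) * D.L}

theorem scale (hD : D.Ok) (hK : 1000000 ≤ K) (hN : D.NoPl K) (Bd : Set P)
    (h1 : ∀ p, D.Thick (D.x p) → p ∈ Bd) (h2 : ∀ p, D.sg (D.x p) = Nat.card V → p ∈ Bd)
    (h3 : ∀ p, e0 ∈ (D.w p).edges → p ∈ Bd) (i : ℕ) :
    ∃ (ι : Type) (_ : Fintype ι) (t : ι → Leg3 D e0),
      (∀ x k, ((t x).W k).length ≤ 65 * 2 ^ i * D.L) ∧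
      (∀ f, {x | ∃ k, f ∈ ((t x).W k).edges}.ncard ≤ 7) ∧
      (∀ p, {x | ∃ k, (t x).p k = p}.ncard ≤ 7) ∧
      (PI D Bd i).ncard ≤ 3 * Fintype.card ι + 5 * Bd.ncard := by
  classical
  have := Fintype.ofFinite P
  have := Fintype.ofFinite V
  set m := 2 ^ i * D.L with hm
  let Y : Type := {p // p ∈ PI D Bd i}
  -- the net
  obtain ⟨C, hC1, hC2⟩ := Pool.Agent.Helper63.UP.centres (V := Y) (fun _ => 0)
    (fun p p' => Nr D.N (64 * m) (D.x p.1) (D.x p'.1)) (fun _ _ h => h.symm)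
    (fun _ => Nr.refl _ _ _)
  set S : Set P := Subtype.val '' C with hS
  have hSPI : ∀ s ∈ S, s ∈ PI D Bd i := by
    rintro s ⟨y, -, rfl⟩
    exact y.2
  have hsep : ∀ s ∈ S, ∀ s' ∈ S, s ≠ s' → ¬ Nr D.N (64 * m) (D.x s) (D.x s') := by
    rintro s ⟨y, hy, rfl⟩ s' ⟨y', hy', rfl⟩ hne
    exact hC1 y hy y' hy' (fun h => hne (by rw [h]))
  have hnet : ∀ p ∈ PI D Bd i, ∃ s ∈ S, Nr D.N (64 * m) (D.x p) (D.x s) := by
    intro p hp
    obtain ⟨c, hc, -, h⟩ := hC2 ⟨p, hp⟩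
    exact ⟨c.1, ⟨c, hc, rfl⟩, h⟩
  -- the forest
  obtain ⟨par, dep, hadj, hpar, hroot⟩ := exists_forest D.N (D.x '' S)
  have hdep : ∀ p ∈ PI D Bd i, dep (D.x p) ≤ 64 * m ∧ par^[dep (D.x p)] (D.x p) ∈ D.x '' S := by
    intro p hp
    obtain ⟨s, hs, h⟩ := hnet p hp
    exact hroot _ _ _ ⟨s, hs, rfl⟩ h
  -- the groups
  obtain ⟨J, instJ, q, c, k, hinj, hk, hload, hleft⟩ :=
    groups par dep hpar (fun y : Y => D.x y.1)
  have hdw : ∀ j a, ∃ p : D.N.Walk (c j) (D.x (q j a).1), p.length = k j a ∧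
      ∀ f ∈ p.edges, ∃ s < k j a, f = s(par^[s] (D.x (q j a).1), par^[s + 1] (D.x (q j a).1)) :=
    fun j a => up_walk hadj hpar (k j a) _ _ (hk j a).1 (hk j a).2
  choose dw hdl hde using hdw
  obtain ⟨ι1, inst1, t1, a1, a2, a3, a4⟩ := group_fam (e0 := e0) hD hK hN Bd h1 h3 i J
    (fun j a => (q j a).1) (fun j a => (q j a).2.1) (fun j a => (q j a).2.2.1)
    (fun j a j' a' h => hinj j a j' a' (Subtype.ext h)) par c k dw
    (fun j a => by
      rw [hdl]
      exact (hk j a).1.trans (hdep _ (q j a).2).1) hde hload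
  obtain ⟨ι2, inst2, t2, b1, b2, b3, b4⟩ := near_fam (e0 := e0) hD hK hN Bd h1 h2 h3 i S
    (fun s hs => ⟨(hSPI s hs).1, (hSPI s hs).2.2⟩) hsep
  refine ⟨ι1 ⊕ ι2, inferInstance, Sum.elim t1 t2, ?_, ?_, ?_, ?_⟩
  · have hm65 : 65 * 2 ^ i * D.L = 65 * m := by rw [hm]; ring
    rintro (x | x) k
    · rw [hm65]
      exact a1 x k
    · rw [hm65]
      exact (b1 x k).trans (by omega)
  · intro f
    refine (ncard_sum_le _).trans ?_
    have e1 := a2 f
    have e2 := b2 f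
    simp only [Sum.elim_inl, Sum.elim_inr]
    omega
  · intro p
    refine (ncard_sum_le _).trans ?_
    have e1 := a3 p
    have e2 := b3 p
    simp only [Sum.elim_inl, Sum.elim_inr]
    omega
  · -- count of the pins
    have hY : (PI D Bd i).ncard = (Set.univ : Set Y).ncard := by
      rw [Set.ncard_univ]
      rfl
    set G : Set Y := Set.range fun a : J × Fin 3 => q a.1 a.2 with hG
    have hGc : G.ncard ≤ 3 * Fintype.card J := by
      rw [hG, ← Set.image_univ]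
      refine (Set.ncard_image_le (Set.toFinite _)).trans ?_
      rw [Set.ncard_univ, Nat.card_eq_fintype_card, Fintype.card_prod, Fintype.card_fin]
      omega
    set Rt : Set V := D.x '' S with hRt
    have hRc : Rt.ncard ≤ S.ncard := Set.ncard_image_le (Set.toFinite _)
    have hcov : (Set.univ : Set Y) ⊆ G ∪ ⋃ t ∈ (Set.toFinite Rt).toFinset,
        {y : Y | par^[dep (D.x y.1)] (D.x y.1) = t ∧ ∀ j i, q j i ≠ y} := by
      intro y _
      by_cases hy : ∃ j i, q j i = y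
      · obtain ⟨j, a, h⟩ := hy
        exact Or.inl ⟨(j, a), h⟩
      · right
        push Not at hy
        simp only [Set.mem_iUnion]
        exact ⟨_, (Set.Finite.mem_toFinset _).2 (hdep _ y.2).2, rfl, hy⟩
    have hle := (Set.ncard_le_ncard hcov (Set.toFinite _)).trans (Set.ncard_union_le _ _)
    have hle2 := (Finset.set_ncard_biUnion_le (Set.toFinite Rt).toFinset
      (fun t => {y : Y | par^[dep (D.x y.1)] (D.x y.1) = t ∧ ∀ j i, q j i ≠ y})).trans
      (Finset.sum_le_card_nsmul _ _ 2 (fun t _ => hleft t))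
    rw [smul_eq_mul, ← Set.ncard_eq_toFinset_card _ (Set.toFinite Rt)] at hle2
    rw [hY, Fintype.card_sum]
    omega

end

open Classical in
theorem TL : ∃ A K1 : ℕ, ∀ (V P Q : Type) [Finite V] [Fintype P] [Finite Q] (D : HD V P Q)
    (K : ℕ) (H : SimpleGraph V) (e0 : Sym2 V) (X : Sym2 V → Sym2 V → Prop) (Bd : Set P),
    D.Ok → K1 ≤ K → D.NoPl K → D.Dr H e0 X →
    (∀ p, D.Thick (D.x p) → p ∈ Bd) → (∀ p, D.sg (D.x p) = Nat.card V → p ∈ Bd) →
    (∀ p, e0 ∈ (D.w p).edges → p ∈ Bd) →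
    ∑ p : P, (if p ∈ Bd then 0 else 1 / ((D.sg (D.x p) : ℝ) + D.L)) ≤
      A * (D.Kh + 1) * ((D.U.ncard : ℝ) + Bd.ncard / D.r) := by
  refine ⟨20000000, 1000000, ?_⟩
  intro V P Q _ _ _ D K H e0 X Bd hD hK hN hX h1 h2 h3
  have hr := hD.r_pos
  have hrL := hD.r_le
  have hsc := fun i => scale (e0 := e0) hD hK hN Bd h1 h2 h3 i
  choose ι inst t a1 a2 a3 a4 using hsc
  set M : ℕ := Nat.card V + 1 with hM
  have hmulti := multi hD hX 7 65 M (fun i => ι i) (fun i => t i) (fun i => a1 i)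
    (fun i => a2 i) (fun i => a3 i)
  -- every good pin has a scale
  have hex : ∀ p ∉ Bd, ∃ i < M, p ∈ PI D Bd i := by
    intro p hp
    set n := (D.sg (D.x p) + D.L) / D.L with hn
    have hL : 0 < D.L := by omega
    have hn1 : n * D.L ≤ D.sg (D.x p) + D.L := Nat.div_mul_le_self _ _
    have hn2 : D.sg (D.x p) + D.L < (n + 1) * D.L := by
      have := Nat.lt_div_mul_add (a := D.sg (D.x p) + D.L) hL
      rw [← hn] at this
      rw [add_mul, one_mul]
      exact this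
    have hn0 : n ≠ 0 := by
      intro h0
      rw [h0, zero_add, one_mul] at hn2
      omega
    have hlog1 := Nat.pow_log_le_self 2 hn0
    have hlog2 := Nat.lt_pow_succ_log_self (b := 2) (by norm_num) n
    refine ⟨Nat.log 2 n, ?_, hp, ?_, ?_⟩
    · have h4 : Nat.log 2 n < 2 ^ Nat.log 2 n := Nat.lt_two_pow_self
      have h5 := D.sg_le_card (D.x p)
      have h6 : n ≤ Nat.card V + 1 := by
        by_contra hcon
        push Not at hcon
        have h7 : (Nat.card V + 2) * D.L ≤ n * D.L := Nat.mul_le_mul_right _ hcon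
        have h8 : Nat.card V ≤ Nat.card V * D.L := Nat.le_mul_of_pos_right _ hL
        rw [add_mul] at h7
        omega
      omega
    · exact (Nat.mul_le_mul_right _ hlog1).trans hn1
    · exact hn2.trans_le (Nat.mul_le_mul_right _ hlog2)
  have hLr : (0 : ℝ) < D.L := by exact_mod_cast (by omega : 0 < D.L)
  have hrr : (0 : ℝ) < D.r := by exact_mod_cast (by omega : 0 < D.r)
  have hstep : ∀ p : P, (if p ∈ Bd then 0 else 1 / ((D.sg (D.x p) : ℝ) + D.L)) ≤
      ∑ i : Fin M, (if p ∈ PI D Bd i then (1 / 2) ^ (i : ℕ) / (D.L : ℝ) else 0) := by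
    intro p
    have hnn : ∀ i : Fin M,
        (0 : ℝ) ≤ (if p ∈ PI D Bd i then (1 / 2) ^ (i : ℕ) / (D.L : ℝ) else 0) := by
      intro i
      split_ifs
      · positivity
      · exact le_rfl
    by_cases hp : p ∈ Bd
    · rw [if_pos hp]
      exact Finset.sum_nonneg fun i _ => hnn i
    · rw [if_neg hp]
      obtain ⟨i, hi, hpi⟩ := hex p hp
      have h4 := Finset.single_le_sum (f := fun i : Fin M =>
        (if p ∈ PI D Bd i then (1 / 2) ^ (i : ℕ) / (D.L : ℝ) else 0)) (fun i _ => hnn i)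
        (Finset.mem_univ (⟨i, hi⟩ : Fin M))
      refine le_trans ?_ h4
      show _ ≤ (if p ∈ PI D Bd i then (1 / 2) ^ i / (D.L : ℝ) else 0)
      rw [if_pos hpi]
      have h5 : (2 : ℝ) ^ i * D.L ≤ (D.sg (D.x p) : ℝ) + D.L := by exact_mod_cast hpi.2.1
      rw [one_div_pow, div_div]
      exact one_div_le_one_div_of_le (by positivity) h5
  have hcnt : ∀ i : Fin M, ∑ p : P, (if p ∈ PI D Bd i then (1 / 2) ^ (i : ℕ) / (D.L : ℝ) else 0) ≤
      (3 * (Fintype.card (ι i) : ℝ) + 5 * Bd.ncard) * ((1 / 2) ^ (i : ℕ) / D.L) := by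
    intro i
    rw [← Finset.sum_filter, Finset.sum_const, nsmul_eq_mul]
    refine mul_le_mul_of_nonneg_right ?_ (by positivity)
    have h4 := a4 i
    have h5 : PI D Bd i = ((Finset.univ.filter fun p => p ∈ PI D Bd i : Finset P) : Set P) := by
      ext p
      simp
    rw [h5, Set.ncard_coe_finset] at h4
    exact_mod_cast h4
  calc ∑ p : P, (if p ∈ Bd then 0 else 1 / ((D.sg (D.x p) : ℝ) + D.L))
      ≤ ∑ p : P, ∑ i : Fin M, (if p ∈ PI D Bd i then (1 / 2) ^ (i : ℕ) / (D.L : ℝ) else 0) :=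
        Finset.sum_le_sum fun p _ => hstep p
    _ = ∑ i : Fin M, ∑ p : P, (if p ∈ PI D Bd i then (1 / 2) ^ (i : ℕ) / (D.L : ℝ) else 0) :=
        Finset.sum_comm
    _ ≤ ∑ i : Fin M, (3 * (Fintype.card (ι i) : ℝ) + 5 * Bd.ncard) *
        ((1 / 2) ^ (i : ℕ) / D.L) := Finset.sum_le_sum fun i _ => hcnt i
    _ = (3 * ∑ i : Fin M, (Fintype.card (ι i) : ℝ) * (1 / 2) ^ (i : ℕ) +
        5 * Bd.ncard * ∑ i : Fin M, ((1 : ℝ) / 2) ^ (i : ℕ)) / D.L := by
        rw [Finset.mul_sum, Finset.mul_sum, ← Finset.sum_add_distrib, Finset.sum_div]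
        refine Finset.sum_congr rfl fun i _ => ?_
        ring
    _ ≤ (3 * (10000 * (7 : ℕ) * ((65 : ℕ) + 1) * (D.Kh + 1) * D.L * D.U.ncard) +
        5 * Bd.ncard * 2) / D.L := by
        refine div_le_div_of_nonneg_right ?_ hLr.le
        refine add_le_add (mul_le_mul_of_nonneg_left hmulti (by norm_num))
          (mul_le_mul_of_nonneg_left ?_ (by positivity))
        have h6 := geom_tail 0 M
        simpa using h6
    _ = 13860000 * (D.Kh + 1) * D.U.ncard + 10 * (Bd.ncard / D.L) := by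
        field_simp
        push_cast
        ring
    _ ≤ (20000000 : ℕ) * (D.Kh + 1) * ((D.U.ncard : ℝ) + Bd.ncard / D.r) := by
        have h7 : (Bd.ncard : ℝ) / D.L ≤ Bd.ncard / D.r := by
          refine div_le_div_of_nonneg_left (Nat.cast_nonneg _) hrr ?_
          exact_mod_cast hrL
        have h8 : (0 : ℝ) ≤ Bd.ncard / D.r := by positivity
        have h9 : (0 : ℝ) ≤ D.Kh := Nat.cast_nonneg _
        have h10 : (0 : ℝ) ≤ D.U.ncard := Nat.cast_nonneg _
        have h11 : (0 : ℝ) ≤ D.Kh * D.U.ncard := mul_nonneg h9 h10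
        have h12 : (0 : ℝ) ≤ D.Kh * (Bd.ncard / D.r) := mul_nonneg h9 h8
        push_cast
        nlinarith

end Pool.Agent.Helper43.HH
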